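import Pool.Agent.Helper6.SP.Search

set_option autoImplicit false

/-!
The final test at explicit points.
-/

namespace Pool.Agent.Helper6.SP

open Turing Function N487b59b3 N68a2faeb Pool.Agent.Helper22 Computability Pool.Agent.Helper6.WB

section

variable {α β γ δ : Type} [N487b59b3 α] [N487b59b3 β] [N487b59b3 γ] [N487b59b3 δ]

omit [N487b59b3 β] in
theorem zipIdx_foldl (l : List β) (n : ℕ) (acc : List (β × ℕ)) :
    l.foldl (fun (s : ℕ × List (β × ℕ)) (c : β) => (s.1 + 1, s.2 ++ [(c, s.1)])) (n, acc) =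
      (n + l.length, acc ++ l.zipIdx n) := by
  induction l generalizing n acc with
  | nil => simp
  | cons b l ih =>
    rw [List.foldl_cons, ih, List.length_cons, List.zipIdx_cons]
    simp only [List.append_assoc, List.singleton_append, Prod.mk.injEq, and_true]
    omega

theorem sz_zipIdx (l : List β) (n : ℕ) :
    sz (l.zipIdx n) ≤ 2 * sz l + l.length * (2 * (n.size + l.length) + 3) := by
  induction l generalizing n with
  | nil => simp
  | cons b l ih =>
    rw [List.zipIdx_cons, sz_cons, sz_pair, sz_cons, List.length_cons, sz_nat n]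
    have h1 : (n + 1).size ≤ n.size + 1 := by
      rw [Nat.size_le, pow_succ]
      have := Nat.lt_size_self n
      have h2 : 0 < 2 ^ n.size := by positivity
      omega
    have h2 := ih (n + 1)
    have h3 : l.length * (2 * ((n + 1).size + l.length) + 3) ≤
        l.length * (2 * (n.size + (l.length + 1)) + 3) := Nat.mul_le_mul_left _ (by omega)
    have h4 : (l.length + 1) * (2 * (n.size + (l.length + 1)) + 3) =
      l.length * (2 * (n.size + (l.length + 1)) + 3) + (2 * (n.size + (l.length + 1)) + 3) := by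
      ring
    omega

theorem fp_zipIdx [Inhabited β] {f : α → List β} (hf : FP f) : FP fun a => (f a).zipIdx := by
  have h1 : FP fun p : List β × (ℕ × List (β × ℕ)) => p.1.foldl
      (fun (s : ℕ × List (β × ℕ)) (c : β) => (s.1 + 1, s.2 ++ [(c, s.1)])) p.2 := by
    refine FP.foldl (g := fun (s : ℕ × List (β × ℕ)) (c : β) => (s.1 + 1, s.2 ++ [(c, s.1)])) ?_
      (B := fun n => 2 * (2 * n) + 1 + (n + (2 * n + n * (2 * (n + n) + 3)))) (by fun_prop) ?_
    · have h2 : FP fun p : (ℕ × List (β × ℕ)) × β => p.1.1 + 1 :=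
        WB.FP.natAdd (by fun_prop) (FP.const 1)
      have h3 : FP fun p : (ℕ × List (β × ℕ)) × β => [(p.2, p.1.1)] :=
        FP.cons (by fun_prop) (FP.const [])
      exact h2.pair (FP.append (by fun_prop) h3)
    · rintro l ⟨n, acc⟩
      rw [zipIdx_foldl]
      have h0 := length_le_sz l
      have h4 := sz_zipIdx l n
      have h5 : (n + l.length).size ≤ n.size + l.length := by
        rw [Nat.size_le, pow_add]
        have h6 := Nat.lt_size_self n
        have h7 : l.length < 2 ^ l.length := Nat.lt_two_pow_self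
        have h8 : (n + 1) * (l.length + 1) ≤ 2 ^ n.size * 2 ^ l.length := Nat.mul_le_mul h6 h7
        nlinarith
      simp only [sz_pair, sz_append, sz_nat]
      generalize hN : sz l + (2 * n.size + 1 + sz acc) = N
      have h9 : l.length * (2 * (n.size + l.length) + 3) ≤ N * (2 * (N + N) + 3) :=
        Nat.mul_le_mul (by omega) (by omega)
      omega
  have h2 := h1.comp (hf.pair (FP.pair (FP.const 0) (FP.const ([] : List (β × ℕ)))))
  refine (congrArg FP (funext fun a => ?_)).mp h2.snd'
  simp only [zipIdx_foldl, List.nil_append]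

/-- a coordinate of the final points; the arguments are the environment, the parameters, the list
of the positions, the code of the variable and its position -/
def valC (C : ℕ) (p : (En × (List ℕ × List ℕ)) × (ℕ × ℕ)) : ℚ :=
  toQ (lookE p.1.1 p.2.1) + ∑ l : Fin C, (p.1.2.1.getD l 0 : ℚ) *
    (p.1.2.2.map fun j => if decide (j = p.2.2) then (1 : ℚ) else
      (p.1.2.1.getD (C + l) 0 : ℚ) - (j : ℚ)).prod

theorem fq_valC (C : ℕ) : FQ (valC C) := by
  have h1 : FQ fun p : (En × (List ℕ × List ℕ)) × (ℕ × ℕ) => toQ (lookE p.1.1 p.2.1) := by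
    have h2 : FP fun p : (En × (List ℕ × List ℕ)) × (ℕ × ℕ) => fixE (lookE p.1.1 p.2.1) := by
      fun_prop
    exact (FQ.ofEl h2 fun a => fixE_den _).congr fun a => (toQ_fixE _).symm
  refine h1.add (FQ.sum Finset.univ fun l : Fin C => ?_)
  have h3 : FP fun p : (En × (List ℕ × List ℕ)) × (ℕ × ℕ) => p.1.2.1.getD l 0 :=
    fp_getD (by fun_prop) l 0
  have h4 : FQ fun q : ((En × (List ℕ × List ℕ)) × (ℕ × ℕ)) × ℕ =>
      if decide (q.2 = q.1.2.2) then (1 : ℚ) else (q.1.1.2.1.getD (C + l) 0 : ℚ) - (q.2 : ℚ) := by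
    have h5 : FP fun q : ((En × (List ℕ × List ℕ)) × (ℕ × ℕ)) × ℕ => q.1.1.2.1.getD (C + l) 0 :=
      fp_getD (by fun_prop) (C + l) 0
    have h6 : FP fun q : ((En × (List ℕ × List ℕ)) × (ℕ × ℕ)) × ℕ => decide (q.2 = q.1.2.2) := by
      fun_prop
    exact FQ.ite h6 (FQ.const 1) ((FQ.ofNat h5).sub (FQ.ofNat FP.snd))
  have h7 : FQ fun p : (En × (List ℕ × List ℕ)) × (ℕ × ℕ) =>
      (p.1.2.2.map fun j => if decide (j = p.2.2) then (1 : ℚ) else
        (p.1.2.1.getD (C + l) 0 : ℚ) - (j : ℚ)).prod :=
    (FQ.listProd h4).comp (g := fun p : (En × (List ℕ × List ℕ)) × (ℕ × ℕ) => (p, p.1.2.2))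
      (FP.id.pair (by fun_prop))
  exact (FQ.ofNat h3).mul h7

/-- the coordinate as an element -/
noncomputable def valF (C : ℕ) : (En × (List ℕ × List ℕ)) × (ℕ × ℕ) → El := (fq_valC C).choose

theorem fp_valF (C : ℕ) : FP (valF C) := (fq_valC C).choose_spec.1

theorem toQ_valF (C : ℕ) (p : (En × (List ℕ × List ℕ)) × (ℕ × ℕ)) :
    toQ (valF C p) = valC C p := (fq_valC C).choose_spec.2.2 p

/-- the final environments -/
noncomputable def envF (C : ℕ) (p : (Inp × En) × List ℕ) : En :=
  (names p.1.1).zipIdx.map fun q =>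
    (q.1, valF C ((p.1.2, (p.2, List.range (names p.1.1).length)), q))

theorem fp_envF (C : ℕ) : FP (envF C) := by
  have h0 : FP fun p : (Inp × En) × List ℕ => names p.1.1 :=
    fp_names.comp (f := fun p : (Inp × En) × List ℕ => p.1.1) (by fun_prop)
  have h1 : FP fun p : (Inp × En) × List ℕ => List.range (names p.1.1).length := FP.range h0
  have h2 : FP fun r : ((Inp × En) × List ℕ) × (ℕ × ℕ) =>
      ((r.1.1.2, (r.1.2, List.range (names r.1.1.1).length)), r.2) :=
    FP.pair (FP.pair (by fun_prop) (FP.pair (by fun_prop) (h1.comp FP.fst))) FP.snd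
  have h3 : FP fun r : ((Inp × En) × List ℕ) × (ℕ × ℕ) => ((r.2.1,
      valF C ((r.1.1.2, (r.1.2, List.range (names r.1.1.1).length)), r.2)) : ℕ × El) :=
    FP.pair (by fun_prop) ((fp_valF C).comp h2)
  exact fp_map (fp_zipIdx h0) h3

theorem fq_prV : FQ fun p : En × List Wd => (p.2.map fun g => topV g p.1).prod := by
  have h1 : FQ fun q : En × Wd => topV q.2 q.1 := fq_topV FP.snd FP.fst
  exact FQ.listProd h1

/-- the value of a product -/
noncomputable def prF : En × List Wd → El := fq_prV.choose

theorem fp_prF : FP prF := fq_prV.choose_spec.1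

theorem toQ_prF (p : En × List Wd) : toQ (prF p) = (p.2.map fun g => topV g p.1).prod :=
  fq_prV.choose_spec.2.2 p

/-- the environment of the values of the products -/
noncomputable def env2 (p : En × Inp) : En := p.2.zipIdx.map fun q => (q.2 + 3, prF (p.1, q.1))

theorem fp_env2 : FP env2 := by
  have h1 : FP fun r : (En × Inp) × (List Wd × ℕ) => ((r.2.2 + 3, prF (r.1.1, r.2.1)) : ℕ × El) :=
    FP.pair (WB.FP.natAdd (by fun_prop) (FP.const 3))
      (fp_prF.comp (f := fun r : (En × Inp) × (List Wd × ℕ) => (r.1.1, r.2.1)) (by fun_prop))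
  exact fp_map (fp_zipIdx FP.snd) h1

/-- the value of the composition -/
noncomputable def outV (p : En × (Wd × Inp)) : ℚ := topV p.2.1 (env2 (p.1, p.2.2))

theorem fq_outV : FQ outV :=
  fq_topV (f := fun p : En × (Wd × Inp) => p.2.1)
    (g := fun p : En × (Wd × Inp) => env2 (p.1, p.2.2)) (by fun_prop)
    (fp_env2.comp (f := fun p : En × (Wd × Inp) => (p.1, p.2.2)) (by fun_prop))

/-- the values of the parameters -/
def grid3 (p : Wd × Inp) : List ℕ :=
  List.range (true :: (un ((un ((p.1.map fun _ => true).length *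
    ((toks p.2).map fun _ => true).length)).length * ((toks p.2).map fun _ => true).length) ++
    un ((p.1.map fun _ => true).length * ((toks p.2).map fun _ => true).length))).length

theorem fp_grid3 : FP grid3 := by
  have h1 : FP fun p : Wd × Inp => (toks p.2).map fun t =>
      (fun _ : (Wd × Inp) × (ℕ × ℚ) => true) (p, t) :=
    fp_map (fp_toks.comp FP.snd) (FP.const true)
  have h2 : FP fun p : Wd × Inp => p.1.map fun t =>
      (fun _ : (Wd × Inp) × (ℕ × ℚ) => true) (p, t) :=
    fp_map FP.fst (FP.const true)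
  have h3 := FP.unMul h2 h1
  exact FP.range (FP.cons (FP.const true) (FP.append (FP.unMul h3 h1) h3))

theorem mem_grid3 {p : Wd × Inp} {v : ℕ} :
    v ∈ grid3 p ↔ v ≤ p.1.length * (toks p.2).length * (toks p.2).length +
      p.1.length * (toks p.2).length := by
  unfold grid3
  rw [List.mem_range]
  simp only [List.length_cons, List.length_append, Helper22.un_length, List.length_map]
  omega

/-- the decision algorithm -/
noncomputable def decF (k N κ C : ℕ) (p : Wd × Inp) : Bool :=
  !((lpow (grid3 p) (C + C)).any fun zs =>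
    !(decide (outV (envF C ((p.2, ptF k N κ p.2), zs), p) = 0)))

theorem fp_decF (k N κ C : ℕ) : FP (decF k N κ C) := by
  have h1 : FP fun q : (Wd × Inp) × List ℕ => ((q.1.2, ptF k N κ q.1.2), q.2) :=
    FP.pair (FP.pair (by fun_prop) ((fp_ptF k N κ).comp (by fun_prop))) FP.snd
  have h2 : FP fun q : (Wd × Inp) × List ℕ =>
      !(decide (outV (envF C ((q.1.2, ptF k N κ q.1.2), q.2), q.1) = 0)) :=
    FP.not (fq_outV.comp (FP.pair ((fp_envF C).comp h1) FP.fst)).eqZero
  exact FP.not (fp_any (fp_lpow fp_grid3 (C + C)) h2)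

end

end Pool.Agent.Helper6.SP
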