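import Pool.Agent.Helper6.SP.Hit
import Pool.Agent.Helper6.SP.Test

set_option autoImplicit false

/-!
Identity testing for sums of products of read-`r` formulas, the products having bounded
transcendence degree, in polynomial time.
-/

namespace Pool.Agent.Helper6.SP

open MvPolynomial Pool.Agent.Helper6.WB

theorem prod_range_map (n : ℕ) (f : ℕ → ℚ) :
    ((List.range n).map f).prod = ∏ j ∈ Finset.range n, f j := by
  induction n with
  | zero => simp
  | succ n ih => rw [List.range_succ, List.map_append, List.prod_append, ih,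
      Finset.prod_range_succ]; simp

theorem prod_erase (n : ℕ) (g : ℕ → ℚ) (i : Fin n) :
    ((List.range n).map fun j => if decide (j = i.val) then (1 : ℚ) else g j).prod =
      ∏ j ∈ Finset.univ.erase i, g j.val := by
  rw [prod_range_map, Finset.prod_range, ← Finset.mul_prod_erase Finset.univ _
    (Finset.mem_univ i)]
  simp only [decide_true, if_true, one_mul]
  apply Finset.prod_congr rfl
  intro j hj
  have h1 : ¬ (j.val = i.val) := fun h => (Finset.ne_of_mem_erase hj) (Fin.ext h)
  simp [h1]

/-- the variables -/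
def vr (L : Inp) (i : Fin (names L).length) : ℕ := (names L)[i.val] - 3

theorem vr_add (L : Inp) (i : Fin (names L).length) : vr L i + 3 = (names L)[i.val] := by
  have h := (mem_names.mp (List.getElem_mem i.2)).1
  rw [vr, Nat.sub_add_cancel h]

theorem vr_inj (L : Inp) : Function.Injective (vr L) := by
  intro i j h
  have h1 : (names L)[i.val] = (names L)[j.val] := by rw [← vr_add, ← vr_add, h]
  exact Fin.ext ((names_nodup L).getElem_inj_iff.mp h1)

theorem vr_range (L : Inp) (i : ℕ) : i + 3 ∈ names L ↔ ∃ j, vr L j = i := by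
  constructor
  · intro h
    obtain ⟨j, hj, hj'⟩ := List.getElem_of_mem h
    refine ⟨⟨j, hj⟩, ?_⟩
    have := vr_add L ⟨j, hj⟩
    simp only at this
    omega
  · rintro ⟨j, rfl⟩
    rw [vr_add]
    exact List.getElem_mem j.2

theorem lookE_envF (C : ℕ) (L : Inp) (e : En) (zs : List ℕ) (i : Fin (names L).length) :
    lookE (envF C ((L, e), zs)) (vr L i + 3) =
      valF C ((e, (zs, List.range (names L).length)), ((names L)[i.val], i.val)) := by
  rw [vr_add, lookE]
  apply lookE_aux
  · intro p hp hpi
    unfold envF at hp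
    obtain ⟨q, hq, rfl⟩ := List.mem_map.mp hp
    simp only at hpi ⊢
    obtain ⟨c, j⟩ := q
    rw [List.mem_zipIdx_iff_getElem?] at hq
    simp only at hpi
    subst hpi
    have h1 := List.getElem?_eq_some_iff.mp hq
    obtain ⟨h2, h3⟩ := h1
    have h4 := (names_nodup L).getElem_inj_iff.mp h3
    subst h4
    rfl
  · right
    refine ⟨((names L)[i.val], valF C ((e, (zs, List.range (names L).length)),
      ((names L)[i.val], i.val))), ?_, rfl⟩
    unfold envF
    rw [List.mem_map]
    refine ⟨((names L)[i.val], i.val), ?_, rfl⟩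
    rw [List.mem_zipIdx_iff_getElem?]
    exact List.getElem?_eq_getElem i.2

theorem ptE_envF (C : ℕ) (L : Inp) (e : En) (z y : Fin C → ℕ) (i : Fin (names L).length) :
    ptE (envF C ((L, e), List.ofFn z ++ List.ofFn y)) (vr L i) = ptE e (vr L i) +
      ∑ l : Fin C, (z l : ℚ) * ∏ j ∈ Finset.univ.erase i, ((y l : ℚ) - (j.val : ℚ)) := by
  rw [ptE, lookE_envF, toQ_valF, valC, ptE, vr_add]
  congr 1
  apply Finset.sum_congr rfl
  intro l _
  have h1 : (List.ofFn z ++ List.ofFn y).getD l.val 0 = z l := by
    rw [List.getD_eq_getElem _ _ (by simp; omega),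
      List.getElem_append_left (by rw [List.length_ofFn]; exact l.2), List.getElem_ofFn]
  have h2 : (List.ofFn z ++ List.ofFn y).getD (C + l.val) 0 = y l := by
    rw [List.getD_eq_getElem _ _ (by simp),
      List.getElem_append_right (by rw [List.length_ofFn]; omega), List.getElem_ofFn]
    congr 1
    apply Fin.ext
    simp
  simp only [h1, h2]
  congr 1
  exact prod_erase _ (fun j => (y l : ℚ) - (j : ℚ)) i

/-- the products -/
noncomputable def pT (L : List (List Fm)) (i : ℕ) : MvPolynomial ℕ ℚ :=
  ((L.getD i [Fm.const 0]).map Fm.poly).prod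

theorem pT_lt {L : List (List Fm)} {i : ℕ} (h : i < L.length) :
    pT L i = ((L.get ⟨i, h⟩).map Fm.poly).prod := by
  rw [pT, List.getD_eq_getElem _ _ h, List.get_eq_getElem]

theorem pT_ge {L : List (List Fm)} {i : ℕ} (h : L.length ≤ i) : pT L i = 0 := by
  rw [pT, List.getD_eq_default _ _ h]
  simp [Fm.poly]

theorem eval_prod_map (E : En) (p : List Fm) :
    ((p.map Fm.code).map fun g => topV g E).prod = eval (ptE E) (p.map Fm.poly).prod := by
  rw [map_list_prod, List.map_map, List.map_map]
  congr 1
  apply List.map_congr_left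
  intro g _
  simp only [Function.comp]
  rw [topV_code, Fm.eval_poly]

theorem ptE_env2 (E : En) (L : List (List Fm)) (i : ℕ) :
    ptE (env2 (E, cd L)) i = eval (ptE E) (pT L i) := by
  have hlen : (cd L).length = L.length := by rw [cd, List.length_map]
  rw [ptE, lookE]
  by_cases hi : i < L.length
  · have hi' : i < (cd L).length := by rw [hlen]; exact hi
    have hget : (cd L)[i] = L[i].map Fm.code := by simp only [cd, List.getElem_map]
    rw [lookE_aux (env2 (E, cd L)) (i + 3) (prF (E, (cd L)[i])), toQ_prF]
    · rw [hget, pT_lt hi, List.get_eq_getElem]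
      exact eval_prod_map E _
    · intro q hq hqi
      unfold env2 at hq
      obtain ⟨⟨w, j⟩, hw, rfl⟩ := List.mem_map.mp hq
      rw [List.mem_zipIdx_iff_getElem?] at hw
      simp only at hqi hw ⊢
      have h1 : j = i := by omega
      subst h1
      obtain ⟨h2, h3⟩ := List.getElem?_eq_some_iff.mp hw
      rw [← h3]
    · right
      refine ⟨(i + 3, prF (E, (cd L)[i])), ?_, rfl⟩
      unfold env2
      rw [List.mem_map]
      refine ⟨((cd L)[i], i), ?_, rfl⟩
      rw [List.mem_zipIdx_iff_getElem?]
      exact List.getElem?_eq_getElem hi'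
  · rw [lookE_aux (env2 (E, cd L)) (i + 3) e0, pT_ge (not_lt.mp hi), map_zero]
    · simp [toQ, e0]
    · intro q hq hqi
      unfold env2 at hq
      obtain ⟨⟨w, j⟩, hw, rfl⟩ := List.mem_map.mp hq
      rw [List.mem_zipIdx_iff_getElem?] at hw
      simp only at hqi hw
      obtain ⟨h2, h3⟩ := List.getElem?_eq_some_iff.mp hw
      omega
    · exact Or.inl rfl

/-- the composition -/
noncomputable def cmp (Q : Fm) (L : List (List Fm)) : MvPolynomial ℕ ℚ := aeval (pT L) Q.poly

theorem outV_cd (E : En) (Q : Fm) (L : List (List Fm)) :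
    outV (E, (Q.code, cd L)) = eval (ptE E) (cmp Q L) := by
  rw [outV, topV_code, cmp]
  induction Q with
  | const q =>
    simp only [Fm.ev, Fm.poly]
    rw [← algebraMap_eq, AlgHom.commutes, algebraMap_eq, eval_C]
  | var i =>
    simp only [Fm.ev, Fm.poly, aeval_X]
    exact ptE_env2 E L i
  | add F G ihF ihG => simp only [Fm.ev, Fm.poly, map_add, ihF, ihG]
  | mul F G ihF ihG => simp only [Fm.ev, Fm.poly, map_mul, ihF, ihG]

theorem cmp_mem (Q : Fm) (L : List (List Fm)) : cmp Q L ∈
    Algebra.adjoin ℚ (Set.range fun i => ((L.get i).map Fm.poly).prod) := by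
  rw [cmp]
  induction Q with
  | const q =>
    simp only [Fm.poly]
    rw [← algebraMap_eq, AlgHom.commutes]
    exact Subalgebra.algebraMap_mem _ _
  | var i =>
    simp only [Fm.poly, aeval_X]
    by_cases h : i < L.length
    · rw [pT_lt h]
      exact Algebra.subset_adjoin ⟨⟨i, h⟩, rfl⟩
    · rw [pT_ge (not_lt.mp h)]
      exact Subalgebra.zero_mem _
  | add F G ihF ihG =>
    simp only [Fm.poly, map_add]
    exact Subalgebra.add_mem _ ihF ihG
  | mul F G ihF ihG =>
    simp only [Fm.poly, map_mul]
    exact Subalgebra.mul_mem _ ihF ihG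

theorem deg_prod (p : List Fm) :
    (p.map Fm.poly).prod.totalDegree ≤ (p.map Fm.code).flatten.length := by
  induction p with
  | nil => simp
  | cons g p ih =>
    rw [List.map_cons, List.prod_cons, List.map_cons, List.flatten_cons, List.length_append]
    refine (totalDegree_mul _ _).trans (Nat.add_le_add ?_ ih)
    exact (Fm.totalDegree_poly g).trans (size_le_code g)

theorem deg_pT (L : List (List Fm)) (i : ℕ) : (pT L i).totalDegree ≤ (toks (cd L)).length := by
  by_cases h : i < L.length
  · rw [pT_lt h]
    refine (deg_prod _).trans ?_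
    have h1 : (L.get ⟨i, h⟩).map Fm.code ∈ cd L := by
      rw [cd]
      exact List.mem_map_of_mem (List.get_mem L _)
    have h2 := (List.sublist_flatten_of_mem h1).flatten.length_le
    exact h2
  · rw [pT_ge (not_lt.mp h)]
    simp

theorem deg_cmp (Q : Fm) (L : List (List Fm)) :
    (cmp Q L).totalDegree ≤ Q.code.length * (toks (cd L)).length := by
  refine le_trans ?_ (Nat.mul_le_mul_right _ (size_le_code Q))
  rw [cmp]
  induction Q with
  | const q =>
    simp only [Fm.poly]
    rw [← algebraMap_eq, AlgHom.commutes, algebraMap_eq, totalDegree_C]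
    exact Nat.zero_le _
  | var i =>
    simp only [Fm.poly, aeval_X, Fm.size, one_mul]
    exact deg_pT L i
  | add F G ihF ihG =>
    simp only [Fm.poly, map_add, Fm.size, Nat.add_mul]
    exact (totalDegree_add _ _).trans (max_le (ihF.trans (Nat.le_add_right _ _))
      (ihG.trans (Nat.le_add_left _ _)))
  | mul F G ihF ihG =>
    simp only [Fm.poly, map_mul, Fm.size, Nat.add_mul]
    exact (totalDegree_mul _ _).trans (Nat.add_le_add ihF ihG)

theorem decF_true (k N κ C : ℕ) (p : Wd × Inp) : decF k N κ C p = true ↔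
    ∀ zs ∈ lpow (grid3 p) (C + C), outV (envF C ((p.2, ptF k N κ p.2), zs), p) = 0 := by
  unfold decF
  rw [Bool.not_eq_true', Bool.eq_false_iff, ne_eq, List.any_eq_true]
  push Not
  constructor
  · intro h zs hzs
    have := h zs hzs
    simpa using this
  · intro h zs hzs
    have := h zs hzs
    simpa using this

theorem decF_correct {k r κ : ℕ} (hr1 : 1 ≤ r) (hκ : kappa (r + 1) ≤ κ)
    (hκ2 : kN r (nT r k) ≤ κ) (Q : Fm) (L : List (List Fm))
    (hr : ∀ g ∈ L.flatten, ∀ i, g.reads i ≤ r)
    (htr : ∀ b : Finset (Fin L.length), AlgebraicIndepOn ℚ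
      (fun i => ((L.get i).map Fm.poly).prod) (b : Set (Fin L.length)) → b.card ≤ k) :
    decF k (nT r k) κ (nT r k + k) (Q.code, cd L) = true ↔ cmp Q L = 0 := by
  classical
  rw [decF_true]
  constructor
  · intro h
    by_contra hne
    set γ : ℕ → ℚ := ptE (ptF k (nT r k) κ (cd L)) with hγ
    obtain ⟨f, s, hf, hs⟩ := hit hr1 hr hκ hκ2 (isLM_ptF k (nT r k) κ L) htr (cmp Q L)
      (cmp_mem Q L) hne (vr (cd L)) (vr_inj _) (vr_range _)
    rw [← hγ] at hs
    set fγ : MvPolynomial (Fin (names (cd L)).length) ℚ :=
      aeval (fun v => (X v + C (γ (vr (cd L) v)) : MvPolynomial (Fin (names (cd L)).length) ℚ)) f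
      with hfγ
    have hev : ∀ x : Fin (names (cd L)).length → ℚ,
        eval x fγ = eval (fun v => γ (vr (cd L) v) + x v) f := by
      intro x
      have h1 : (eval x).comp ((aeval (fun v => (X v + C (γ (vr (cd L) v)) :
          MvPolynomial (Fin (names (cd L)).length) ℚ)) :
            MvPolynomial (Fin (names (cd L)).length) ℚ →ₐ[ℚ] _) :
              MvPolynomial (Fin (names (cd L)).length) ℚ →+* _) =
          eval (fun v => γ (vr (cd L) v) + x v) := by
        apply VF.ringHom_ext_rat
        intro v
        simp [add_comm]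
      exact congrArg (fun g => g f) h1
    have hdeg : fγ.totalDegree ≤ Q.code.length * (toks (cd L)).length := by
      refine (totalDegree_aeval_le _ (fun v => ?_) f).trans ?_
      · refine (totalDegree_add _ _).trans (max_le (totalDegree_X v).le ?_)
        rw [totalDegree_C]
        exact Nat.zero_le _
      · refine (totalDegree_le_rename (vr (cd L)) (vr_inj _) f).trans ?_
        rw [hf]
        exact deg_cmp Q L
    obtain ⟨a, ha, hea⟩ := Pool.Agent.Helper5.hit_grid fγ _ hdeg (nT r k + k) ⟨s, by
      rw [hev]; exact hs⟩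
    unfold Pool.Agent.Helper5.hittingSet at ha
    rw [Finset.mem_image] at ha
    obtain ⟨⟨z, y⟩, hzy, rfl⟩ := ha
    rw [Finset.mem_product, Fintype.mem_piFinset, Fintype.mem_piFinset] at hzy
    obtain ⟨hz, hy⟩ := hzy
    have hzs : List.ofFn z ++ List.ofFn y ∈
        lpow (grid3 (Q.code, cd L)) (nT r k + k + (nT r k + k)) := by
      rw [mem_lpow]
      refine ⟨by rw [List.length_append, List.length_ofFn, List.length_ofFn], ?_⟩
      intro p hp
      rw [mem_grid3]
      rcases List.mem_append.mp hp with hp | hp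
      · obtain ⟨l, rfl⟩ := List.mem_ofFn.mp hp
        have := hz l
        simp only [Finset.mem_range] at this
        simp only
        omega
      · obtain ⟨l, rfl⟩ := List.mem_ofFn.mp hp
        have := hy l
        simp only [Finset.mem_range] at this
        have h1 : (names (cd L)).length * (Q.code.length * (toks (cd L)).length) ≤
            Q.code.length * (toks (cd L)).length * (toks (cd L)).length := by
          rw [mul_comm]
          exact Nat.mul_le_mul_left _ (names_length _)
        simp only
        omega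
    have h2 := h _ hzs
    rw [outV_cd, ← hf, eval_rename] at h2
    apply hea
    rw [hev, ← h2]
    refine congrArg (fun x => eval x f) ?_
    funext i
    simp only [Function.comp]
    rw [ptE_envF]
  · intro h zs _
    rw [outV_cd, h, map_zero]

/-- **Main theorem.** -/
theorem main (r k : ℕ) : ∃ f : List (ℕ × ℚ) × List (List (List (ℕ × ℚ))) → Bool,
    N68a2faeb.IsPolyTime f ∧
    ∀ (Q : Fm) (L : List (List Fm)), (∀ p ∈ L, ∀ g ∈ p, ∀ i, g.reads i ≤ r) →
      (∀ b : Finset (Fin L.length), AlgebraicIndepOn ℚ
        (fun i => ((L.get i).map Fm.poly).prod) (b : Set (Fin L.length)) → b.card ≤ k) →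
      (f (Q.code, L.map fun p => p.map Fm.code) = true ↔
        aeval (fun i => ((L.getD i [Fm.const 0]).map Fm.poly).prod) Q.poly = 0) := by
  refine ⟨decF k (nT (r + 1) k) (max (kappa (r + 1 + 1)) (kN (r + 1) (nT (r + 1) k)))
    (nT (r + 1) k + k), (Pool.Agent.Helper22.isPolyTime_iff _).mpr (fp_decF _ _ _ _), ?_⟩
  intro Q L hr htr
  refine decF_correct (r := r + 1) (by omega) (le_max_left _ _) (le_max_right _ _) Q L ?_ htr
  intro g hg i
  obtain ⟨p, hp, hgp⟩ := List.mem_flatten.mp hg
  exact (hr p hp g hgp i).trans (Nat.le_succ r)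

end Pool.Agent.Helper6.SP
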