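import Pool.Agent.Helper6.SP.Dual

set_option autoImplicit false

/-!
Local search in polynomial time, general form.
-/

namespace Pool.Agent.Helper6.SP

open Turing Function N487b59b3 N68a2faeb Pool.Agent.Helper22 Computability Pool.Agent.Helper6.WB

section

variable {γ : Type} [N487b59b3 γ]

/-- candidates: potential and environment -/
abbrev CdE := List Bool × En

/-- the better one of two candidates -/
def bstE (a b : CdE) : CdE := if decide (b.1.length ≤ a.1.length) then a else b

theorem bstE_mem (l : List CdE) (a : CdE) : l.foldl bstE a = a ∨ l.foldl bstE a ∈ l := by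
  induction l generalizing a with
  | nil => exact Or.inl rfl
  | cons b l ih =>
    rw [List.foldl_cons]
    rcases ih (bstE a b) with h | h
    · rw [h, bstE]
      split_ifs
      · exact Or.inl rfl
      · exact Or.inr List.mem_cons_self
    · exact Or.inr (List.mem_cons_of_mem _ h)

theorem bstE_le (l : List CdE) (a : CdE) : a.1.length ≤ (l.foldl bstE a).1.length ∧
    ∀ b ∈ l, b.1.length ≤ (l.foldl bstE a).1.length := by
  induction l generalizing a with
  | nil => simp
  | cons b l ih =>
    rw [List.foldl_cons]
    obtain ⟨h1, h2⟩ := ih (bstE a b)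
    have h3 : a.1.length ≤ (bstE a b).1.length ∧ b.1.length ≤ (bstE a b).1.length := by
      unfold bstE
      by_cases h : b.1.length ≤ a.1.length
      · simp [h]
      · simp only [h, decide_false, Bool.false_eq_true, if_false, le_refl, and_true]
        omega
    refine ⟨h3.1.trans h1, ?_⟩
    intro c hc
    rcases List.mem_cons.mp hc with rfl | hc
    · exact h3.2.trans h1
    · exact h2 c hc

theorem bstE_eq (l : List CdE) (a : CdE) : l.foldl bstE a = a ∨
    a.1.length < (l.foldl bstE a).1.length := by
  induction l generalizing a with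
  | nil => exact Or.inl rfl
  | cons b l ih =>
    rw [List.foldl_cons]
    by_cases h : b.1.length ≤ a.1.length
    · have : bstE a b = a := by unfold bstE; simp [h]
      rw [this]
      exact ih a
    · have : bstE a b = b := by unfold bstE; simp [h]
      rw [this]
      have := (bstE_le l b).1
      right
      omega

instance : Inhabited CdE := ⟨([], [])⟩

theorem fp_bstE : FP fun p : List CdE × CdE => p.1.foldl bstE p.2 := by
  refine FP.foldl (g := bstE) ?_ (B := fun n => n) (by fun_prop) ?_
  · unfold bstE
    fun_prop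
  · intro l a
    rcases bstE_mem l a with h | h
    · rw [h]; omega
    · have := sz_mem_le h
      omega

variable (P : γ × En → List Bool) (MV : γ → List En)

/-- candidate of an environment -/
def cndE (w : γ) (e : En) : CdE := (P (w, e), e)

/-- the best candidate near `e` -/
def nxt1 (w : γ) (e : En) : CdE :=
  ((MV w).map fun m => cndE P w (e ++ m)).foldl bstE (cndE P w e)

/-- one round of the local search -/
def rnd1 (p : γ × En) : γ × En := (p.1, (nxt1 P MV p.1 p.2).2)

variable {P MV}

theorem fp_nxt1 (hP : FP P) (hM : FP MV) : FP fun p : γ × En => nxt1 P MV p.1 p.2 := by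
  have h1 : FP fun p : γ × En => cndE P p.1 p.2 := by
    unfold cndE
    exact FP.pair hP FP.snd
  have h2 : FP fun p : (γ × En) × En => cndE P p.1.1 (p.1.2 ++ p.2) :=
    h1.comp (f := fun p : (γ × En) × En => (p.1.1, p.1.2 ++ p.2)) (by fun_prop)
  have h3 : FP fun p : (γ × En) × List En => p.2.map fun m =>
      (fun q : (γ × En) × En => cndE P q.1.1 (q.1.2 ++ q.2)) (p.1, m) := FP.map_ctx h2
  have h4 : FP fun p : γ × En => MV p.1 := hM.comp FP.fst
  exact fp_bstE.comp ((h3.comp (FP.id.pair h4)).pair h1)

omit [N487b59b3 γ] in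
theorem nxt1_snd (w : γ) (e : En) :
    (nxt1 P MV w e).2 = e ∨ ∃ m ∈ MV w, (nxt1 P MV w e).2 = e ++ m := by
  unfold nxt1
  rcases bstE_mem ((MV w).map fun m => cndE P w (e ++ m)) (cndE P w e) with h | h
  · rw [h]; exact Or.inl rfl
  · obtain ⟨m, hm, he⟩ := List.mem_map.mp h
    right
    exact ⟨m, hm, by rw [← he]; rfl⟩

omit [N487b59b3 γ] in
theorem nxt1_fst (w : γ) (e : En) : nxt1 P MV w e = cndE P w (nxt1 P MV w e).2 := by
  unfold nxt1
  rcases bstE_mem ((MV w).map fun m => cndE P w (e ++ m)) (cndE P w e) with h | h
  · rw [h]; rfl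
  · obtain ⟨m, hm, he⟩ := List.mem_map.mp h
    rw [← he]; rfl

omit [N487b59b3 γ] in
theorem rnd1_iter (w : γ) (e : En) (i : ℕ) :
    (rnd1 P MV)^[i] (w, e) = (w, (fun e => (nxt1 P MV w e).2)^[i] e) := by
  induction i with
  | zero => rfl
  | succ i ih => rw [Function.iterate_succ_apply', ih, Function.iterate_succ_apply']; rfl

theorem fp_climb1 (hP : FP P) (hM : FP MV) : FP fun p : List Bool × (γ × En) =>
    (rnd1 P MV)^[p.1.length] p.2 := by
  obtain ⟨C, hC, hCm, hCle⟩ := hM.bound
  refine FP.iterate (f := rnd1 P MV) ?_ (B := fun n => 2 * n + 1 + (n + n * C n))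
    (by fun_prop) ?_
  · unfold rnd1
    exact FP.pair FP.fst (FP.snd' (fp_nxt1 hP hM))
  · rintro l ⟨w, e⟩ i hi
    rw [rnd1_iter]
    have h1 : sz ((fun e => (nxt1 P MV w e).2)^[i] e) ≤ sz e + i * C (sz w) := by
      clear hi
      induction i with
      | zero => simp
      | succ i ih =>
        rw [Function.iterate_succ_apply']
        have h2 : ∀ e', sz (nxt1 P MV w e').2 ≤ sz e' + C (sz w) := by
          intro e'
          rcases nxt1_snd (P := P) (MV := MV) w e' with h | ⟨m, hm, h⟩
          · rw [h]; omega
          · rw [h, sz_append]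
            have := (sz_mem_le hm).trans (hCle w)
            omega
        have h3 := h2 ((fun e => (nxt1 P MV w e).2)^[i] e)
        have h4 : (i + 1) * C (sz w) = i * C (sz w) + C (sz w) := by ring
        omega
    have h0 := length_le_sz l
    have h5 : i * C (sz w) ≤ (sz l + sz (w, e)) * C (sz l + sz (w, e)) :=
      Nat.mul_le_mul (by omega) (hCm (by simp only [sz_pair]; omega))
    rw [sz_pair]
    have h6 : 2 * sz w + 1 + sz e ≤ sz l + sz (w, e) := by
      simp only [sz_pair]; omega
    generalize sz (w, e) = N at *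
    omega

variable (P MV)

/-- the final environment -/
def fin1 (clk : γ → List Bool) (w : γ) : En :=
  (fun e => (nxt1 P MV w e).2)^[(clk w).length + 1] []

variable {P MV}

theorem fp_fin1 (hP : FP P) (hM : FP MV) {clk : γ → List Bool} (hc : FP clk) :
    FP (fin1 P MV clk) := by
  have h1 : FP fun w => true :: clk w := FP.cons (FP.const _) hc
  have h2 := (fp_climb1 hP hM).comp (h1.pair (FP.id.pair (FP.const ([] : En))))
  refine (congrArg FP (funext fun w => ?_)).mp h2.snd'
  rw [rnd1_iter]
  rfl

omit [N487b59b3 γ] in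
/-- the final environment is a local maximum -/
theorem fin1_max {clk : γ → List Bool} (w : γ) (hclk : ∀ e, (P (w, e)).length ≤ (clk w).length)
    (m : En) (hm : m ∈ MV w) :
    (P (w, fin1 P MV clk w ++ m)).length ≤ (P (w, fin1 P MV clk w)).length := by
  have hfix : (nxt1 P MV w (fin1 P MV clk w)).2 = fin1 P MV clk w := by
    refine fix_of_measure (fun e => (nxt1 P MV w e).2) (fun e => (P (w, e)).length)
      (clk w).length hclk ?_ []
    intro e
    rcases bstE_eq ((MV w).map fun m => cndE P w (e ++ m)) (cndE P w e) with h | h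
    · left
      rw [nxt1, h]
      rfl
    · right
      have h1 : (cndE P w e).1.length < (nxt1 P MV w e).1.length := h
      rw [nxt1_fst] at h1
      exact h1
  set e := fin1 P MV clk w
  have h1 := (bstE_le ((MV w).map fun m => cndE P w (e ++ m)) (cndE P w e)).2
    (cndE P w (e ++ m)) (List.mem_map_of_mem hm)
  have h2 : (cndE P w (e ++ m)).1.length ≤ (nxt1 P MV w e).1.length := h1
  rw [nxt1_fst, hfix] at h2
  exact h2

end

end Pool.Agent.Helper6.SP
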