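import Pool.Agent.Helper6.WB.LocMax
import Pool.Agent.Helper5.V.Interface

/-!
Substitution of constants for some of the variables of a formula.
-/

namespace Pool.Agent.Helper6.WB

open MvPolynomial

namespace Fm

/-- replacement of the variables in the domain of `σ` by constants -/
def subst (σ : ℕ → Option ℚ) : Fm → Fm
  | const q => const q
  | var i => match σ i with
    | some q => const q
    | none => var i
  | add F G => add (F.subst σ) (G.subst σ)
  | mul F G => mul (F.subst σ) (G.subst σ)

end Fm

/-- the substitution of `β` for the variables in `I` -/
def sg (I : Finset ℕ) (β : ℕ → ℕ) : ℕ → Option ℚ := fun i => if i ∈ I then some (β i : ℚ) else none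

end Pool.Agent.Helper6.WB
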