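import Pool.Agent.Helper6.SP.RAx

/-!
Derivatives of programs.
-/

namespace Pool.Agent.Helper6.SP

open Module Matrix Pool.Agent.Helper8 Pool.Agent.Helper8.Tree

variable {K : Type*} [Field K] {w n : ℕ}

/-- the paths to the leaves which carry the variable `v` -/
def lp (v : Fin n) : Prog K w n → List (List (Frame K w n) × (Fin w → Polynomial K))
  | Prog.leaf j F => if j = v then [([], F)] else []
  | Prog.node B l r => (lp v l).map (fun p => ((B, r) :: p.1, p.2)) ++
      (lp v r).map (fun p => (((fun a b c => B a c b), l) :: p.1, p.2))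

theorem lp_length (v : Fin n) (T : Prog K w n) : (lp v T).length = T.cnt v := by
  induction T with
  | leaf j F => by_cases h : j = v <;> simp [lp, Prog.cnt, h]
  | node B l r ihl ihr => simp [lp, Prog.cnt, ihl, ihr]

theorem lp_path (v : Fin n) (T : Prog K w n) : ∀ p ∈ lp v T, Path T p.1 (Prog.leaf v p.2) := by
  induction T with
  | leaf j F =>
    intro p hp
    by_cases h : j = v
    · simp only [lp, h, if_true, List.mem_singleton] at hp
      subst hp
      subst h
      exact Path.nil _
    · simp [lp, h] at hp
  | node B l r ihl ihr =>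
    intro p hp
    simp only [lp, List.mem_append, List.mem_map] at hp
    rcases hp with ⟨q, hq, rfl⟩ | ⟨q, hq, rfl⟩
    · exact Path.left r (ihl q hq)
    · exact Path.right l (ihr q hq)

/-- derivative of a leaf -/
noncomputable def dleaf (F : Fin w → Polynomial K) : Fin w → Polynomial K :=
  fun b => Polynomial.derivative (F b)

theorem eval_aeval_X (j : Fin n) (F : Polynomial K) (g : Fin n → K) :
    MvPolynomial.eval g (Polynomial.aeval (MvPolynomial.X j : MvPolynomial (Fin n) K) F) =
      F.eval (g j) := by
  have := (Prog.leaf j (fun _ : Fin 1 => F)).eval_poly g 0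
  simpa [Prog.poly, Prog.val] using this

theorem pderiv_aeval_X (v j : Fin n) (F : Polynomial K) :
    MvPolynomial.pderiv v (Polynomial.aeval (MvPolynomial.X j : MvPolynomial (Fin n) K) F) =
      if j = v then Polynomial.aeval (MvPolynomial.X j) (Polynomial.derivative F) else 0 := by
  rw [Derivation.map_aeval]
  by_cases h : j = v
  · subst h
    simp
  · rw [MvPolynomial.pderiv_X_of_ne h]
    simp [h]

theorem deriv_eq (v : Fin n) (g : Fin n → K) (T : Prog K w n) : ∀ a,
    MvPolynomial.eval g (MvPolynomial.pderiv v (T.poly a)) =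
      ((lp v T).map fun p => (cmat p.1 g *ᵥ (Prog.leaf v (dleaf p.2) : Prog K w n).val g) a).sum := by
  induction T with
  | leaf j F =>
    intro a
    simp only [Prog.poly]
    rw [pderiv_aeval_X]
    by_cases h : j = v
    · subst h
      simp only [lp, if_true, List.map_cons, List.map_nil, List.sum_cons, List.sum_nil, add_zero]
      rw [eval_aeval_X, cmat_nil, Matrix.one_mulVec]
      rfl
    · simp [lp, h]
  | node B l r ihl ihr =>
    intro a
    have e1 : MvPolynomial.eval g (MvPolynomial.pderiv v ((Prog.node B l r).poly a)) =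
        ∑ b, fmat (B, r) g a b * MvPolynomial.eval g (MvPolynomial.pderiv v (l.poly b)) +
        ∑ b, fmat ((fun a b c => B a c b), l) g a b *
          MvPolynomial.eval g (MvPolynomial.pderiv v (r.poly b)) := by
      simp only [Prog.poly, map_sum]
      have e2 : ∀ b c, MvPolynomial.eval g (MvPolynomial.pderiv v
          (MvPolynomial.C (B a b c) * l.poly b * r.poly c)) =
          B a b c * r.val g c * MvPolynomial.eval g (MvPolynomial.pderiv v (l.poly b)) +
          B a b c * l.val g b * MvPolynomial.eval g (MvPolynomial.pderiv v (r.poly c)) := by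
        intro b c
        rw [(MvPolynomial.pderiv v).leibniz, (MvPolynomial.pderiv v).leibniz]
        simp only [smul_eq_mul, MvPolynomial.pderiv_C, mul_zero, add_zero, map_add, map_mul,
          MvPolynomial.eval_C, Prog.eval_poly]
        ring
      simp only [e2, Finset.sum_add_distrib]
      congr 1
      · apply Finset.sum_congr rfl
        intro b _
        simp only [fmat, Matrix.of_apply]
        rw [Finset.sum_mul]
      · rw [Finset.sum_comm]
        apply Finset.sum_congr rfl
        intro c _
        simp only [fmat, Matrix.of_apply]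
        rw [Finset.sum_mul]
    have e3 : ∀ (f : Frame K w n) (L : List (List (Frame K w n) × (Fin w → Polynomial K))),
        ∑ b, fmat f g a b * (L.map fun p =>
          (cmat p.1 g *ᵥ (Prog.leaf v (dleaf p.2) : Prog K w n).val g) b).sum =
        ((L.map (fun p => (f :: p.1, p.2))).map fun p =>
          (cmat p.1 g *ᵥ (Prog.leaf v (dleaf p.2) : Prog K w n).val g) a).sum := by
      intro f L
      induction L with
      | nil => simp
      | cons p L ih =>
        simp only [List.map_cons, List.sum_cons, mul_add, Finset.sum_add_distrib]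
        rw [ih, cmat_cons, ← Matrix.mulVec_mulVec]
        rfl
    rw [e1]
    simp only [ihl, ihr, lp, List.map_append, List.sum_append]
    rw [e3, e3]

/-- representability of the derivatives -/
theorem RS.deriv [Inhabited (Frame K w n)] {k : ℕ} {γ y : Fin n → K} {S : Finset (Fin n)}
    {T T' : Prog K w n} {C : List (Frame K w n)} (htr : Trans T γ y S) (hC : Path T C T')
    (hg : AllGood γ T') (hk : ∀ i, T'.cnt i ≤ k) (v : Fin n) (a : Fin w) {β : ℕ → ℕ}
    (hβ : ∀ q, q ≤ β q) (hβ' : ∀ q, (bnd k).2 ((bnd k).1 q) ≤ β q) :
    RS w n γ y S (β^[k]) (k * (2 ^ k + 2 ^ k))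
      (fun g => MvPolynomial.eval g (MvPolynomial.pderiv v (T'.poly a))) := by
  by_cases hk0 : k = 0
  · subst hk0
    have h1 : lp v T' = [] := by
      apply List.eq_nil_of_length_eq_zero
      rw [lp_length]
      exact Nat.le_zero.mp (hk v)
    refine RS.mono (fun q => le_rfl) (Nat.zero_le _) ((RS.const 0).congr fun x => ?_)
    rw [deriv_eq, h1]
    rfl
  have h1 : ∀ p ∈ lp v T', RS w n γ y S β (2 ^ k + 2 ^ k)
      (fun g => (cmat p.1 g *ᵥ (Prog.leaf v (dleaf p.2) : Prog K w n).val g) a) := by
    intro p hp
    have hpath := lp_path v T' p hp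
    have hin : Inside T' p.1 := ⟨[], T', _, Path.nil T', hpath⟩
    have r1 : RA w n γ y S (bnd k).2 (2 ^ k) (fun g => cmat p.1 g) := by
      apply RA.ctx (htr.mixCtx_of_allGood hC hg hin)
      intro i
      exact (hin.ccnt_le i).trans (hk i)
    have r2 : RA w n γ y S (bnd k).1 (2 ^ k)
        (fun g => col ((Prog.leaf v (dleaf p.2) : Prog K w n).val g)) := by
      apply RA.tree
      · intro D hD τ hτ g'
        obtain ⟨C0, x, u, h1, h2⟩ := hD
        cases h1
        cases h2
        rw [cmat_nil, cmat_nil]
      · intro i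
        simp only [Prog.cnt]
        split_ifs <;> omega
    have r3 := RA.mul r1 r2
    let H : Matrix (Fin w) (Fin 1) K →ₗ[K] Matrix (Fin 1) (Fin 1) K :=
      { toFun := fun X => Matrix.of fun _ _ => X a 0
        map_add' := fun X Y => by ext i j; simp
        map_smul' := fun c X => by ext i j; simp }
    have r4 := RA.linear r3 H
    refine RA.bmono hβ' (Tree.RA.congr r4 fun g => ?_)
    ext i j
    rw [← col_mulVec]
    rfl
  have h2 := RS.sumList (lp v T') h1
  refine RS.mono (fun q => ?_) ?_ (h2.congr fun x => deriv_eq v x T' a)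
  · apply iter_le hβ
    rw [lp_length]
    exact hk v
  · rw [lp_length]
    exact Nat.mul_le_mul_right _ (hk v)

/-- a program containing given programs -/
theorem exists_big (T0 : Prog K w n) (l : List (Prog K w n)) :
    ∃ T : Prog K w n, ∀ T' ∈ l, ∃ C, Path T C T' := by
  induction l with
  | nil => exact ⟨T0, by simp⟩
  | cons T1 l ih =>
    obtain ⟨T, hT⟩ := ih
    refine ⟨Prog.node 0 T1 T, ?_⟩
    intro T' hT'
    rcases List.mem_cons.mp hT' with rfl | hT'
    · exact ⟨_, Path.left T (Path.nil _)⟩
    · obtain ⟨C, hC⟩ := hT T' hT'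
      exact ⟨_, Path.right T1 hC⟩

end Pool.Agent.Helper6.SP
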