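import Pool.Agent.Helper6.SP.FQ

set_option autoImplicit false

/-!
Evaluation of formulas and of their derivatives in polynomial time.
-/

namespace Pool.Agent.Helper6.SP

open Turing Function N487b59b3 N68a2faeb Pool.Agent.Helper22 Computability Pool.Agent.Helper6.WB

/-- dual numbers -/
abbrev DE := (ℕ × ℕ) × ((ℕ × ℕ) × ℕ)

/-- value -/
def toV (e : DE) : ℚ := ((e.1.1 : ℚ) - e.1.2) / e.2.2

/-- derivative -/
def toD (e : DE) : ℚ := ((e.2.1.1 : ℚ) - e.2.1.2) / e.2.2

/-- sum -/
def dAdd (a b : DE) : DE :=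
  ((a.1.1 * b.2.2 + b.1.1 * a.2.2, a.1.2 * b.2.2 + b.1.2 * a.2.2),
    ((a.2.1.1 * b.2.2 + b.2.1.1 * a.2.2, a.2.1.2 * b.2.2 + b.2.1.2 * a.2.2), a.2.2 * b.2.2))

/-- product -/
def dMul (a b : DE) : DE :=
  ((a.1.1 * b.1.1 + a.1.2 * b.1.2, a.1.1 * b.1.2 + a.1.2 * b.1.1),
    (((a.1.1 * b.2.1.1 + a.1.2 * b.2.1.2) + (a.2.1.1 * b.1.1 + a.2.1.2 * b.1.2),
      (a.1.1 * b.2.1.2 + a.1.2 * b.2.1.1) + (a.2.1.1 * b.1.2 + a.2.1.2 * b.1.1)),
      a.2.2 * b.2.2))

/-- default element -/
def d0 : DE := ((0, 0), ((0, 0), 1))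

/-- a number with derivative `0` or `1` -/
def dOf (b : Bool) (a : El) : DE := (a.1, ((if b then a.2 else 0, 0), a.2))

theorem toV_add {a b : DE} (ha : a.2.2 ≠ 0) (hb : b.2.2 ≠ 0) :
    toV (dAdd a b) = toV a + toV b := by
  have h1 : (a.2.2 : ℚ) ≠ 0 := Nat.cast_ne_zero.mpr ha
  have h2 : (b.2.2 : ℚ) ≠ 0 := Nat.cast_ne_zero.mpr hb
  simp only [toV, dAdd]
  push_cast
  field_simp
  ring

theorem toD_add {a b : DE} (ha : a.2.2 ≠ 0) (hb : b.2.2 ≠ 0) :
    toD (dAdd a b) = toD a + toD b := by
  have h1 : (a.2.2 : ℚ) ≠ 0 := Nat.cast_ne_zero.mpr ha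
  have h2 : (b.2.2 : ℚ) ≠ 0 := Nat.cast_ne_zero.mpr hb
  simp only [toD, dAdd]
  push_cast
  field_simp
  ring

theorem toV_mul {a b : DE} : toV (dMul a b) = toV a * toV b := by
  simp only [toV, dMul]
  push_cast
  rw [div_mul_div_comm]
  ring

theorem toD_mul {a b : DE} : toD (dMul a b) = toV a * toD b + toD a * toV b := by
  simp only [toV, toD, dMul]
  push_cast
  rw [div_mul_div_comm, div_mul_div_comm, ← add_div]
  congr 1
  ring

theorem toV_dOf (b : Bool) (a : El) : toV (dOf b a) = toQ a := rfl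

theorem toD_dOf (b : Bool) (a : El) (ha : a.2 ≠ 0) : toD (dOf b a) = if b then 1 else 0 := by
  have h1 : (a.2 : ℚ) ≠ 0 := Nat.cast_ne_zero.mpr ha
  cases b <;> simp [toD, dOf, h1]

theorem toV_eq_zero {a : DE} (ha : a.2.2 ≠ 0) : toV a = 0 ↔ a.1.1 = a.1.2 :=
  toQ_eq_zero (a := (a.1, a.2.2)) ha

/-- total size -/
def dtot (a : DE) : ℕ := a.1.1 + a.1.2 + (a.2.1.1 + a.2.1.2) + a.2.2

theorem dtot_add (a b : DE) : dtot (dAdd a b) ≤ dtot a * dtot b := by
  obtain ⟨⟨p, n⟩, ⟨p', n'⟩, d⟩ := a
  obtain ⟨⟨q, m⟩, ⟨q', m'⟩, e⟩ := b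
  simp only [dtot, dAdd]
  have h : (p + n + (p' + n') + d) * (q + m + (q' + m') + e) =
      p * e + q * d + (n * e + m * d) + (p' * e + q' * d + (n' * e + m' * d)) + d * e +
      (p + n + (p' + n')) * (q + m + (q' + m')) := by ring
  rw [h]
  exact Nat.le_add_right _ _

theorem dtot_mul (a b : DE) : dtot (dMul a b) ≤ dtot a * dtot b := by
  obtain ⟨⟨p, n⟩, ⟨p', n'⟩, d⟩ := a
  obtain ⟨⟨q, m⟩, ⟨q', m'⟩, e⟩ := b
  simp only [dtot, dMul]
  have h : (p + n + (p' + n') + d) * (q + m + (q' + m') + e) =
      p * q + n * m + (p * m + n * q) + (p * q' + n * m' + (p' * q + n' * m) +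
        (p * m' + n * q' + (p' * m + n' * q))) + d * e +
      ((p' + n') * (q' + m') + (p + n + (p' + n')) * e + d * (q + m + (q' + m'))) := by ring
  rw [h]
  exact Nat.le_add_right _ _

/-- number of bits -/
def dbt (a : DE) : ℕ := (dtot a).size

theorem dbt_add (a b : DE) : dbt (dAdd a b) ≤ dbt a + dbt b :=
  (Nat.size_le_size (dtot_add a b)).trans (size_mul_le _ _)

theorem dbt_mul (a b : DE) : dbt (dMul a b) ≤ dbt a + dbt b :=
  (Nat.size_le_size (dtot_mul a b)).trans (size_mul_le _ _)

theorem sz_de_le (a : DE) : sz a ≤ 20 * dbt a + 10 := by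
  obtain ⟨⟨p, n⟩, ⟨p', n'⟩, d⟩ := a
  simp only [sz_pair, sz_nat, dbt, dtot]
  have h1 : p.size ≤ (p + n + (p' + n') + d).size := Nat.size_le_size (by omega)
  have h2 : n.size ≤ (p + n + (p' + n') + d).size := Nat.size_le_size (by omega)
  have h3 : d.size ≤ (p + n + (p' + n') + d).size := Nat.size_le_size (by omega)
  have h4 : p'.size ≤ (p + n + (p' + n') + d).size := Nat.size_le_size (by omega)
  have h5 : n'.size ≤ (p + n + (p' + n') + d).size := Nat.size_le_size (by omega)
  omega

theorem dbt_le (a : DE) : dbt a ≤ sz a + 4 := by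
  obtain ⟨⟨p, n⟩, ⟨p', n'⟩, d⟩ := a
  simp only [sz_pair, sz_nat, dbt, dtot]
  have h1 := size_add_le (p + n + (p' + n')) d
  have h2 := size_add_le (p + n) (p' + n')
  have h3 := size_add_le p n
  have h4 := size_add_le p' n'
  omega

/-- measure of a stack -/
def dmu (l : List DE) : ℕ := (l.map fun a => dbt a + 1).sum

@[simp] theorem dmu_nil : dmu [] = 0 := rfl

@[simp] theorem dmu_cons (a : DE) (l : List DE) : dmu (a :: l) = dbt a + 1 + dmu l := by
  simp [dmu]

theorem sz_dstack_le (l : List DE) : sz l ≤ 60 * dmu l := by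
  induction l with
  | nil => simp
  | cons a l ih =>
    have := sz_de_le a
    simp only [sz_cons, dmu_cons]
    omega

theorem dmu_le (l : List DE) : dmu l ≤ 5 * sz l := by
  induction l with
  | nil => simp
  | cons a l ih =>
    have := dbt_le a
    simp only [sz_cons, dmu_cons]
    omega

/-- tokens after substitution -/
abbrev DT := Bool × (Bool × DE)

/-- the new stack -/
def dstk (s : List DE) (t : DT) : List DE :=
  if t.1 then (if t.2.1 then dMul (s.headD d0) (s.tail.headD d0) else
    dAdd (s.headD d0) (s.tail.headD d0)) :: s.tail.tail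
  else t.2.2 :: s

/-- a step of the stack machine -/
def dstp (s : List DE × List Bool) (t : DT) : List DE × List Bool :=
  (dstk s.1 t, if decide (((dstk s.1 t).headD d0).1.1 = ((dstk s.1 t).headD d0).1.2) then s.2
    else true :: s.2)

theorem dmu_stk (s : List DE) (t : DT) : dmu (dstk s t) ≤ dmu s + (dbt t.2.2 + 5) := by
  have h0 : dbt d0 = 1 := by decide
  unfold dstk
  split_ifs
  · rcases s with _ | ⟨a, _ | ⟨b, s⟩⟩
    · have := dbt_mul d0 d0
      simp only [List.headD_nil, List.tail_nil, dmu_cons, dmu_nil]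
      omega
    · have := dbt_mul a d0
      simp only [List.headD_cons, List.headD_nil, List.tail_cons, List.tail_nil, dmu_cons, dmu_nil]
      omega
    · have := dbt_mul a b
      simp only [List.headD_cons, List.tail_cons, dmu_cons]
      omega
  · rcases s with _ | ⟨a, _ | ⟨b, s⟩⟩
    · have := dbt_add d0 d0
      simp only [List.headD_nil, List.tail_nil, dmu_cons, dmu_nil]
      omega
    · have := dbt_add a d0
      simp only [List.headD_cons, List.headD_nil, List.tail_cons, List.tail_nil, dmu_cons, dmu_nil]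
      omega
    · have := dbt_add a b
      simp only [List.headD_cons, List.tail_cons, dmu_cons]
      omega
  · simp only [dmu_cons]
    omega

theorem dstp_foldl (l : List DT) (s : List DE × List Bool) :
    dmu (l.foldl dstp s).1 + (l.foldl dstp s).2.length ≤ dmu s.1 + s.2.length + 12 * sz l := by
  induction l generalizing s with
  | nil => simp
  | cons t l ih =>
    rw [List.foldl_cons]
    refine (ih _).trans ?_
    have h1 := dmu_stk s.1 t
    have h2 : (dstp s t).2.length ≤ s.2.length + 1 := by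
      simp only [dstp]
      split_ifs <;> simp
    have h3 : (dstp s t).1 = dstk s.1 t := rfl
    have h4 : dbt t.2.2 ≤ sz t := by
      obtain ⟨a, b, e⟩ := t
      have := dbt_le e
      simp only [sz_pair, sz_bool]
      omega
    rw [h3, sz_cons]
    omega

section

variable {α β γ δ : Type} [N487b59b3 α] [N487b59b3 β] [N487b59b3 γ] [N487b59b3 δ]

@[fun_prop]
theorem fp_dAdd {f g : α → DE} (hf : FP f) (hg : FP g) : FP fun a => dAdd (f a) (g a) := by
  unfold dAdd
  fun_prop

@[fun_prop]
theorem fp_dMul {f g : α → DE} (hf : FP f) (hg : FP g) : FP fun a => dMul (f a) (g a) := by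
  unfold dMul
  fun_prop

@[fun_prop]
theorem fp_dOf {f : α → Bool} {g : α → El} (hf : FP f) (hg : FP g) :
    FP fun a => dOf (f a) (g a) := by
  unfold dOf
  have h : FP fun a => if f a then (g a).2 else 0 := FP.ite hf hg.snd' (FP.const 0)
  exact FP.pair hg.fst' (FP.pair (FP.pair h (FP.const 0)) hg.snd')

theorem fp_dstk' : FP fun p : List DE × DT => dstk p.1 p.2 := by
  unfold dstk
  have h1 : FP fun p : List DE × DT => p.1.headD d0 := FP.headD (by fun_prop) _
  have h2 : FP fun p : List DE × DT => p.1.tail.headD d0 := FP.headD (by fun_prop) _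
  exact FP.ite (by fun_prop) (FP.cons (FP.ite (by fun_prop) (by fun_prop) (by fun_prop))
    (by fun_prop)) (by fun_prop)

@[fun_prop]
theorem fp_dstk {f : α → List DE} {g : α → DT} (hf : FP f) (hg : FP g) :
    FP fun a => dstk (f a) (g a) := fp_dstk'.comp (hf.pair hg)

theorem fp_dstp' : FP fun p : (List DE × List Bool) × DT => dstp p.1 p.2 := by
  unfold dstp
  have h1 : FP fun p : (List DE × List Bool) × DT => (dstk p.1.1 p.2).headD d0 :=
    FP.headD (by fun_prop) _
  exact FP.pair (by fun_prop) (FP.ite (by fun_prop) (by fun_prop) (FP.cons (FP.const true)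
    (by fun_prop)))

instance : Inhabited DT := ⟨(false, (false, d0))⟩

theorem fp_drun' : FP fun p : List DT × (List DE × List Bool) => p.1.foldl dstp p.2 := by
  refine FP.foldl fp_dstp' (B := fun n => 200 * (30 * n) + 1) (by fun_prop) ?_
  intro l s
  have h1 := dstp_foldl l s
  have h2 := sz_dstack_le (l.foldl dstp s).1
  obtain ⟨a, b⟩ := s
  rcases hq : l.foldl dstp (a, b) with ⟨a', b'⟩
  rw [hq] at h1 h2
  have h3 := dmu_le a
  simp only [sz_pair, sz_bits] at *
  omega

/-- environments: lists of pairs (code of a variable, value) -/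
abbrev En := List (ℕ × El)

/-- the value of a variable, the last entry wins -/
def lookE (e : En) (c : ℕ) : El := e.foldl (fun acc p => if p.1 = c then p.2 else acc) e0

theorem lookE_foldl (e : En) (c : ℕ) (v : El) :
    e.foldl (fun (s : ℕ × El) (p : ℕ × El) => (s.1, if decide (p.1 = s.1) then p.2 else s.2))
      (c, v) = (c, e.foldl (fun acc p => if p.1 = c then p.2 else acc) v) := by
  induction e generalizing v with
  | nil => rfl
  | cons p e ih =>
    rw [List.foldl_cons, ih]
    simp

theorem lookE_size (e : En) (c : ℕ) (v : El) :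
    sz (e.foldl (fun acc p => if p.1 = c then p.2 else acc) v) ≤ sz e + sz v := by
  induction e generalizing v with
  | nil => simp
  | cons p e ih =>
    rw [List.foldl_cons]
    refine (ih _).trans ?_
    obtain ⟨a, b⟩ := p
    have h1 : sz ((a, b) : ℕ × El) = 2 * sz a + 1 + sz b := sz_pair a b
    rw [sz_cons, h1]
    simp only
    split_ifs <;> omega

@[fun_prop]
theorem fp_lookE {f : α → En} {g : α → ℕ} (hf : FP f) (hg : FP g) :
    FP fun a => lookE (f a) (g a) := by
  have h1 : FP fun p : En × (ℕ × El) => p.1.foldl (fun (s : ℕ × El) (p : ℕ × El) =>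
      (s.1, if decide (p.1 = s.1) then p.2 else s.2)) p.2 := by
    refine FP.foldl (g := fun (s : ℕ × El) (p : ℕ × El) =>
      (s.1, if decide (p.1 = s.1) then p.2 else s.2)) (by fun_prop) (B := fun n => 3 * n + 1)
      (by fun_prop) ?_
    rintro e ⟨c, v⟩
    rw [lookE_foldl]
    have h1 := lookE_size e c v
    have h2 : sz ((c, v) : ℕ × El) = 2 * sz c + 1 + sz v := sz_pair c v
    have h3 := sz_pair c (e.foldl (fun acc p => if p.1 = c then p.2 else acc) v)
    rw [h3, h2]
    omega
  have h2 := h1.comp (hf.pair (hg.pair (FP.const e0)))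
  refine (congrArg FP (funext fun a => ?_)).mp h2.snd'
  simp only [lookE_foldl]
  rfl

/-- repair of zero denominators -/
def fixE (a : El) : El := if decide (a.2 = 0) then e0 else a

theorem fixE_den (a : El) : (fixE a).2 ≠ 0 := by
  unfold fixE
  split_ifs with h
  · exact one_ne_zero
  · simpa using h

theorem toQ_fixE (a : El) : toQ (fixE a) = toQ a := by
  unfold fixE
  split_ifs with h
  · have : a.2 = 0 := by simpa using h
    simp [toQ, e0, this]
  · rfl

@[fun_prop]
theorem fp_fixE {f : α → El} (hf : FP f) : FP fun a => fixE (f a) := by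
  unfold fixE
  have h : FP fun a => decide ((f a).2 = 0) := FP.natEq hf.snd' (FP.const 0)
  exact FP.ite h (FP.const _) hf

/-- substitution of the values of the variables in a token; the second component of the context is
the code of the variable with respect to which one differentiates -/
def dres (p : (En × ℕ) × (ℕ × ℚ)) : DT :=
  if decide (p.2.1 = 0) then (false, (false, dOf false (qEl p.2.2)))
  else if decide (p.2.1 = 1) then (true, (false, d0))
  else if decide (p.2.1 = 2) then (true, (true, d0))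
  else (false, (false, dOf (decide (p.2.1 = p.1.2)) (fixE (lookE p.1.1 p.2.1))))

theorem fp_dres' : FP dres := by
  unfold dres
  have h0 : FP fun p : (En × ℕ) × (ℕ × ℚ) => decide (p.2.1 = 0) :=
    FP.natEq (by fun_prop) (FP.const 0)
  have h1 : FP fun p : (En × ℕ) × (ℕ × ℚ) => decide (p.2.1 = 1) :=
    FP.natEq (by fun_prop) (FP.const 1)
  have h2 : FP fun p : (En × ℕ) × (ℕ × ℚ) => decide (p.2.1 = 2) :=
    FP.natEq (by fun_prop) (FP.const 2)
  have h3 : FP fun p : (En × ℕ) × (ℕ × ℚ) => ((false, (false, dOf false (qEl p.2.2))) : DT) :=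
    FP.pair (FP.const false) (FP.pair (FP.const false) (fp_dOf (FP.const false) (by fun_prop)))
  have h4 : FP fun p : (En × ℕ) × (ℕ × ℚ) => ((false, (false, dOf (decide (p.2.1 = p.1.2))
      (fixE (lookE p.1.1 p.2.1)))) : DT) :=
    FP.pair (FP.const false) (FP.pair (FP.const false) (by fun_prop))
  exact FP.ite h0 h3 (FP.ite h1 (FP.const _) (FP.ite h2 (FP.const _) h4))

/-- evaluation of the formula `w` at the environment `e` -/
def drun (w : List (ℕ × ℚ)) (e : En) (v : ℕ) : List DE × List Bool :=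
  (w.map fun t => dres ((e, v), t)).foldl dstp ([], [])

@[fun_prop]
theorem fp_drun {f : α → List (ℕ × ℚ)} {g : α → En} {h : α → ℕ} (hf : FP f) (hg : FP g)
    (hh : FP h) : FP fun a => drun (f a) (g a) (h a) := by
  have h1 : FP fun p : (En × ℕ) × List (ℕ × ℚ) => p.2.map fun t => dres (p.1, t) :=
    FP.map_ctx fp_dres'
  exact fp_drun'.comp ((h1.comp ((hg.pair hh).pair hf)).pair
    (FP.const (([] : List DE), ([] : List Bool))))

end

/-! ## Correctness -/

/-- the point of an environment -/
def ptE (e : En) : ℕ → ℚ := fun i => toQ (lookE e (i + 3))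

/-- the value of a formula and its derivative with respect to the variable with code `v` -/
def dE (e : En) (v : ℕ) : Fm → DE
  | .const q => dOf false (qEl q)
  | .var i => dOf (decide (i + 3 = v)) (fixE (lookE e (i + 3)))
  | .add F G => dAdd (dE e v G) (dE e v F)
  | .mul F G => dMul (dE e v G) (dE e v F)

theorem dE_den (e : En) (v : ℕ) (F : Fm) : (dE e v F).2.2 ≠ 0 := by
  induction F with
  | const q => exact q.den_ne_zero
  | var i => exact fixE_den _
  | add F G ihF ihG => exact mul_ne_zero ihG ihF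
  | mul F G ihF ihG => exact mul_ne_zero ihG ihF

theorem toV_dE (e : En) (v : ℕ) (F : Fm) : toV (dE e v F) = F.ev (ptE e) := by
  induction F with
  | const q => exact toQ_qEl q
  | var i => rw [dE, toV_dOf, toQ_fixE]; rfl
  | add F G ihF ihG =>
    rw [dE, toV_add (dE_den e v G) (dE_den e v F), ihF, ihG, Fm.ev, add_comm]
  | mul F G ihF ihG =>
    rw [dE, toV_mul, ihF, ihG, Fm.ev, mul_comm]

theorem toD_dE (e : En) (v : ℕ) (F : Fm) :
    toD (dE e (v + 3) F) = MvPolynomial.eval (ptE e) (MvPolynomial.pderiv v F.poly) := by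
  induction F with
  | const q =>
    rw [dE, toD_dOf _ _ (Rat.den_ne_zero _)]
    simp [Fm.poly]
  | var i =>
    rw [dE, toD_dOf _ _ (fixE_den _)]
    by_cases h : i = v
    · subst h
      simp [Fm.poly]
    · rw [Fm.poly, MvPolynomial.pderiv_X_of_ne h]
      simp [h]
  | add F G ihF ihG =>
    rw [dE, toD_add (dE_den e _ G) (dE_den e _ F), ihF, ihG, Fm.poly, map_add, map_add, add_comm]
  | mul F G ihF ihG =>
    rw [dE, toD_mul, ihF, ihG, Fm.poly, toV_dE, toV_dE, (MvPolynomial.pderiv v).leibniz, map_add,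
      smul_eq_mul, smul_eq_mul, map_mul, map_mul, Fm.eval_poly, Fm.eval_poly]
    ring

theorem dE_zero (e : En) (v : ℕ) (F : Fm) :
    decide ((dE e v F).1.1 = (dE e v F).1.2) = decide (F.ev (ptE e) = 0) := by
  rw [← toV_dE e v]
  exact decide_eq_decide.mpr (toV_eq_zero (dE_den e v F)).symm

theorem dstp_eq (e : En) (v : ℕ) (G : Fm) (s s' : List DE) (c : List Bool) (t : DT)
    (h : dstk s' t = dE e v G :: s) : dstp (s', c) t =
      (dE e v G :: s, List.replicate (if G.ev (ptE e) ≠ 0 then 1 else 0) true ++ c) := by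
  simp only [dstp, h, List.headD_cons, dE_zero]
  by_cases h0 : G.ev (ptE e) = 0 <;> simp [h0]

theorem drun_eq (e : En) (v : ℕ) (F : Fm) (s : List DE) (c : List Bool) :
    (F.code.map fun t => dres ((e, v), t)).foldl dstp (s, c) =
      (dE e v F :: s, List.replicate (pot (ptE e) F) true ++ c) := by
  induction F generalizing s c with
  | const q =>
    simp only [Fm.code, List.map_cons, List.map_nil, List.foldl_cons, List.foldl_nil]
    rw [dstp_eq e v (.const q) s s c _ (by simp [dres, dstk, dE]), pot_const]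
  | var i =>
    simp only [Fm.code, List.map_cons, List.map_nil, List.foldl_cons, List.foldl_nil]
    rw [dstp_eq e v (.var i) s s c _ (by simp [dres, dstk, dE]), pot_var]
  | add F G ihF ihG =>
    simp only [Fm.code, List.map_append, List.map_cons, List.map_nil, List.foldl_append,
      List.foldl_cons, List.foldl_nil]
    rw [ihF, ihG, dstp_eq e v (.add F G) s _ _ _ (by simp [dres, dstk, dE]), pot_add, rep3]
  | mul F G ihF ihG =>
    simp only [Fm.code, List.map_append, List.map_cons, List.map_nil, List.foldl_append,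
      List.foldl_cons, List.foldl_nil]
    rw [ihF, ihG, dstp_eq e v (.mul F G) s _ _ _ (by simp [dres, dstk, dE]), pot_mul, rep3]

theorem drun_code (e : En) (v : ℕ) (F : Fm) :
    drun F.code e v = ([dE e v F], List.replicate (pot (ptE e) F) true) := by
  rw [drun, drun_eq, List.append_nil]

/-- the value at the top of the stack, with a nonzero denominator -/
def topV (w : List (ℕ × ℚ)) (e : En) : ℚ :=
  toQ (fixE (((drun w e 0).1.headD d0).1, ((drun w e 0).1.headD d0).2.2))

/-- the derivative at the top of the stack -/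
def topD (w : List (ℕ × ℚ)) (e : En) (v : ℕ) : ℚ :=
  toQ (fixE ((drun w e v).1.headD d0).2)

theorem topV_code (e : En) (F : Fm) : topV F.code e = F.ev (ptE e) := by
  rw [topV, drun_code, List.headD_cons, toQ_fixE]
  exact toV_dE e 0 F

theorem topD_code (e : En) (v : ℕ) (F : Fm) :
    topD F.code e (v + 3) = MvPolynomial.eval (ptE e) (MvPolynomial.pderiv v F.poly) := by
  rw [topD, drun_code, List.headD_cons, toQ_fixE]
  exact toD_dE e v F

section

variable {α : Type} [N487b59b3 α]

theorem fq_topV {f : α → List (ℕ × ℚ)} {g : α → En} (hf : FP f) (hg : FP g) :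
    FQ fun a => topV (f a) (g a) := by
  have h1 : FP fun a => (drun (f a) (g a) 0).1.headD d0 :=
    FP.headD (FP.fst' (fp_drun hf hg (FP.const 0))) _
  exact FQ.ofEl (fp_fixE (FP.pair h1.fst' h1.snd'.snd')) fun a => fixE_den _

theorem fq_topD {f : α → List (ℕ × ℚ)} {g : α → En} {h : α → ℕ} (hf : FP f) (hg : FP g)
    (hh : FP h) : FQ fun a => topD (f a) (g a) (h a) := by
  have h1 : FP fun a => (drun (f a) (g a) (h a)).1.headD d0 :=
    FP.headD (FP.fst' (fp_drun hf hg hh)) _
  exact FQ.ofEl (fp_fixE h1.snd') fun a => fixE_den _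

end

end Pool.Agent.Helper6.SP
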