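import Pool.Agent.Helper6.WB.Climb

set_option autoImplicit false

/-!
Rational functions of encoded objects computed in polynomial time as unreduced quotients.
-/

namespace Pool.Agent.Helper6.SP

open Turing Function N487b59b3 N68a2faeb Pool.Agent.Helper22 Computability Pool.Agent.Helper6.WB

section

variable {α β γ δ : Type} [N487b59b3 α] [N487b59b3 β] [N487b59b3 γ] [N487b59b3 δ]

/-- computed in polynomial time as an unreduced quotient -/
def FQ (f : α → ℚ) : Prop := ∃ F : α → El, FP F ∧ (∀ a, (F a).2 ≠ 0) ∧ ∀ a, toQ (F a) = f a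

theorem FQ.comp {f : β → ℚ} {g : α → β} (hf : FQ f) (hg : FP g) : FQ fun a => f (g a) := by
  obtain ⟨F, h1, h2, h3⟩ := hf
  exact ⟨fun a => F (g a), h1.comp hg, fun a => h2 _, fun a => h3 _⟩

theorem FQ.congr {f g : α → ℚ} (hf : FQ f) (h : ∀ a, g a = f a) : FQ g := by
  obtain ⟨F, h1, h2, h3⟩ := hf
  exact ⟨F, h1, h2, fun a => (h3 a).trans (h a).symm⟩

theorem FQ.const (q : ℚ) : FQ fun _ : α => q :=
  ⟨fun _ => qEl q, FP.const _, fun _ => q.den_ne_zero, fun _ => toQ_qEl q⟩

theorem FQ.ofRat {f : α → ℚ} (hf : FP f) : FQ f :=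
  ⟨fun a => qEl (f a), fp_qEl hf, fun _ => Rat.den_ne_zero _, fun _ => toQ_qEl _⟩

theorem FQ.ofNat {f : α → ℕ} (hf : FP f) : FQ fun a => (f a : ℚ) :=
  ⟨fun a => ((f a, 0), 1), FP.pair (FP.pair hf (FP.const 0)) (FP.const 1),
    fun _ => one_ne_zero, fun _ => by simp [toQ]⟩

theorem FQ.ofEl {f : α → El} (hf : FP f) (h : ∀ a, (f a).2 ≠ 0) : FQ fun a => toQ (f a) :=
  ⟨f, hf, h, fun _ => rfl⟩

theorem FQ.add {f g : α → ℚ} (hf : FQ f) (hg : FQ g) : FQ fun a => f a + g a := by
  obtain ⟨F, h1, h2, h3⟩ := hf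
  obtain ⟨G, h4, h5, h6⟩ := hg
  exact ⟨fun a => elAdd (F a) (G a), fp_elAdd h1 h4, fun a => mul_ne_zero (h2 a) (h5 a),
    fun a => by rw [toQ_add (h2 a) (h5 a), h3, h6]⟩

theorem FQ.mul {f g : α → ℚ} (hf : FQ f) (hg : FQ g) : FQ fun a => f a * g a := by
  obtain ⟨F, h1, h2, h3⟩ := hf
  obtain ⟨G, h4, h5, h6⟩ := hg
  exact ⟨fun a => elMul (F a) (G a), fp_elMul h1 h4, fun a => mul_ne_zero (h2 a) (h5 a),
    fun a => by rw [toQ_mul, h3, h6]⟩

theorem FQ.sub {f g : α → ℚ} (hf : FQ f) (hg : FQ g) : FQ fun a => f a - g a :=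
  (hf.add ((FQ.const (-1)).mul hg)).congr fun a => by ring

theorem FQ.sum {ι : Type} (s : Finset ι) {f : ι → α → ℚ} (hf : ∀ i, FQ (f i)) :
    FQ fun a => ∑ i ∈ s, f i a := by
  classical
  induction s using Finset.induction_on with
  | empty => exact (FQ.const 0).congr fun a => by simp
  | insert i s hi ih => exact ((hf i).add ih).congr fun a => by rw [Finset.sum_insert hi]

theorem FQ.prod {ι : Type} (s : Finset ι) {f : ι → α → ℚ} (hf : ∀ i, FQ (f i)) :
    FQ fun a => ∏ i ∈ s, f i a := by
  classical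
  induction s using Finset.induction_on with
  | empty => exact (FQ.const 1).congr fun a => by simp
  | insert i s hi ih => exact ((hf i).mul ih).congr fun a => by rw [Finset.prod_insert hi]

theorem FQ.det {M : ℕ} {f : Fin M → Fin M → α → ℚ} (hf : ∀ i j, FQ (f i j)) :
    FQ fun a => (Matrix.of fun i j => f i j a).det := by
  refine (FQ.sum (Finset.univ : Finset (Equiv.Perm (Fin M)))
    (f := fun s a => ((Equiv.Perm.sign s : ℤ) : ℚ) * ∏ i, f (s i) i a) fun s =>
    (FQ.const _).mul (FQ.prod _ fun i => hf _ _)).congr fun a => ?_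
  rw [Matrix.det_apply']
  rfl

theorem FQ.eqZero {f : α → ℚ} (hf : FQ f) : FP fun a => decide (f a = 0) := by
  obtain ⟨F, h1, h2, h3⟩ := hf
  have h4 : FP fun a => decide ((F a).1.1 = (F a).1.2) := FP.natEq h1.fst'.fst' h1.fst'.snd'
  refine (congrArg FP (funext fun a => ?_)).mp h4
  rw [← h3]
  exact decide_eq_decide.mpr (toQ_eq_zero (h2 a)).symm

theorem FQ.ite {c : α → Bool} {f g : α → ℚ} (hc : FP c) (hf : FQ f) (hg : FQ g) :
    FQ fun a => if c a then f a else g a := by
  obtain ⟨F, h1, h2, h3⟩ := hf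
  obtain ⟨G, h4, h5, h6⟩ := hg
  refine ⟨fun a => if c a then F a else G a, FP.ite hc h1 h4, fun a => ?_, fun a => ?_⟩
  · by_cases h : c a = true
    · simpa [h] using h2 a
    · simpa [h] using h5 a
  · by_cases h : c a = true
    · simpa [h] using h3 a
    · simpa [h] using h6 a

/-! ## Sums and products of lists -/

theorem mulE_bt (l : List El) (a : El) : bt (l.foldl elMul a) ≤ bt a + 3 * sz l := by
  induction l generalizing a with
  | nil => simp
  | cons b l ih =>
    rw [List.foldl_cons]
    have h1 := ih (elMul a b)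
    have h2 := bt_mul a b
    have h3 := bt_le b
    simp only [sz_cons]
    omega

theorem addE_bt (l : List El) (a : El) : bt (l.foldl elAdd a) ≤ bt a + 3 * sz l := by
  induction l generalizing a with
  | nil => simp
  | cons b l ih =>
    rw [List.foldl_cons]
    have h1 := ih (elAdd a b)
    have h2 := bt_add a b
    have h3 := bt_le b
    simp only [sz_cons]
    omega

theorem fp_mulE : FP fun p : List El × El => p.1.foldl elMul p.2 := by
  refine FP.foldl (g := elMul) (fp_elMul FP.fst FP.snd) (B := fun n => 30 * n + 50)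
    (by fun_prop) ?_
  intro l a
  have h1 := mulE_bt l a
  have h2 := bt_le a
  have h3 := sz_el_le (l.foldl elMul a)
  omega

theorem fp_addE : FP fun p : List El × El => p.1.foldl elAdd p.2 := by
  refine FP.foldl (g := elAdd) (fp_elAdd FP.fst FP.snd) (B := fun n => 30 * n + 50)
    (by fun_prop) ?_
  intro l a
  have h1 := addE_bt l a
  have h2 := bt_le a
  have h3 := sz_el_le (l.foldl elAdd a)
  omega

theorem mulE_spec (l : List El) (a : El) (ha : a.2 ≠ 0) (hl : ∀ b ∈ l, b.2 ≠ 0) :
    (l.foldl elMul a).2 ≠ 0 ∧ toQ (l.foldl elMul a) = toQ a * (l.map toQ).prod := by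
  induction l generalizing a with
  | nil => simp [ha]
  | cons b l ih =>
    rw [List.foldl_cons]
    have hb : (elMul a b).2 ≠ 0 := mul_ne_zero ha (hl b List.mem_cons_self)
    have h1 := ih (elMul a b) hb fun c hc => hl c (List.mem_cons_of_mem _ hc)
    rw [toQ_mul] at h1
    rw [List.map_cons, List.prod_cons, ← mul_assoc]
    exact h1

theorem addE_spec (l : List El) (a : El) (ha : a.2 ≠ 0) (hl : ∀ b ∈ l, b.2 ≠ 0) :
    (l.foldl elAdd a).2 ≠ 0 ∧ toQ (l.foldl elAdd a) = toQ a + (l.map toQ).sum := by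
  induction l generalizing a with
  | nil => simp [ha]
  | cons b l ih =>
    rw [List.foldl_cons]
    have hb := hl b List.mem_cons_self
    have hc : (elAdd a b).2 ≠ 0 := mul_ne_zero ha hb
    have h1 := ih (elAdd a b) hc fun c hc => hl c (List.mem_cons_of_mem _ hc)
    rw [toQ_add ha hb] at h1
    rw [List.map_cons, List.sum_cons, ← add_assoc]
    exact h1

theorem FQ.listProd [Inhabited β] {g : γ × β → ℚ} (hg : FQ g) :
    FQ fun p : γ × List β => (p.2.map fun b => g (p.1, b)).prod := by
  obtain ⟨F, h1, h2, h3⟩ := hg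
  have h4 : FP fun p : γ × List β => p.2.map fun b => F (p.1, b) := FP.map_ctx h1
  have h5 : FP fun p : γ × List β => (p.2.map fun b => F (p.1, b)).foldl elMul ((1, 0), 1) :=
    fp_mulE.comp (h4.pair (FP.const _))
  have h6 := fun p : γ × List β => mulE_spec (p.2.map fun b => F (p.1, b)) ((1, 0), 1)
    one_ne_zero (by
      intro c hc
      obtain ⟨b, _, rfl⟩ := List.mem_map.mp hc
      exact h2 _)
  refine ⟨_, h5, fun p => (h6 p).1, fun p => ?_⟩
  rw [(h6 p).2, List.map_map]
  have h7 : toQ ((1, 0), 1) = 1 := by simp [toQ]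
  rw [h7, one_mul]
  congr 1
  apply List.map_congr_left
  intro b _
  exact h3 _

theorem FQ.listSum [Inhabited β] {g : γ × β → ℚ} (hg : FQ g) :
    FQ fun p : γ × List β => (p.2.map fun b => g (p.1, b)).sum := by
  obtain ⟨F, h1, h2, h3⟩ := hg
  have h4 : FP fun p : γ × List β => p.2.map fun b => F (p.1, b) := FP.map_ctx h1
  have h5 : FP fun p : γ × List β => (p.2.map fun b => F (p.1, b)).foldl elAdd ((0, 0), 1) :=
    fp_addE.comp (h4.pair (FP.const _))
  have h6 := fun p : γ × List β => addE_spec (p.2.map fun b => F (p.1, b)) ((0, 0), 1)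
    one_ne_zero (by
      intro c hc
      obtain ⟨b, _, rfl⟩ := List.mem_map.mp hc
      exact h2 _)
  refine ⟨_, h5, fun p => (h6 p).1, fun p => ?_⟩
  rw [(h6 p).2, List.map_map]
  have h7 : toQ ((0, 0), 1) = 0 := by simp [toQ]
  rw [h7, zero_add]
  congr 1
  apply List.map_congr_left
  intro b _
  exact h3 _

/-! ## Lists -/

theorem fp_getD {f : α → List β} (hf : FP f) (i : ℕ) (d : β) : FP fun a => (f a).getD i d := by
  have h1 : FP fun a => ((f a).drop (List.replicate i true).length).headD d :=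
    FP.headD (FP.drop hf (FP.const (List.replicate i true))) d
  refine (congrArg FP (funext fun a => ?_)).mp h1
  rw [List.length_replicate, List.getD_eq_getElem?_getD, List.headD_eq_head?_getD,
    List.head?_drop]

/-- all lists of length `j` of elements of `P` -/
def lpow {β : Type} (P : List β) : ℕ → List (List β)
  | 0 => [[]]
  | j + 1 => (lpow P j).flatMap fun m => P.map fun p => p :: m

omit [N487b59b3 β] in
theorem mem_lpow {P : List β} {j : ℕ} {m : List β} :
    m ∈ lpow P j ↔ m.length = j ∧ ∀ p ∈ m, p ∈ P := by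
  induction j generalizing m with
  | zero =>
    simp only [lpow, List.mem_singleton]
    constructor
    · rintro rfl; simp
    · rintro ⟨h, -⟩; exact List.eq_nil_of_length_eq_zero h
  | succ j ih =>
    simp only [lpow, List.mem_flatMap, List.mem_map]
    constructor
    · rintro ⟨m', h1, p, h2, rfl⟩
      obtain ⟨h3, h4⟩ := ih.mp h1
      refine ⟨by simp [h3], ?_⟩
      intro q hq
      rcases List.mem_cons.mp hq with rfl | hq
      · exact h2
      · exact h4 q hq
    · rintro ⟨h1, h2⟩
      cases m with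
      | nil => simp at h1
      | cons p m =>
        exact ⟨m, ih.mpr ⟨by simpa using h1, fun q hq => h2 q (List.mem_cons_of_mem _ hq)⟩, p,
          h2 p List.mem_cons_self, rfl⟩

theorem fp_lpow' [Inhabited β] (j : ℕ) : FP fun P : List β => lpow P j := by
  induction j with
  | zero => exact FP.const _
  | succ j ih =>
    have h1 : FP fun q : List β × List β => q.1.map fun p => p :: q.2 := by
      have h2 : FP fun p : List β × List β => p.2.map fun b =>
        (fun q : List β × β => q.2 :: q.1) (p.1, b) := FP.map_ctx (FP.cons FP.snd FP.fst)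
      exact h2.comp (FP.pair FP.snd FP.fst)
    have h3 : FP fun p : List β × List (List β) => p.2.flatMap fun m =>
      (fun q : List β × List β => q.1.map fun p => p :: q.2) (p.1, m) := fp_flatMap_ctx h1
    exact h3.comp (FP.pair FP.id ih)

theorem fp_lpow [Inhabited β] {f : α → List β} (hf : FP f) (j : ℕ) :
    FP fun a => lpow (f a) j := (fp_lpow' j).comp hf

theorem fp_flatMap [Inhabited β] {f : α → List β} {h : α × β → List δ} (hf : FP f) (hh : FP h) :
    FP fun a => (f a).flatMap fun b => h (a, b) :=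
  (fp_flatMap_ctx hh).comp (FP.id.pair hf)

theorem fp_map [Inhabited β] {f : α → List β} {h : α × β → δ} (hf : FP f) (hh : FP h) :
    FP fun a => (f a).map fun b => h (a, b) :=
  (FP.map_ctx hh).comp (FP.id.pair hf)

theorem fp_flatten {f : α → List (List β)} (hf : FP f) : FP fun a => (f a).flatten := by
  have h1 : FP fun a => (f a).flatMap fun b => (fun q : α × List β => q.2) (a, b) :=
    fp_flatMap hf FP.snd
  refine (congrArg FP (funext fun a => ?_)).mp h1
  simp [List.flatMap_def]

theorem fp_any [Inhabited β] {f : α → List β} {h : α × β → Bool} (hf : FP f) (hh : FP h) :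
    FP fun a => (f a).any fun b => h (a, b) :=
  (FP.any_ctx hh).comp (FP.id.pair hf)

end

end Pool.Agent.Helper6.SP
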