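import Pool.Agent.Helper6.SP.Defs
import Pool.Agent.Helper7.T3.Coef

/-!
The coefficients of the shift of a read-`r` formula along few variables lie in an algebra generated
by boundedly many instances of the formula.
-/

namespace Pool.Agent.Helper6.SP

open MvPolynomial Pool.Agent.Helper6.WB
open Pool.Agent.Helper7 (coefSub coefSub_mono C_mem_coefSub mem_coefSub X_mem_coefSub)

/-! ## The instances -/

theorem subst_poly (I : Finset ℕ) (β : ℕ → ℕ) (F : Fm) : (F.subst (sg I β)).poly =
    aeval (fun i => if i ∈ I then (C (β i : ℚ) : MvPolynomial ℕ ℚ) else X i) F.poly := by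
  induction F with
  | const q =>
    simp only [Fm.subst, Fm.poly]
    rw [← algebraMap_eq, AlgHom.commutes]
  | var i =>
    simp only [Fm.subst, Fm.poly, sg, aeval_X]
    by_cases h : i ∈ I <;> simp [h, Fm.poly]
  | add F G ihF ihG => simp only [Fm.subst, Fm.poly, map_add, ihF, ihG]
  | mul F G ihF ihG => simp only [Fm.subst, Fm.poly, map_mul, ihF, ihG]

theorem subst_of_disjoint (I : Finset ℕ) (β : ℕ → ℕ) (F : Fm) (h : ∀ i ∈ F.vars, i ∉ I) :
    F.subst (sg I β) = F := by
  induction F with
  | const q => rfl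
  | var i =>
    have : i ∉ I := h i (by simp [Fm.vars])
    simp [Fm.subst, sg, this]
  | add F G ihF ihG =>
    simp only [Fm.subst]
    rw [ihF fun i hi => h i (by simp [Fm.vars, hi]), ihG fun i hi => h i (by simp [Fm.vars, hi])]
  | mul F G ihF ihG =>
    simp only [Fm.subst]
    rw [ihF fun i hi => h i (by simp [Fm.vars, hi]), ihG fun i hi => h i (by simp [Fm.vars, hi])]

theorem subst_of_subset (I : Finset ℕ) (β : ℕ → ℕ) (F : Fm) (h : ∀ i ∈ F.vars, i ∈ I) :
    (F.subst (sg I β)).poly = C (F.ev fun i => (β i : ℚ)) := by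
  induction F with
  | const q => rfl
  | var i =>
    have : i ∈ I := h i (by simp [Fm.vars])
    simp [Fm.subst, sg, this, Fm.poly, Fm.ev]
  | add F G ihF ihG =>
    simp only [Fm.subst, Fm.poly, Fm.ev, map_add]
    rw [ihF fun i hi => h i (by simp [Fm.vars, hi]), ihG fun i hi => h i (by simp [Fm.vars, hi])]
  | mul F G ihF ihG =>
    simp only [Fm.subst, Fm.poly, Fm.ev, map_mul]
    rw [ihF fun i hi => h i (by simp [Fm.vars, hi]), ihG fun i hi => h i (by simp [Fm.vars, hi])]

/-! ## Rank bound -/

/-- the terms of a decomposition -/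
abbrev Tm := ((ℕ → ℕ) → ℚ) × MvPolynomial ℕ ℚ

/-- value of a list of terms -/
noncomputable def tv (β : ℕ → ℕ) (L : List Tm) : MvPolynomial ℕ ℚ :=
  (L.map fun p => C (p.1 β) * p.2).sum

theorem tv_append (β : ℕ → ℕ) (L L' : List Tm) : tv β (L ++ L') = tv β L + tv β L' := by
  simp [tv]

theorem tv_scale (β : ℕ → ℕ) (L : List Tm) (φ : (ℕ → ℕ) → ℚ) (c : MvPolynomial ℕ ℚ) :
    tv β (L.map fun p => (fun β => φ β * p.1 β, c * p.2)) = C (φ β) * c * tv β L := by
  induction L with
  | nil => simp [tv]
  | cons p L ih =>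
    simp only [tv, List.map_cons, List.sum_cons, map_mul] at ih ⊢
    rw [ih]
    ring

theorem tv_mul (β : ℕ → ℕ) (L L' : List Tm) :
    tv β (L.flatMap fun p => L'.map fun q => (fun β => p.1 β * q.1 β, p.2 * q.2)) =
      tv β L * tv β L' := by
  induction L with
  | nil => simp [tv]
  | cons p L ih =>
    rw [List.flatMap_cons, tv_append, ih, tv_scale]
    have : tv β (p :: L) = C (p.1 β) * p.2 + tv β L := by simp [tv]
    rw [this]
    ring

theorem rank_bound (I : Finset ℕ) (F : Fm) : ∃ (c0 : MvPolynomial ℕ ℚ) (L : List Tm),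
    L.length + 1 ≤ 2 ^ (∑ i ∈ I, F.reads i) ∧
      ∀ β : ℕ → ℕ, (F.subst (sg I β)).poly = c0 + tv β L := by
  have block : ∀ (F : Fm) (j : ℕ), F.vars = {j} → ∃ (c0 : MvPolynomial ℕ ℚ) (L : List Tm),
      L.length + 1 ≤ 2 ^ (∑ i ∈ I, F.reads i) ∧
        ∀ β : ℕ → ℕ, (F.subst (sg I β)).poly = c0 + tv β L := by
    intro F j h
    by_cases hj : j ∈ I
    · refine ⟨0, [(fun β => F.ev fun i => (β i : ℚ), 1)], ?_, fun β => ?_⟩
      · have h1 : 1 ≤ ∑ i ∈ I, F.reads i := by
          have := Finset.single_le_sum (f := fun i => F.reads i) (fun i _ => Nat.zero_le _) hj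
          rw [reads_of_vars_eq h] at this
          exact this
        calc _ = 2 ^ 1 := rfl
          _ ≤ _ := Nat.pow_le_pow_right (by norm_num) h1
      · rw [subst_of_subset I β F (fun i hi => by
          rw [h, Finset.mem_singleton] at hi; rw [hi]; exact hj)]
        simp [tv]
    · refine ⟨F.poly, [], ?_, fun β => ?_⟩
      · simpa using Nat.one_le_two_pow
      · rw [subst_of_disjoint I β F (fun i hi => by
          rw [h, Finset.mem_singleton] at hi; rw [hi]; exact hj)]
        simp [tv]
  induction F with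
  | const q => exact ⟨C q, [], by simpa using Nat.one_le_two_pow, fun β => by
      simp [Fm.subst, Fm.poly, tv]⟩
  | var i => exact block _ i rfl
  | add F G ihF ihG =>
    by_cases h1 : ∃ j, (F.add G).vars = {j}
    · obtain ⟨j, hj⟩ := h1
      exact block _ j hj
    push Not at h1
    obtain ⟨c, L, hL, hF⟩ := ihF
    obtain ⟨c', L', hL', hG⟩ := ihG
    refine ⟨c + c', L ++ L', ?_, fun β => ?_⟩
    · have e : ∑ i ∈ I, (F.add G).reads i = ∑ i ∈ I, F.reads i + ∑ i ∈ I, G.reads i := by
        rw [← Finset.sum_add_distrib]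
        apply Finset.sum_congr rfl
        intro i _
        simp only [Fm.reads]
        have h2 : ¬ (F.vars ∪ G.vars = {i}) := h1 i
        rw [if_neg h2]
      rw [e, pow_add, List.length_append]
      have h2 := Nat.one_le_two_pow (n := ∑ i ∈ I, F.reads i)
      have h3 := Nat.one_le_two_pow (n := ∑ i ∈ I, G.reads i)
      nlinarith
    · simp only [Fm.subst, Fm.poly]
      rw [hF, hG, tv_append]
      ring
  | mul F G ihF ihG =>
    by_cases h1 : ∃ j, (F.mul G).vars = {j}
    · obtain ⟨j, hj⟩ := h1
      exact block _ j hj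
    push Not at h1
    obtain ⟨c, L, hL, hF⟩ := ihF
    obtain ⟨c', L', hL', hG⟩ := ihG
    refine ⟨c * c', (L.map fun p => (fun β => (fun _ => (1 : ℚ)) β * p.1 β, c' * p.2)) ++
      ((L'.map fun p => (fun β => (fun _ => (1 : ℚ)) β * p.1 β, c * p.2)) ++
      (L.flatMap fun p => L'.map fun q => (fun β => p.1 β * q.1 β, p.2 * q.2))), ?_,
      fun β => ?_⟩
    · have e : ∑ i ∈ I, (F.mul G).reads i = ∑ i ∈ I, F.reads i + ∑ i ∈ I, G.reads i := by
        rw [← Finset.sum_add_distrib]
        apply Finset.sum_congr rfl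
        intro i _
        simp only [Fm.reads]
        have h2 : ¬ (F.vars ∪ G.vars = {i}) := h1 i
        rw [if_neg h2]
      have e2 : (L.flatMap fun p => L'.map fun q =>
          ((fun β => p.1 β * q.1 β, p.2 * q.2) : Tm)).length = L.length * L'.length := by
        rw [List.length_flatMap]
        simp
      rw [e, pow_add, List.length_append, List.length_append, List.length_map, List.length_map, e2]
      calc _ = (L.length + 1) * (L'.length + 1) := by ring
        _ ≤ _ := Nat.mul_le_mul hL hL'
    · simp only [Fm.subst, Fm.poly]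
      rw [hF, hG, tv_append, tv_append, tv_scale, tv_scale, tv_mul, C_1]
      ring

/-! ## Interpolation -/

section

variable {n : ℕ}

theorem totalDegree_aeval_le {σ τ R : Type*} [CommRing R] [Algebra ℚ R]
    (f : σ → MvPolynomial τ R) (hf : ∀ i, (f i).totalDegree ≤ 1) (p : MvPolynomial σ ℚ) :
    (aeval f p).totalDegree ≤ p.totalDegree := by
  rw [aeval_def, eval₂_eq]
  apply totalDegree_finsetSum_le
  intro m hm
  refine (totalDegree_mul _ _).trans ?_
  have h1 : (algebraMap ℚ (MvPolynomial τ R) (coeff m p)).totalDegree = 0 := by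
    rw [MvPolynomial.algebraMap_apply, totalDegree_C]
  rw [h1, zero_add]
  refine (totalDegree_finsetProd _ _).trans ?_
  refine le_trans ?_ (le_totalDegree hm)
  rw [Finsupp.sum]
  apply Finset.sum_le_sum
  intro i _
  refine (totalDegree_pow _ _).trans ?_
  calc m i * (f i).totalDegree ≤ m i * 1 := Nat.mul_le_mul_left _ (hf i)
    _ = m i := mul_one _

theorem totalDegree_le_rename (ρ : Fin n → ℕ) (hρ : Function.Injective ρ)
    (p : MvPolynomial (Fin n) ℚ) : p.totalDegree ≤ (rename ρ p).totalDegree := by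
  rcases isEmpty_or_nonempty (Fin n) with h | h
  · have h1 : p.totalDegree = 0 := by
      rw [totalDegree_eq_zero_iff]
      intro m _ x
      exact h.elim x
    rw [h1]
    exact Nat.zero_le _
  · have h1 : rename (Function.invFun ρ) (rename ρ p) = p := by
      rw [rename_rename, (Function.leftInverse_invFun hρ).comp_eq_id, rename_id_apply]
    conv_lhs => rw [← h1]
    exact totalDegree_rename_le _ _

/-- the polynomial, the variables in `V` being separated -/
noncomputable def spl (V : Finset (Fin n)) :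
    MvPolynomial (Fin n) ℚ →ₐ[ℚ] MvPolynomial (Fin n) (MvPolynomial (Fin n) ℚ) :=
  aeval fun v => if v ∈ V then X v else C (X v)

/-- the instance -/
noncomputable def ins (V : Finset (Fin n)) (β : Fin n → ℕ) :
    MvPolynomial (Fin n) ℚ →ₐ[ℚ] MvPolynomial (Fin n) ℚ :=
  aeval fun v => if v ∈ V then C (β v : ℚ) else X v

theorem eval_spl (V : Finset (Fin n)) (β : Fin n → ℕ) (p : MvPolynomial (Fin n) ℚ) :
    eval (fun v => (C (β v : ℚ) : MvPolynomial (Fin n) ℚ)) (spl V p) = ins V β p := by
  have h : (eval (fun v => (C (β v : ℚ) : MvPolynomial (Fin n) ℚ))).comp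
      (spl V : MvPolynomial (Fin n) ℚ →+* _) = (ins V β : MvPolynomial (Fin n) ℚ →+* _) := by
    apply VF.ringHom_ext_rat
    intro v
    simp only [spl, ins, RingHom.comp_apply, RingHom.coe_coe, aeval_X]
    by_cases hv : v ∈ V <;> simp [hv]
  exact congrArg (fun g => g p) h

theorem coeff_spl_mem (V : Finset (Fin n)) (D : ℕ) (p : MvPolynomial (Fin n) ℚ)
    (hp : p.totalDegree ≤ D) (W : Submodule ℚ (MvPolynomial (Fin n) ℚ))
    (hW : ∀ β : Fin n → ℕ, (∀ v, β v ≤ D) → ins V β p ∈ W) (m : Fin n →₀ ℕ) :
    coeff m (spl V p) ∈ W := by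
  classical
  by_contra hcon
  obtain ⟨lam, h1, h2⟩ := Submodule.exists_le_ker_of_notMem hcon
  set G := spl V p with hG
  set H : MvPolynomial (Fin n) ℚ := ∑ m ∈ G.support, monomial m (lam (coeff m G)) with hH
  have hcoef : ∀ m, coeff m H = lam (coeff m G) := by
    intro m
    rw [hH, coeff_sum]
    simp only [coeff_monomial]
    rw [Finset.sum_ite_eq' G.support m]
    split_ifs with h
    · rfl
    · rw [notMem_support_iff.mp h, map_zero]
  have hev : ∀ β : Fin n → ℕ, eval (fun v => (β v : ℚ)) H = lam (ins V β p) := by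
    intro β
    have e1 : eval (fun v => (β v : ℚ)) H = ∑ m ∈ G.support,
        eval (fun v => (β v : ℚ)) (monomial m (lam (coeff m G))) := by rw [hH, map_sum]
    rw [← eval_spl, ← hG, e1, eval_eq, map_sum]
    apply Finset.sum_congr rfl
    intro m _
    rw [eval_monomial, Finsupp.prod]
    have e : coeff m G * ∏ i ∈ m.support, (C (β i : ℚ) : MvPolynomial (Fin n) ℚ) ^ m i =
        (∏ i ∈ m.support, (β i : ℚ) ^ m i) • coeff m G := by
      rw [smul_eq_C_mul, map_prod, mul_comm]
      congr 1
      apply Finset.prod_congr rfl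
      intro i _
      rw [map_pow]
    rw [e, map_smul, smul_eq_mul, mul_comm]
  have hdeg : G.totalDegree ≤ D := by
    refine (totalDegree_aeval_le _ (fun v => ?_) p).trans hp
    split_ifs
    · exact (totalDegree_X v).le
    · rw [totalDegree_C]; exact Nat.zero_le _
  have hH0 : H = 0 := by
    apply MvPolynomial.eq_zero_of_eval_zero_at_prod_finset H
      (fun _ => (Finset.range (D + 1)).map ⟨fun v : ℕ => (v : ℚ), Nat.cast_injective⟩)
    · intro i
      rw [Finset.card_map, Finset.card_range]
      refine Nat.lt_succ_of_le ?_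
      rw [degreeOf_le_iff]
      intro m hm
      have h3 : m ∈ G.support := by
        rw [mem_support_iff, hcoef] at hm
        rw [mem_support_iff]
        intro h0
        exact hm (by rw [h0, map_zero])
      refine le_trans ?_ ((le_totalDegree h3).trans hdeg)
      rw [Finsupp.sum]
      by_cases hi : i ∈ m.support
      · exact Finset.single_le_sum (f := fun i => m i) (fun i _ => Nat.zero_le _) hi
      · rw [Finsupp.notMem_support_iff.mp hi]; exact Nat.zero_le _
    · intro y hy
      have h4 : ∀ i, ∃ v : ℕ, v ≤ D ∧ y i = v := by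
        intro i
        have := hy i
        rw [Finset.mem_map] at this
        obtain ⟨v, hv, hv'⟩ := this
        exact ⟨v, by rw [Finset.mem_range] at hv; omega, hv'.symm⟩
      choose β hβ hy' using h4
      have h5 : y = fun v => (β v : ℚ) := funext hy'
      rw [h5, hev]
      exact h2 (hW β hβ)
  apply h1
  rw [← hcoef, hH0, coeff_zero]

theorem shR_eq_spl {s : ℕ} (J : Fin s → Fin n) (p : MvPolynomial (Fin n) ℚ) :
    VF.shR (fun v => (X v : MvPolynomial (Fin n) ℚ)) J p =
      eval₂ C (fun v => C (X v) + ∑ j, if J j = v then X j else 0)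
        (spl (Finset.univ.image J) p) := by
  classical
  have h : (VF.shR (fun v => (X v : MvPolynomial (Fin n) ℚ)) J :
      MvPolynomial (Fin n) ℚ →+* MvPolynomial (Fin s) (MvPolynomial (Fin n) ℚ)) =
      (eval₂Hom C (fun v => C (X v) + ∑ j, if J j = v then X j else 0)).comp
        (spl (Finset.univ.image J) : MvPolynomial (Fin n) ℚ →+* _) := by
    apply VF.ringHom_ext_rat
    intro v
    simp only [VF.shR, spl, RingHom.comp_apply, RingHom.coe_coe, aeval_X]
    by_cases hv : v ∈ Finset.univ.image J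
    · simp only [hv, if_true, coe_eval₂Hom, eval₂_X]
    · simp only [hv, if_false, coe_eval₂Hom, eval₂_C]
      rw [Finset.sum_eq_zero, add_zero]
      intro j _
      rw [if_neg]
      rintro rfl
      exact hv (Finset.mem_image_of_mem _ (Finset.mem_univ _))
  exact congrArg (fun g => g p) h

theorem coeff_shR_mem {s : ℕ} (J : Fin s → Fin n) (p : MvPolynomial (Fin n) ℚ)
    (B : Subalgebra ℚ (MvPolynomial (Fin n) ℚ)) (hB : ∀ m, coeff m (spl (Finset.univ.image J) p) ∈ B)
    (hX : ∀ j, (X (J j) : MvPolynomial (Fin n) ℚ) ∈ B) (m : Fin s →₀ ℕ) :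
    coeff m (VF.shR (fun v => (X v : MvPolynomial (Fin n) ℚ)) J p) ∈ B := by
  classical
  set G := spl (Finset.univ.image J) p with hG
  have hsupp : ∀ m ∈ G.support, ∀ v, v ∉ Finset.univ.image J → m v = 0 := by
    intro m hm v hv
    by_contra hne
    have h1 : v ∈ G.vars := by
      rw [mem_vars_iff_mem_support]
      exact ⟨m, hm, Finsupp.mem_support_iff.mpr hne⟩
    have h2 : G ∈ (Algebra.adjoin (MvPolynomial (Fin n) ℚ) ((fun v => (X v :
        MvPolynomial (Fin n) (MvPolynomial (Fin n) ℚ))) '' (Finset.univ.image J : Finset (Fin n)))) := by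
      rw [hG, spl, aeval_def, eval₂_eq]
      refine Subalgebra.sum_mem _ fun m _ => Subalgebra.mul_mem _ ?_ (Subalgebra.prod_mem _
        fun i _ => Subalgebra.pow_mem _ ?_ _)
      · rw [IsScalarTower.algebraMap_apply ℚ (MvPolynomial (Fin n) ℚ)]
        exact Subalgebra.algebraMap_mem _ _
      · split_ifs with h
        · exact Algebra.subset_adjoin ⟨i, h, rfl⟩
        · exact Subalgebra.algebraMap_mem _ (X i)
    have h3 : G.vars ⊆ Finset.univ.image J := by
      have h4 : G ∈ supported (MvPolynomial (Fin n) ℚ) ((Finset.univ.image J : Finset (Fin n)) :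
          Set (Fin n)) := h2
      rw [mem_supported] at h4
      exact_mod_cast h4
    exact hv (h3 h1)
  have key : VF.shR (fun v => (X v : MvPolynomial (Fin n) ℚ)) J p ∈ coefSub B s := by
    rw [shR_eq_spl, eval₂_eq]
    refine Subalgebra.sum_mem _ fun m hm => Subalgebra.mul_mem _ (C_mem_coefSub (hB m))
      (Subalgebra.prod_mem _ fun v hv => Subalgebra.pow_mem _ ?_ _)
    have hvJ : v ∈ Finset.univ.image J := by
      by_contra h
      exact (Finsupp.mem_support_iff.mp hv) (hsupp m hm v h)
    obtain ⟨j, _, rfl⟩ := Finset.mem_image.mp hvJ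
    refine Subalgebra.add_mem _ (C_mem_coefSub (hX j)) (Subalgebra.sum_mem _ fun i _ => ?_)
    split_ifs
    · exact X_mem_coefSub i
    · exact Subalgebra.zero_mem _
  exact key m

/-- **MODULE B.** -/
theorem h2_formula (ρ : Fin n → ℕ) (hρ : Function.Injective ρ) (k r D : ℕ) (g : Fm)
    (hr : ∀ i, g.reads i ≤ r) (hD : g.size ≤ D)
    (g' : MvPolynomial (Fin n) ℚ) (hg' : rename ρ g' = g.poly) (s : ℕ) (hs : s ≤ k)
    (J : Fin s → Fin n) :
    ∃ A : Finset (MvPolynomial (Fin n) ℚ), A.card ≤ 2 ^ (k * r) + k ∧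
      (∀ a ∈ A, (∃ β : ℕ → ℕ, (∀ i, β i ≤ D) ∧
        rename ρ a = (g.subst (sg (Finset.univ.image fun j => ρ (J j)) β)).poly) ∨
        ∃ i, a = X i) ∧
      ∀ m, coeff m (VF.shR (fun v => (X v : MvPolynomial (Fin n) ℚ)) J g') ∈
        Algebra.adjoin ℚ (A : Set (MvPolynomial (Fin n) ℚ)) := by
  classical
  set V : Finset (Fin n) := Finset.univ.image J with hV
  set I : Finset ℕ := Finset.univ.image fun j => ρ (J j) with hI
  have hVI : ∀ v, ρ v ∈ I ↔ v ∈ V := by
    intro v
    rw [hI, hV, Finset.mem_image, Finset.mem_image]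
    constructor
    · rintro ⟨j, _, h⟩; exact ⟨j, Finset.mem_univ _, hρ h⟩
    · rintro ⟨j, _, h⟩; exact ⟨j, Finset.mem_univ _, by rw [h]⟩
  -- extension of `β`
  let ex : (Fin n → ℕ) → ℕ → ℕ := fun β i => if h : ∃ v, ρ v = i then β h.choose else 0
  have hex : ∀ β v, ex β (ρ v) = β v := by
    intro β v
    have h : ∃ u, ρ u = ρ v := ⟨v, rfl⟩
    simp only [ex]
    rw [dif_pos h, hρ h.choose_spec]
  have hins : ∀ β : Fin n → ℕ, rename ρ (ins V β g') = (g.subst (sg I (ex β))).poly := by
    intro β
    rw [subst_poly, ← hg']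
    have h : (rename ρ : MvPolynomial (Fin n) ℚ →ₐ[ℚ] _).comp (ins V β) =
        (aeval (fun i => if i ∈ I then (C (ex β i : ℚ) : MvPolynomial ℕ ℚ) else X i)).comp
          (rename ρ) := by
      apply MvPolynomial.algHom_ext
      intro v
      simp only [ins, AlgHom.comp_apply, aeval_X, rename_X]
      by_cases hv : v ∈ V
      · rw [if_pos hv, if_pos ((hVI v).mpr hv), rename_C, hex]
      · rw [if_neg hv, if_neg (fun h => hv ((hVI v).mp h)), rename_X]
    exact congrArg (fun f => f g') h
  -- the finite set of the instances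
  set T : Finset (MvPolynomial (Fin n) ℚ) := Finset.univ.image
    (fun β : Fin n → Fin (D + 1) => ins V (fun v => (β v : ℕ)) g') with hT
  obtain ⟨b, hb1, hb2, hb3⟩ := exists_linearIndependent ℚ (T : Set (MvPolynomial (Fin n) ℚ))
  have hbfin : b.Finite := T.finite_toSet.subset hb1
  set bF : Finset (MvPolynomial (Fin n) ℚ) := hbfin.toFinset with hbF
  have hcard : bF.card ≤ 2 ^ (k * r) := by
    obtain ⟨c0, L, hL, hrk⟩ := rank_bound I g
    have h1 : LinearIndependent ℚ (fun x : b => rename ρ (x : MvPolynomial (Fin n) ℚ)) := by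
      have h2 := hb3.map' (rename ρ : MvPolynomial (Fin n) ℚ →ₐ[ℚ] _).toLinearMap
        (LinearMap.ker_eq_bot.mpr (rename_injective ρ hρ))
      exact h2
    set w : Finset (MvPolynomial ℕ ℚ) := (c0 :: L.map Prod.snd).toFinset with hw
    have h3 : Set.range (fun x : b => rename ρ (x : MvPolynomial (Fin n) ℚ)) ⊆
        Submodule.span ℚ (w : Set (MvPolynomial ℕ ℚ)) := by
      rintro _ ⟨⟨x, hx⟩, rfl⟩
      obtain ⟨β, _, rfl⟩ := Finset.mem_image.mp (hb1 hx)
      simp only
      rw [hins, hrk]
      refine Submodule.add_mem _ (Submodule.subset_span (by simp [hw])) ?_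
      unfold tv
      apply list_sum_mem
      intro y hy
      obtain ⟨p, hp, rfl⟩ := List.mem_map.mp hy
      rw [← smul_eq_C_mul]
      refine Submodule.smul_mem _ _ (Submodule.subset_span ?_)
      rw [hw, Finset.mem_coe, List.mem_toFinset]
      exact List.mem_cons_of_mem _ (List.mem_map_of_mem hp)
    have h4 := linearIndependent_le_span' _ h1 (w : Set (MvPolynomial ℕ ℚ)) h3
    have h5 : (Cardinal.mk b) = (bF.card : Cardinal.{0}) := by
      rw [hbF, ← Cardinal.mk_coe_finset]
      congr 1
      simp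
    rw [h5] at h4
    have h6 : bF.card ≤ w.card := by
      have h7 : ((bF.card : ℕ) : Cardinal.{0}) ≤ ((w.card : ℕ) : Cardinal.{0}) := by
        simpa using h4
      exact_mod_cast h7
    refine h6.trans ((List.toFinset_card_le _).trans ?_)
    rw [List.length_cons, List.length_map]
    refine hL.trans (Nat.pow_le_pow_right (by norm_num) ?_)
    calc ∑ i ∈ I, g.reads i ≤ ∑ _i ∈ I, r := Finset.sum_le_sum fun i _ => hr i
      _ = I.card * r := by rw [Finset.sum_const, smul_eq_mul]
      _ ≤ k * r := Nat.mul_le_mul_right _ ((Finset.card_image_le.trans (by simp)).trans hs)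
  refine ⟨bF ∪ Finset.univ.image (fun j => (X (J j) : MvPolynomial (Fin n) ℚ)), ?_, ?_, ?_⟩
  · refine (Finset.card_union_le _ _).trans (Nat.add_le_add hcard ?_)
    exact (Finset.card_image_le.trans (by simp)).trans hs
  · intro a ha
    rcases Finset.mem_union.mp ha with ha | ha
    · left
      rw [hbF, Set.Finite.mem_toFinset] at ha
      obtain ⟨β, _, rfl⟩ := Finset.mem_image.mp (hb1 ha)
      refine ⟨ex fun v => (β v : ℕ), ?_, hins _⟩
      intro i
      simp only [ex]
      split_ifs with h
      · exact Nat.lt_succ_iff.mp (β _).2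
      · exact Nat.zero_le _
    · right
      obtain ⟨j, _, rfl⟩ := Finset.mem_image.mp ha
      exact ⟨_, rfl⟩
  · intro m
    refine coeff_shR_mem J g' _ ?_ ?_ m
    · intro m
      have h1 := coeff_spl_mem V D g' (by
        refine (totalDegree_le_rename ρ hρ g').trans ?_
        rw [hg']
        exact (Fm.totalDegree_poly g).trans hD) (Submodule.span ℚ (T : Set _)) (by
        intro β hβ
        apply Submodule.subset_span
        rw [hT, Finset.mem_coe, Finset.mem_image]
        exact ⟨fun v => ⟨β v, Nat.lt_succ_of_le (hβ v)⟩, Finset.mem_univ _, rfl⟩) m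
      rw [← hb2] at h1
      have h3 : Submodule.span ℚ b ≤ Subalgebra.toSubmodule
          (Algebra.adjoin ℚ (bF ∪ Finset.univ.image (fun j => (X (J j) :
            MvPolynomial (Fin n) ℚ)) : Set (MvPolynomial (Fin n) ℚ))) := by
        rw [Submodule.span_le]
        intro x hx
        exact Algebra.subset_adjoin (Or.inl (by
          rw [hbF, Finset.mem_coe, Set.Finite.mem_toFinset]; exact hx))
      have h4 := h3 h1
      rw [Finset.coe_union]
      exact h4
    · intro j
      apply Algebra.subset_adjoin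
      rw [Finset.coe_union]
      exact Or.inr (by
        rw [Finset.mem_coe, Finset.mem_image]
        exact ⟨j, Finset.mem_univ _, rfl⟩)

end

end Pool.Agent.Helper6.SP
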