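import Pool.Agent.Helper6.SP.LM
import Pool.Agent.Helper5.Gen
import Pool.Agent.Helper8.T2.H2

set_option autoImplicit false

/-!
The point found by the local search, plus the generator, hits the sum of products.
-/

namespace Pool.Agent.Helper6.SP

open MvPolynomial Pool.Agent.Helper6.WB

/-! ## The substitutions -/

theorem lk_aux (m : List (ℕ × ℕ)) (c v : ℕ) (s : Bool × ℕ) (h1 : ∀ p ∈ m, p.1 = c → p.2 = v) :
    ((∃ p ∈ m, p.1 = c) → m.foldl lkS (c, s) = (c, (true, v))) ∧
      ((¬ ∃ p ∈ m, p.1 = c) → m.foldl lkS (c, s) = (c, s)) := by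
  induction m generalizing s with
  | nil => simp
  | cons p m ih =>
    rw [List.foldl_cons]
    by_cases hp : p.1 = c
    · have e : lkS (c, s) p = (c, (true, v)) := by
        unfold lkS
        simp only [hp, decide_true, if_true]
        rw [h1 p List.mem_cons_self hp]
      rw [e]
      obtain ⟨h2, h3⟩ := ih (true, v) fun q hq => h1 q (List.mem_cons_of_mem _ hq)
      refine ⟨fun _ => ?_, fun h => absurd ⟨p, List.mem_cons_self, hp⟩ h⟩
      by_cases h : ∃ p ∈ m, p.1 = c
      · exact h2 h
      · exact h3 h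
    · have e : lkS (c, s) p = (c, s) := by
        unfold lkS
        simp [hp]
      rw [e]
      obtain ⟨h2, h3⟩ := ih s fun q hq => h1 q (List.mem_cons_of_mem _ hq)
      constructor
      · rintro ⟨q, hq, hqc⟩
        rcases List.mem_cons.mp hq with rfl | hq
        · exact absurd hqc hp
        · exact h2 ⟨q, hq, hqc⟩
      · intro h
        apply h3
        rintro ⟨q, hq, hqc⟩
        exact h ⟨q, List.mem_cons_of_mem _ hq, hqc⟩

theorem sgl_eq (S : Finset ℕ) (β : ℕ → ℕ) (j : ℕ) :
    sgl ((S.toList.map fun i => (i + 3, β i)) ++ List.replicate j (0, 0)) = sg S β := by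
  funext i
  set m : List (ℕ × ℕ) := (S.toList.map fun i => (i + 3, β i)) ++ List.replicate j (0, 0) with hm
  have h1 : ∀ p ∈ m, p.1 = i + 3 → p.2 = β i := by
    intro p hp hpi
    rw [hm, List.mem_append] at hp
    rcases hp with hp | hp
    · obtain ⟨l, hl, rfl⟩ := List.mem_map.mp hp
      simp only at hpi ⊢
      have : l = i := by omega
      rw [this]
    · have := List.eq_of_mem_replicate hp
      subst this
      simp at hpi
  obtain ⟨h2, h3⟩ := lk_aux m (i + 3) (β i) (false, 0) h1
  unfold sgl sg lk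
  by_cases hi : i ∈ S
  · rw [h2 ⟨(i + 3, β i), by
      rw [hm, List.mem_append, List.mem_map]
      exact Or.inl ⟨i, Finset.mem_toList.mpr hi, rfl⟩, rfl⟩]
    simp [hi]
  · rw [h3 (by
      rintro ⟨p, hp, hpi⟩
      rw [hm, List.mem_append] at hp
      rcases hp with hp | hp
      · obtain ⟨l, hl, rfl⟩ := List.mem_map.mp hp
        simp only at hpi
        have : l = i := by omega
        rw [Finset.mem_toList, this] at hl
        exact hi hl
      · have := List.eq_of_mem_replicate hp
        subst this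
        simp at hpi)]
    simp [hi]

theorem inst_mem {k : ℕ} {L : List (List Fm)} {g : Fm} (hg : g ∈ gF L) (S : Finset ℕ)
    (β : ℕ → ℕ) (hS : S.card ≤ k) (hS2 : ∀ i ∈ S, i + 3 ∈ names (cd L))
    (hβ : ∀ i, β i ≤ (toks (cd L)).length) : g.subst (sg S β) ∈ iF k L := by
  rw [mem_iF]
  refine ⟨g, hg, (S.toList.map fun i => (i + 3, β i)) ++ List.replicate (k - S.card) (0, 0),
    ?_, by rw [sgl_eq]⟩
  rw [mem_lpow]
  constructor
  · rw [List.length_append, List.length_map, List.length_replicate, Finset.length_toList]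
    omega
  · intro p hp
    rw [pairs1, mem_prsG]
    rw [List.mem_append] at hp
    rcases hp with hp | hp
    · obtain ⟨i, hi, rfl⟩ := List.mem_map.mp hp
      rw [Finset.mem_toList] at hi
      refine ⟨List.mem_cons_of_mem _ (hS2 i hi), ?_⟩
      rw [List.mem_range]
      exact Nat.lt_succ_of_le (hβ i)
    · have := List.eq_of_mem_replicate hp
      subst this
      exact ⟨List.mem_cons_self, by rw [List.mem_range]; exact Nat.succ_pos _⟩

theorem gF_sub_iF {k : ℕ} {L : List (List Fm)} {g : Fm} (hg : g ∈ gF L) : g ∈ iF k L := by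
  have h1 := inst_mem (k := k) hg ∅ (fun _ => 0) (Nat.zero_le _) (by simp)
    fun _ => Nat.zero_le _
  rwa [subst_of_disjoint ∅ _ g (fun i _ => Finset.notMem_empty i)] at h1

theorem vars_poly (F : Fm) : F.poly.vars ⊆ F.vars := by
  classical
  induction F with
  | const q => simp [Fm.poly]
  | var i => simp [Fm.poly, Fm.vars]
  | add F G ihF ihG =>
    exact (vars_add_subset _ _).trans (Finset.union_subset_union ihF ihG)
  | mul F G ihF ihG =>
    exact (vars_mul _ _).trans (Finset.union_subset_union ihF ihG)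

section

variable {k N κ r n : ℕ} {L : List (List Fm)} {γ : ℕ → ℚ}

/-- the number of the local parameters -/
def nT (r k : ℕ) : ℕ := (k + 1) * (2 ^ (k * r) + k)

theorem aeval_C_eq {σ : Type} (c : Fin n → ℚ) (P : MvPolynomial (Fin n) ℚ) :
    aeval (fun v => (C (c v) : MvPolynomial σ ℚ)) P = C (eval c P) := by
  have h : (aeval (fun v => (C (c v) : MvPolynomial σ ℚ)) :
      MvPolynomial (Fin n) ℚ →ₐ[ℚ] MvPolynomial σ ℚ) =
      ((C : ℚ →+* MvPolynomial σ ℚ).comp (eval c) : MvPolynomial (Fin n) ℚ →+* _) := by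
    apply VF.ringHom_ext_rat
    intro v
    simp
  exact congrArg (fun g => g P) h

theorem rename_det {M : ℕ} (ρ : Fin n → ℕ) (hρ : Function.Injective ρ)
    (a : Fin M → MvPolynomial (Fin n) ℚ) (F : Fin M → Fm)
    (h : ∀ i, rename ρ (a i) = (F i).poly) (J : Fin M → Fin n) :
    rename ρ (Matrix.of fun i j => pderiv (J j) (a i)).det =
      (Matrix.of fun i j => pderiv (ρ (J j)) (F i).poly).det := by
  rw [AlgHom.map_det]
  congr 1
  ext i j : 1
  simp only [AlgHom.mapMatrix_apply, Matrix.map_apply, Matrix.of_apply]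
  rw [← h i]
  exact (pderiv_rename hρ (J j) (a i)).symm

/-- **The hitting property.** -/
theorem hit (hr1 : 1 ≤ r) (hr : ∀ g ∈ L.flatten, ∀ i, g.reads i ≤ r)
    (hκ : kappa (r + 1) ≤ κ) (hκ2 : kN r (nT r k) ≤ κ) (hmax : IsLM (Ts k (nT r k) L) κ
      ((Ts k (nT r k) L).length * ((nT r k + 1) * ((toks (cd L)).length + 1)))
      {i | i + 3 ∈ names (cd L)} γ)
    (htr : ∀ b : Finset (Fin L.length), AlgebraicIndepOn ℚ
      (fun i => ((L.get i).map Fm.poly).prod) (b : Set (Fin L.length)) → b.card ≤ k)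
    (F : MvPolynomial ℕ ℚ)
    (hF : F ∈ Algebra.adjoin ℚ (Set.range fun i => ((L.get i).map Fm.poly).prod))
    (hne : F ≠ 0) (ρ : Fin n → ℕ) (hρ : Function.Injective ρ)
    (hρr : ∀ i, i + 3 ∈ names (cd L) ↔ ∃ j, ρ j = i) :
    ∃ (f : MvPolynomial (Fin n) ℚ) (s : Fin (nT r k + k) ⊕ Fin (nT r k + k) → ℚ),
      rename ρ f = F ∧
      eval (fun v => γ (ρ v) + Pool.Agent.Helper5.gen n (nT r k + k) s v) f ≠ 0 := by
  classical
  set π : MvPolynomial ℕ ℚ →ₐ[ℚ] MvPolynomial (Fin n) ℚ := killCompl hρ with hπ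
  have hρn : ∀ j, ρ j + 3 ∈ names (cd L) := fun j => (hρr _).mpr ⟨j, rfl⟩
  have hpull : ∀ g : Fm, (∀ i ∈ g.vars, i + 3 ∈ names (cd L)) →
      rename ρ (π g.poly) = g.poly := by
    intro g hg
    obtain ⟨q, hq⟩ := exists_rename_eq_of_vars_subset_range g.poly ρ hρ (by
      intro i hi
      obtain ⟨j, hj⟩ := (hρr i).mp (hg i (vars_poly g hi))
      exact ⟨j, hj⟩)
    rw [← hq, hπ, killCompl_rename_app]
  have hpullL : ∀ p ∈ L, rename ρ (π (p.map Fm.poly).prod) = (p.map Fm.poly).prod := by
    intro p hp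
    rw [map_list_prod, map_list_prod, List.map_map, List.map_map]
    congr 1
    apply List.map_congr_left
    intro g hg
    exact hpull g fun i hi => vars_flatten (List.mem_flatten.mpr ⟨p, hp, hg⟩) hi
  set T : Fin L.length → MvPolynomial (Fin n) ℚ := fun i => π ((L.get i).map Fm.poly).prod
    with hT
  have hrT : ∀ i, rename ρ (T i) = ((L.get i).map Fm.poly).prod := fun i =>
    hpullL _ (List.get_mem L i)
  have hf : rename ρ (π F) = F := by
    induction hF using Algebra.adjoin_induction with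
    | mem x hx =>
      obtain ⟨i, rfl⟩ := hx
      exact hrT i
    | algebraMap q => rw [AlgHom.commutes, AlgHom.commutes]
    | add x y _ _ ihx ihy =>
      rw [map_add, map_add]
      by_cases hx0 : x = 0
      · by_cases hy0 : y = 0
        · rw [hx0, hy0]; simp
        · rw [ihy hy0, hx0]; simp
      · by_cases hy0 : y = 0
        · rw [ihx hx0, hy0]; simp
        · rw [ihx hx0, ihy hy0]
    | mul x y _ _ ihx ihy =>
      rw [map_mul, map_mul]
      by_cases hx0 : x = 0
      · rw [hx0]; simp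
      · by_cases hy0 : y = 0
        · rw [hy0]; simp
        · rw [ihx hx0, ihy hy0]
  set Gs : Set (MvPolynomial (Fin n) ℚ) :=
    {g' | ∃ g ∈ L.flatten, rename ρ g' = g.poly} with hGs
  set As : Set (MvPolynomial (Fin n) ℚ) := {a | ∃ F ∈ iF k L, rename ρ a = F.poly} with hAs
  have h0As : (0 : MvPolynomial (Fin n) ℚ) ∈ As := by
    refine ⟨Fm.const 0, gF_sub_iF (mem_gF.mpr (Or.inl rfl)), ?_⟩
    simp [Fm.poly]
  have hPhi := VF.interface k (nT r k) (σ := PEmpty.{1})
    (fun v => (C (γ (ρ v)) : MvPolynomial PEmpty.{1} ℚ)) Gs As ?_ ?_ T ?_ ?_ (π F) ?_ ?_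
  · -- conclusion
    obtain ⟨w, hw⟩ : ∃ w, eval w (VF.Phi (fun v => (C (γ (ρ v)) : MvPolynomial PEmpty.{1} ℚ))
        (nT r k + k) (π F)) ≠ 0 := by
      by_contra hcon
      push Not at hcon
      apply hPhi
      apply MvPolynomial.funext
      intro w
      rw [hcon w, map_zero]
    rw [VF.eval_Phi] at hw
    simp only [eval_C] at hw
    exact ⟨π F, _, hf, hw⟩
  · -- H2
    intro g hg s hs J
    choose G hG1 hG2 using hg
    have hT1 : ∀ l, (G l).size ≤ (toks (cd L)).length := fun l =>
      (size_le_code _).trans (code_le_toks (hG1 l))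
    choose A hA1 hA2 hA3 using fun l => h2_formula ρ hρ k r (toks (cd L)).length (G l)
      (hr (G l) (hG1 l)) (hT1 l) (g l) (hG2 l) s hs J
    obtain ⟨a, ha1, ha2⟩ := Pool.Agent.Helper8.T2.exists_family (Finset.univ.biUnion A) (nT r k)
      (by
        refine Finset.card_biUnion_le.trans ?_
        refine (Finset.sum_le_sum fun l _ => hA1 l).trans ?_
        rw [Finset.sum_const, Finset.card_univ, Fintype.card_fin, smul_eq_mul]
        exact le_rfl)
    refine ⟨a, ?_, ?_⟩
    · intro i
      rcases ha1 i with h | h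
      · obtain ⟨l, _, hl⟩ := Finset.mem_biUnion.mp h
        rcases hA2 l _ hl with ⟨β, hβ, h1⟩ | ⟨j, hj⟩
        · refine ⟨_, inst_mem (mem_gF.mpr (Or.inr (Or.inl (hG1 l)))) _ β ?_ ?_ hβ, h1⟩
          · exact (Finset.card_image_le.trans (by simp)).trans hs
          · intro i hi
            obtain ⟨j, _, rfl⟩ := Finset.mem_image.mp hi
            exact hρn _
        · rw [hj]
          refine ⟨Fm.var (ρ j), gF_sub_iF (mem_gF.mpr (Or.inr (Or.inr ⟨_, hρn j, rfl⟩))), ?_⟩
          rw [rename_X]
          rfl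
      · rw [h]
        exact h0As
    · intro l m
      refine Algebra.adjoin_mono ?_ (hA3 l m)
      intro x hx
      apply ha2
      rw [Finset.mem_coe, Finset.mem_biUnion]
      exact ⟨l, Finset.mem_univ _, hx⟩
  · -- H1
    intro M hM a ha J hdet
    choose F hF1 hF2 using ha
    have h1 := rename_det ρ hρ a F hF2 J
    have h2 := det_iF hr1 hr hκ hκ2 hmax hM F hF1 (fun j => ρ (J j)) (fun j => hρn _) (by
      rw [← h1]
      intro h0
      exact hdet (rename_injective ρ hρ (by rw [h0, map_zero])))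
    rw [aeval_C_eq]
    intro h0
    apply h2
    rw [← h1, eval_rename]
    exact C_injective _ _ (by rw [map_zero]; exact h0)
  · -- products
    intro i
    rw [hT]
    simp only
    rw [map_list_prod, List.map_map]
    apply Submonoid.list_prod_mem
    intro x hx
    obtain ⟨g, hg, rfl⟩ := List.mem_map.mp hx
    apply Submonoid.subset_closure
    have hgL : g ∈ L.flatten := List.mem_flatten.mpr ⟨_, List.get_mem L i, hg⟩
    exact ⟨g, hgL, hpull g fun i hi => vars_flatten hgL hi⟩
  · -- transcendence degree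
    intro b hb
    apply htr b
    have h1 : AlgebraicIndependent ℚ (fun i : (b : Set (Fin L.length)) => T i) := hb
    have h2 := h1.map' (f := (rename ρ : MvPolynomial (Fin n) ℚ →ₐ[ℚ] MvPolynomial ℕ ℚ))
      (rename_injective ρ hρ)
    have h3 : (fun i : (b : Set (Fin L.length)) => ((L.get i).map Fm.poly).prod) =
        (rename ρ : MvPolynomial (Fin n) ℚ →ₐ[ℚ] MvPolynomial ℕ ℚ) ∘
          (fun i : (b : Set (Fin L.length)) => T i) := by
      funext i
      exact (hrT i).symm
    show AlgebraicIndependent ℚ (fun i : (b : Set (Fin L.length)) =>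
      ((L.get i).map Fm.poly).prod)
    rw [h3]
    exact h2
  · -- the composition is in the algebra
    have h1 : π F ∈ (Algebra.adjoin ℚ (Set.range fun i =>
        ((L.get i).map Fm.poly).prod)).map π := ⟨F, hF, rfl⟩
    rw [AlgHom.map_adjoin, ← Set.range_comp] at h1
    exact h1
  · -- it is not zero
    intro h0
    apply hne
    rw [← hf, h0, map_zero]

end

end Pool.Agent.Helper6.SP
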