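import Pool.Agent.Helper6.SP.Tests

set_option autoImplicit false

/-!
The point found by the local search.
-/

namespace Pool.Agent.Helper6.SP

open MvPolynomial Pool.Agent.Helper6.WB

theorem lookE_aux (L : En) (c : ℕ) (v acc : El) (h1 : ∀ p ∈ L, p.1 = c → p.2 = v)
    (h2 : acc = v ∨ ∃ p ∈ L, p.1 = c) :
    L.foldl (fun acc p => if p.1 = c then p.2 else acc) acc = v := by
  induction L generalizing acc with
  | nil =>
    rcases h2 with h2 | ⟨p, hp, -⟩
    · exact h2
    · simp at hp
  | cons p L ih =>
    rw [List.foldl_cons]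
    apply ih
    · exact fun q hq => h1 q (List.mem_cons_of_mem _ hq)
    · by_cases hp : p.1 = c
      · left
        rw [if_pos hp]
        exact h1 p List.mem_cons_self hp
      · rw [if_neg hp]
        rcases h2 with h2 | ⟨q, hq, hqc⟩
        · exact Or.inl h2
        · rcases List.mem_cons.mp hq with rfl | hq
          · exact absurd hqc hp
          · exact Or.inr ⟨q, hq, hqc⟩

theorem isLM_ptF (k N κ : ℕ) (L : List (List Fm)) :
    IsLM (Ts k N L) κ ((Ts k N L).length * ((N + 1) * ((toks (cd L)).length + 1)))
      {i | i + 3 ∈ names (cd L)} (ptE (ptF k N κ (cd L))) := by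
  classical
  intro x S hS hc hx hv
  set e := ptF k N κ (cd L) with he
  choose! v hvB hxv using hv
  set m : En := (S.toList.map fun i => (i + 3, (((v i, 0), 1) : El))) ++
    List.replicate (κ - S.card) ((0, ((0, 0), 1)) : ℕ × El) with hm
  have hmem : m ∈ mvE k N κ (cd L) := by
    unfold mvE
    rw [List.mem_map]
    refine ⟨(S.toList.map fun i => (i + 3, v i)) ++
      List.replicate (κ - S.card) ((0, 0) : ℕ × ℕ), ?_, ?_⟩
    · rw [mem_lpow]
      constructor
      · rw [List.length_append, List.length_map, List.length_replicate, Finset.length_toList]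
        omega
      · intro p hp
        rw [mem_prsG]
        rw [List.mem_append] at hp
        rcases hp with hp | hp
        · obtain ⟨i, hi, rfl⟩ := List.mem_map.mp hp
          rw [Finset.mem_toList] at hi
          refine ⟨List.mem_cons_of_mem _ (hS i hi), ?_⟩
          rw [mem_grid2, clkE_length]
          exact hvB i hi
        · have := List.eq_of_mem_replicate hp
          subst this
          exact ⟨List.mem_cons_self, by rw [mem_grid2]; exact Nat.zero_le _⟩
    · rw [hm, List.map_append, List.map_map, List.map_replicate]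
      rfl
  have hpt : ptE (e ++ m) = x := by
    funext i
    by_cases hi : i ∈ S
    · rw [hxv i hi]
      unfold ptE
      rw [lookE, List.foldl_append]
      rw [lookE_aux m (i + 3) ((v i, 0), 1)]
      · simp [toQ]
      · intro p hp hpi
        rw [hm, List.mem_append] at hp
        rcases hp with hp | hp
        · obtain ⟨j, hj, rfl⟩ := List.mem_map.mp hp
          simp only at hpi ⊢
          have : j = i := by omega
          rw [this]
        · have := List.eq_of_mem_replicate hp
          subst this
          simp at hpi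
      · right
        refine ⟨(i + 3, ((v i, 0), 1)), ?_, rfl⟩
        rw [hm, List.mem_append, List.mem_map]
        exact Or.inl ⟨i, Finset.mem_toList.mpr hi, rfl⟩
    · rw [hx i hi]
      unfold ptE
      rw [lookE, List.foldl_append]
      rw [lookE_aux m (i + 3) (lookE e (i + 3))]
      · intro p hp hpi
        rw [hm, List.mem_append] at hp
        rcases hp with hp | hp
        · obtain ⟨j, hj, rfl⟩ := List.mem_map.mp hp
          simp only at hpi
          have : j = i := by omega
          rw [Finset.mem_toList, this] at hj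
          exact absurd hj hi
        · have := List.eq_of_mem_replicate hp
          subst this
          simp at hpi
      · exact Or.inl rfl
  have h1 := fin1_max (P := potE k N) (MV := mvE k N κ) (clk := clkE k N) (cd L) (by
    intro e
    rw [potE_length, clkE_length]
    exact List.countP_le_length) m hmem
  have h2 : fin1 (potE k N) (mvE k N κ) (clkE k N) (cd L) = e := rfl
  rw [h2, potE_length, potE_length, hpt] at h1
  exact h1

section

variable {k N κ r : ℕ} {L : List (List Fm)} {γ : ℕ → ℚ}

/-- every subformula of an instance which vanishes at `γ` is identically zero -/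
theorem allOk_iF (hr1 : 1 ≤ r) (hr : ∀ g ∈ L.flatten, ∀ i, g.reads i ≤ r)
    (hκ : kappa (r + 1) ≤ κ) (hmax : IsLM (Ts k N L) κ
      ((Ts k N L).length * ((N + 1) * ((toks (cd L)).length + 1)))
      {i | i + 3 ∈ names (cd L)} γ) {F : Fm} (hF : F ∈ iF k L) : Fm.AllOk γ F := by
  have key : ∀ G : Fm, G ∈ F.subs → Fm.ProperOk γ G → G.ev γ = 0 → ∀ g, G.ev g = 0 := by
    intro G hG hp h0 g
    by_contra hne
    obtain ⟨x, S, hS, hc, hx, hev⟩ := fm_near G
      (fun i => (Fm.reads_sub hG i).trans (reads_iF hr1 hr hF i)) γ hp ⟨g, hne⟩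
    apply hev
    rw [← Fm.eval_poly] at h0 ⊢
    exact improveT (fun Q hQ => deg_Ts hQ) le_rfl hmax (mem_Ts_sub hF hG) h0
      (fun i hi => vars_iF hF (Fm.vars_sub hG (hS hi))) (hc.trans hκ) hx
  have all : ∀ G : Fm, G ∈ F.subs → Fm.AllOk γ G := by
    intro G
    induction G with
    | const q =>
      intro hG H hH
      simp only [Fm.subs, List.mem_singleton] at hH
      subst hH
      exact key _ hG trivial
    | var i =>
      intro hG H hH
      simp only [Fm.subs, List.mem_singleton] at hH
      subst hH
      exact key _ hG trivial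
    | add A B ihA ihB =>
      intro hG
      have hA := ihA (Fm.subs_trans hG (by simp [Fm.subs, Fm.self_mem_subs]))
      have hB := ihB (Fm.subs_trans hG (by simp [Fm.subs, Fm.self_mem_subs]))
      intro H hH
      simp only [Fm.subs, List.mem_append, List.mem_singleton] at hH
      rcases hH with (hH | hH) | hH
      · exact hA H hH
      · exact hB H hH
      · subst hH
        exact key _ hG ⟨hA, hB⟩
    | mul A B ihA ihB =>
      intro hG
      have hA := ihA (Fm.subs_trans hG (by simp [Fm.subs, Fm.self_mem_subs]))
      have hB := ihB (Fm.subs_trans hG (by simp [Fm.subs, Fm.self_mem_subs]))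
      intro H hH
      simp only [Fm.subs, List.mem_append, List.mem_singleton] at hH
      rcases hH with (hH | hH) | hH
      · exact hA H hH
      · exact hB H hH
      · subst hH
        exact key _ hG ⟨hA, hB⟩
  exact all F F.self_mem_subs

theorem dP_ofFn {M : ℕ} (a : Fin M → Fm) (v : Fin M → ℕ) :
    dP M (List.ofFn a) (List.ofFn fun j => v j + 3) =
      (Matrix.of fun i j => pderiv (v j) (a i).poly).det := by
  rw [dP]
  congr 1
  ext i j : 1
  simp only [Matrix.of_apply]
  rw [List.getD_eq_getElem _ _ (by rw [List.length_ofFn]; exact j.2), List.getElem_ofFn,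
    List.getD_eq_getElem _ _ (by rw [List.length_ofFn]; exact i.2), List.getElem_ofFn]
  rfl

/-- the minors of the Jacobian matrices of few instances which vanish at `γ` are zero -/
theorem det_iF (hr1 : 1 ≤ r) (hr : ∀ g ∈ L.flatten, ∀ i, g.reads i ≤ r)
    (hκ : kappa (r + 1) ≤ κ) (hκ2 : kN r N ≤ κ) (hmax : IsLM (Ts k N L) κ
      ((Ts k N L).length * ((N + 1) * ((toks (cd L)).length + 1)))
      {i | i + 3 ∈ names (cd L)} γ) {M : ℕ} (hM : M ≤ N) (a : Fin M → Fm)
    (ha : ∀ i, a i ∈ iF k L) (v : Fin M → ℕ) (hv : ∀ j, v j + 3 ∈ names (cd L))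
    (hdet : (Matrix.of fun i j => pderiv (v j) (a i).poly).det ≠ 0) :
    eval γ (Matrix.of fun i j => pderiv (v j) (a i).poly).det ≠ 0 := by
  rcases Nat.eq_zero_or_pos M with hM0 | hM0
  · subst hM0
    rw [Matrix.det_fin_zero, map_one]
    exact one_ne_zero
  intro h0
  obtain ⟨x, S, hS, hc, hx, hev⟩ := near_det hM a v γ (fun i j => reads_iF hr1 hr (ha i) j)
    (fun i => allOk_iF hr1 hr hκ hmax (ha i)) hdet
  apply hev
  have h1 : dP M (List.ofFn a) (List.ofFn fun j => v j + 3) ∈ Ts k N L := by
    apply mem_Ts_det hM0 hM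
    · rw [mem_lpow]
      refine ⟨List.length_ofFn, ?_⟩
      intro p hp
      obtain ⟨i, rfl⟩ := List.mem_ofFn.mp hp
      exact ha i
    · rw [mem_lpow]
      refine ⟨List.length_ofFn, ?_⟩
      intro p hp
      obtain ⟨i, rfl⟩ := List.mem_ofFn.mp hp
      exact hv i
  rw [dP_ofFn] at h1
  refine improveT (fun Q hQ => deg_Ts hQ) le_rfl hmax h1 h0 (fun i hi => ?_) (hc.trans hκ2) hx
  obtain ⟨j, _, hj⟩ := Finset.mem_biUnion.mp (hS hi)
  exact vars_iF (ha j) hj

end

end Pool.Agent.Helper6.SP
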