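import Pool.Agent.Helper6.SP.Deriv
import Pool.Agent.Helper6.SP.Defs

/-!
Jacobian minors of boundedly many read-`r` formulas: near points.
-/

namespace Pool.Agent.Helper6.SP

open Module Matrix Pool.Agent.Helper8 Pool.Agent.Helper8.Tree Pool.Agent.Helper6.WB

theorem pderiv_congr (v : ℕ) {g g' : ℕ → ℚ} (F : Fm) (h : ∀ i ∈ F.vars, g i = g' i) :
    MvPolynomial.eval g (MvPolynomial.pderiv v F.poly) =
      MvPolynomial.eval g' (MvPolynomial.pderiv v F.poly) := by
  induction F with
  | const q => simp [Fm.poly]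
  | var i =>
    by_cases hi : i = v
    · subst hi; simp [Fm.poly]
    · simp [Fm.poly, MvPolynomial.pderiv_X_of_ne hi]
  | add F G ihF ihG =>
    simp only [Fm.poly, map_add]
    rw [ihF fun i hi => h i (by simp [Fm.vars, hi]), ihG fun i hi => h i (by simp [Fm.vars, hi])]
  | mul F G ihF ihG =>
    have hF : F.ev g = F.ev g' := Fm.ev_congr fun i hi => h i (by simp [Fm.vars, hi])
    have hG : G.ev g = G.ev g' := Fm.ev_congr fun i hi => h i (by simp [Fm.vars, hi])
    simp only [Fm.poly, (MvPolynomial.pderiv v).leibniz, map_add, smul_eq_mul, map_mul]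
    rw [ihF fun i hi => h i (by simp [Fm.vars, hi]), ihG fun i hi => h i (by simp [Fm.vars, hi]),
      Fm.eval_poly, Fm.eval_poly, Fm.eval_poly, Fm.eval_poly, hF, hG]

/-- the majorant of the numbers of letters -/
def bb (r : ℕ) (q : ℕ) : ℕ := max q ((bnd (r + 1)).2 ((bnd (r + 1)).1 q))

/-- number of passes for the minors of order `M` -/
def tM (r M : ℕ) : ℕ := M.factorial * (M * ((r + 1) * (2 ^ (r + 1) + 2 ^ (r + 1))))

/-- number of coordinates for the minors of order `M` -/
def kM (r M : ℕ) : ℕ := ((((bb r)^[r + 1])^[M])^[M.factorial]) (q0 2 (tM r M))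

theorem near_det_aux (r M : ℕ) (a : Fin M → Fm) (v : Fin M → ℕ) (γ : ℕ → ℚ)
    (hr : ∀ i j, (a i).reads j ≤ r) (hok : ∀ i, Fm.AllOk γ (a i))
    (hdet : (Matrix.of fun i j => MvPolynomial.pderiv (v j) (a i).poly).det ≠ 0) :
    ∃ (x : ℕ → ℚ) (S : Finset ℕ), S ⊆ Finset.univ.biUnion (fun i => (a i).vars) ∧
      S.card ≤ kM r M ∧ (∀ i, i ∉ S → x i = γ i) ∧
      MvPolynomial.eval x (Matrix.of fun i j => MvPolynomial.pderiv (v j) (a i).poly).det ≠ 0 := by
  classical
  set U : Finset ℕ := Finset.univ.biUnion (fun i => (a i).vars) with hU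
  set m := (U ∪ Finset.univ.image v).sup id + 1 with hm
  have hlt : ∀ i ∈ U ∪ Finset.univ.image v, i < m := by
    intro i hi
    have := Finset.le_sup (f := id) hi
    simp only [id] at this
    omega
  have hvm : ∀ i, ∀ j ∈ (a i).vars, j < m := fun i j hj =>
    hlt j (Finset.mem_union_left _ (Finset.mem_biUnion.mpr ⟨i, Finset.mem_univ _, hj⟩))
  have hvv : ∀ j, v j < m := fun j =>
    hlt _ (Finset.mem_union_right _ (Finset.mem_image_of_mem v (Finset.mem_univ j)))
  set n' := m + 0 + ∑ i, (a i).size with hn'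
  have hsz : ∀ i, m + 0 + (a i).size ≤ n' := by
    intro i
    have := Finset.single_le_sum (f := fun i => (a i).size) (fun i _ => Nat.zero_le _)
      (Finset.mem_univ i)
    omega
  choose T h1 h2 h3 h4 h5 using fun i => exists_isProg (n := n') (a i) 0 (hvm i) (hsz i)
  have hcnt : ∀ i j, (T i).cnt j ≤ r + 1 := by
    intro i j
    by_cases hj : j.val < m
    · exact (h3 i j hj).trans ((hr i _).trans (Nat.le_succ r))
    · refine (h4 i j (by omega)).trans ?_
      split_ifs <;> omega
  have hgood : ∀ i, AllGood (fun j : Fin n' => γ j) (T i) := fun i =>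
    allGood_of_ok (h1 i) (h5 i γ (hok i).proper)
  have hmn : m ≤ n' := by omega
  -- the polynomials
  have hval : Function.Injective (Fin.val : Fin n' → ℕ) := Fin.val_injective
  have hpoly : ∀ i, MvPolynomial.rename Fin.val ((T i).poly 1) = (a i).poly := by
    intro i
    apply MvPolynomial.funext
    intro g
    rw [MvPolynomial.eval_rename, Prog.eval_poly, h2, Fm.eval_poly]
    apply Fm.ev_congr
    intro j hj
    have := hvm i j hj
    unfold WB.ext
    rw [dif_pos (show j < n' by omega)]
    rfl
  let v' : Fin M → Fin n' := fun j => ⟨v j, by have := hvv j; omega⟩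
  set P' : MvPolynomial (Fin n') ℚ :=
    (Matrix.of fun i j => MvPolynomial.pderiv (v' j) ((T i).poly 1)).det with hP'
  have hren : MvPolynomial.rename Fin.val P' =
      (Matrix.of fun i j => MvPolynomial.pderiv (v j) (a i).poly).det := by
    rw [hP', AlgHom.map_det]
    congr 1
    ext i j : 1
    simp only [AlgHom.mapMatrix_apply, Matrix.map_apply, Matrix.of_apply]
    rw [← hpoly i]
    exact (MvPolynomial.pderiv_rename hval (v' j) ((T i).poly 1)).symm
  have hP0 : P' ≠ 0 := by
    intro h0
    apply hdet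
    rw [← hren, h0, map_zero]
  rcases Nat.eq_zero_or_pos M with hM | hM
  · subst hM
    refine ⟨γ, ∅, Finset.empty_subset _, Nat.zero_le _, fun _ _ => rfl, ?_⟩
    rw [Matrix.det_fin_zero, map_one]
    exact one_ne_zero
  obtain ⟨big, hbig⟩ := exists_big (T ⟨0, hM⟩) (List.ofFn T)
  choose Cb hCb using fun i => hbig (T i) (List.mem_ofFn.mpr ⟨i, rfl⟩)
  have : Inhabited (Frame ℚ 2 n') := ⟨(0, big)⟩
  have hev : ∀ g : Fin n' → ℚ, MvPolynomial.eval g P' = (Matrix.of fun i j =>
      MvPolynomial.eval g (MvPolynomial.pderiv (v' j) ((T i).poly 1))).det := by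
    intro g
    rw [hP', RingHom.map_det]
    rfl
  obtain ⟨x', S', hS', hx', hne⟩ := crit_gen (w := 2) big (fun j : Fin n' => γ j) (R := 1)
    (by norm_num) (fun g => Matrix.of fun _ _ => MvPolynomial.eval g P') P'
    (fun g => by rw [Matrix.det_fin_one]; rfl) ((((bb r)^[r + 1])^[M])^[M.factorial]) (tM r M)
    (by
      intro y S htr
      have hRS : RS 2 n' (fun j : Fin n' => γ j) y S ((((bb r)^[r + 1])^[M])^[M.factorial])
          (tM r M) (fun g => (Matrix.of fun i j =>
            MvPolynomial.eval g (MvPolynomial.pderiv (v' j) ((T i).poly 1))).det) := by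
        apply RS.det
        intro i j
        exact RS.deriv htr (hCb i) (hgood i) (hcnt i) (v' j) 1 (fun q => le_max_left _ _)
          (fun q => le_max_right _ _)
      exact hRS.congr hev)
    (by
      by_contra hcon
      push Not at hcon
      apply hP0
      apply MvPolynomial.funext
      intro x
      have := hcon x
      rw [Matrix.det_fin_one] at this
      rw [map_zero]
      exact this)
  rw [Matrix.det_fin_one] at hne
  have hne' : MvPolynomial.eval x' P' ≠ 0 := hne
  have hxe : x' = (WB.ext x') ∘ Fin.val := by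
    funext i
    simp only [Function.comp, WB.ext]
    rw [dif_pos i.2]
  have hdetx : ∀ x : ℕ → ℚ, (∀ i ∈ U, x i = WB.ext x' i) →
      MvPolynomial.eval x (Matrix.of fun i j => MvPolynomial.pderiv (v j) (a i).poly).det =
        MvPolynomial.eval x' P' := by
    intro x hx
    rw [hxe, ← MvPolynomial.eval_rename, hren, RingHom.map_det, RingHom.map_det]
    congr 1
    ext i j
    simp only [RingHom.mapMatrix_apply, Matrix.map_apply, Matrix.of_apply]
    apply pderiv_congr
    intro l hl
    exact hx l (Finset.mem_biUnion.mpr ⟨i, Finset.mem_univ _, hl⟩)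
  refine ⟨fun i => if i ∈ U then WB.ext x' i else γ i,
    U.filter (fun i => WB.ext x' i ≠ γ i), Finset.filter_subset _ _, ?_, ?_, ?_⟩
  · have hUn : ∀ i ∈ U, i < n' := fun i hi => by
      have := hlt i (Finset.mem_union_left _ hi)
      omega
    have hpos : 0 < n' := by omega
    have : NeZero n' := ⟨by omega⟩
    refine (Finset.card_le_card_of_injOn (fun i => (Fin.ofNat n' i)) (t := S') ?_ ?_).trans hS'
    · intro i hi
      rw [Finset.mem_coe, Finset.mem_filter] at hi
      have hin := hUn i hi.1
      rw [Finset.mem_coe]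
      by_contra hcon
      apply hi.2
      have h6 := hx' _ hcon
      unfold WB.ext
      rw [dif_pos hin]
      have e2 : (Fin.ofNat n' i) = ⟨i, hin⟩ := by
        apply Fin.ext
        simp only [Fin.ofNat]
        exact Nat.mod_eq_of_lt hin
      simp only [e2] at h6
      exact h6
    · intro i hi j hj hij
      rw [Finset.mem_coe, Finset.mem_filter] at hi hj
      have h6 := hUn i hi.1
      have h7 := hUn j hj.1
      have h8 := congrArg Fin.val hij
      simp only [Fin.ofNat] at h8
      rwa [Nat.mod_eq_of_lt h6, Nat.mod_eq_of_lt h7] at h8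
  · intro i hi
    by_cases h6 : i ∈ U
    · simp only [h6, if_true]
      by_contra hcon
      exact hi (by rw [Finset.mem_filter]; exact ⟨h6, hcon⟩)
    · simp only [h6, if_false]
  · rw [hdetx _ (fun i hi => by simp only [hi, if_true])]
    exact hne'

/-- the number of coordinates -/
def kN (r N : ℕ) : ℕ := (Finset.range (N + 1)).sup (kM r)

/-- **MODULE A.** -/
theorem near_det {r N M : ℕ} (hM : M ≤ N) (a : Fin M → Fm) (v : Fin M → ℕ) (γ : ℕ → ℚ)
    (hr : ∀ i j, (a i).reads j ≤ r) (hok : ∀ i, Fm.AllOk γ (a i))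
    (hdet : (Matrix.of fun i j => MvPolynomial.pderiv (v j) (a i).poly).det ≠ 0) :
    ∃ (x : ℕ → ℚ) (S : Finset ℕ), S ⊆ Finset.univ.biUnion (fun i => (a i).vars) ∧
      S.card ≤ kN r N ∧ (∀ i, i ∉ S → x i = γ i) ∧
      MvPolynomial.eval x (Matrix.of fun i j => MvPolynomial.pderiv (v j) (a i).poly).det ≠ 0 := by
  obtain ⟨x, S, h1, h2, h3, h4⟩ := near_det_aux r M a v γ hr hok hdet
  refine ⟨x, S, h1, h2.trans ?_, h3, h4⟩
  exact Finset.le_sup (f := kM r) (Finset.mem_range.mpr (by omega))

end Pool.Agent.Helper6.SP
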