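import Pool.Agent.Helper6.SP.Search
import Pool.Agent.Helper6.SP.H2
import Pool.Agent.Helper6.SP.NearDet

set_option autoImplicit false

/-!
Local maxima of the number of nonvanishing tests.
-/

namespace Pool.Agent.Helper6.SP

open MvPolynomial Pool.Agent.Helper6.WB

/-! ## Improvement -/

/-- the polynomial in the variables of `S`, the others having the values `γ` -/
noncomputable def partQ (S : Finset ℕ) (γ : ℕ → ℚ) :
    MvPolynomial ℕ ℚ →ₐ[ℚ] MvPolynomial S ℚ :=
  aeval fun i => if h : i ∈ S then X ⟨i, h⟩ else C (γ i)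

theorem eval_partQ (S : Finset ℕ) (γ : ℕ → ℚ) (y : S → ℚ) (Q : MvPolynomial ℕ ℚ) :
    eval y (partQ S γ Q) = eval (mix S γ y) Q := by
  have h : (eval y).comp (partQ S γ : MvPolynomial ℕ ℚ →+* MvPolynomial S ℚ) =
      eval (mix S γ y) := by
    apply VF.ringHom_ext_rat
    intro v
    simp only [partQ, RingHom.comp_apply, RingHom.coe_coe, aeval_X, eval_X, mix]
    split_ifs with h
    · simp
    · simp
  exact congrArg (fun g => g Q) h

theorem totalDegree_partQ (S : Finset ℕ) (γ : ℕ → ℚ) (Q : MvPolynomial ℕ ℚ) :
    (partQ S γ Q).totalDegree ≤ Q.totalDegree := by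
  apply totalDegree_aeval_le
  intro i
  split_ifs
  · exact (totalDegree_X _).le
  · rw [totalDegree_C]; exact Nat.zero_le _

/-- the number of the tests which do not vanish at a point -/
noncomputable def ptl (γ : ℕ → ℚ) (Ts : List (MvPolynomial ℕ ℚ)) : ℕ :=
  Ts.countP fun Q => decide (eval γ Q ≠ 0)

/-- `γ` maximises the number of nonvanishing tests among the points obtained by changing few
coordinates -/
def IsLM (Ts : List (MvPolynomial ℕ ℚ)) (κ B : ℕ) (V : Set ℕ) (γ : ℕ → ℚ) : Prop :=
  ∀ (x : ℕ → ℚ) (S : Finset ℕ), (∀ i ∈ S, i ∈ V) → S.card ≤ κ → (∀ i, i ∉ S → x i = γ i) →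
    (∀ i ∈ S, ∃ v : ℕ, v ≤ B ∧ x i = v) → ptl x Ts ≤ ptl γ Ts

theorem improveT {Ts : List (MvPolynomial ℕ ℚ)} {κ B d : ℕ} {V : Set ℕ} {γ : ℕ → ℚ}
    (hd : ∀ Q ∈ Ts, Q.totalDegree ≤ d) (hB : Ts.length * d ≤ B) (hmax : IsLM Ts κ B V γ)
    {Q : MvPolynomial ℕ ℚ} (hQ : Q ∈ Ts) (h0 : eval γ Q = 0) {x : ℕ → ℚ} {S : Finset ℕ}
    (hS : ∀ i ∈ S, i ∈ V) (hc : S.card ≤ κ) (hx : ∀ i, i ∉ S → x i = γ i) :
    eval x Q = 0 := by
  classical
  by_contra hne
  set L := Ts.filter fun H => decide (eval γ H ≠ 0) with hL
  set P : MvPolynomial S ℚ := partQ S γ Q * (L.map (partQ S γ)).prod with hP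
  have hmixγ : mix S γ (fun i => γ i) = γ := by
    funext i
    unfold mix
    split_ifs <;> rfl
  have hmixx : mix S γ (fun i => x i) = x := by
    funext i
    unfold mix
    split_ifs with h
    · rfl
    · exact (hx i h).symm
  have hP0 : P ≠ 0 := by
    rw [hP]
    apply mul_ne_zero
    · intro h
      apply hne
      rw [← hmixx, ← eval_partQ, h, map_zero]
    · apply List.prod_ne_zero
      intro h
      rw [List.mem_map] at h
      obtain ⟨H, hH, h⟩ := h
      rw [hL, List.mem_filter] at hH
      have h1 : eval γ H ≠ 0 := by simpa using hH.2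
      apply h1
      rw [← hmixγ, ← eval_partQ, h, map_zero]
  have hdeg : P.totalDegree ≤ B := by
    have h1 : ∀ l : List (MvPolynomial ℕ ℚ), (∀ H ∈ l, H.totalDegree ≤ d) →
        ((l.map (partQ S γ)).prod).totalDegree ≤ l.length * d := by
      intro l
      induction l with
      | nil => intro _; simp
      | cons H l ih =>
        intro h
        rw [List.map_cons, List.prod_cons, List.length_cons]
        refine (totalDegree_mul _ _).trans ?_
        have h2 := ih fun H hH => h H (List.mem_cons_of_mem _ hH)
        have h3 := (totalDegree_partQ S γ H).trans (h H List.mem_cons_self)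
        calc _ ≤ d + l.length * d := Nat.add_le_add h3 h2
          _ = _ := by ring
    refine le_trans ?_ hB
    rw [hP]
    refine (totalDegree_mul _ _).trans ?_
    have h2 := h1 L (fun H hH => by
      rw [hL, List.mem_filter] at hH
      exact hd H hH.1)
    have h3 := (totalDegree_partQ S γ Q).trans (hd Q hQ)
    have h4 : L.length < Ts.length := by
      rw [hL, List.length_filter_lt_length_iff_exists]
      exact ⟨Q, hQ, by simpa using h0⟩
    calc _ ≤ d + L.length * d := Nat.add_le_add h3 h2
      _ = (L.length + 1) * d := by ring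
      _ ≤ Ts.length * d := Nat.mul_le_mul_right _ h4
  obtain ⟨y, hy, hPy⟩ : ∃ y : S → ℚ, (∀ i, ∃ v : ℕ, v ≤ B ∧ y i = v) ∧
      eval y P ≠ 0 := by
    by_contra hcon
    push Not at hcon
    apply hP0
    apply MvPolynomial.eq_zero_of_eval_zero_at_prod_finset P
      (fun _ => (Finset.range (B + 1)).map ⟨fun v : ℕ => (v : ℚ), Nat.cast_injective⟩)
    · intro i
      rw [Finset.card_map, Finset.card_range]
      exact Nat.lt_succ_of_le ((MvPolynomial.degreeOf_le_totalDegree P i).trans hdeg)
    · intro y hy
      apply hcon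
      intro i
      have := hy i
      rw [Finset.mem_map] at this
      obtain ⟨v, hv, hv'⟩ := this
      exact ⟨v, by rw [Finset.mem_range] at hv; omega, hv'.symm⟩
  have h1 := hmax (mix S γ y) S hS hc (fun i hi => by unfold mix; rw [dif_neg hi])
    (fun i hi => by
      unfold mix
      rw [dif_pos hi]
      exact hy _)
  rw [hP, map_mul, eval_partQ, map_list_prod, List.map_map] at hPy
  have h2 : eval (mix S γ y) Q ≠ 0 := left_ne_zero_of_mul hPy
  have h3 := right_ne_zero_of_mul hPy
  have h4 : ptl γ Ts < ptl (mix S γ y) Ts := by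
    unfold ptl
    apply countP_lt (a := Q) ?_ hQ h2 (by simpa using h0)
    intro H hH h5 h6
    apply h3
    apply List.prod_eq_zero
    rw [List.mem_map]
    refine ⟨H, ?_, ?_⟩
    · rw [hL, List.mem_filter]
      exact ⟨hH, by simpa using h5⟩
    · simp only [Function.comp]
      rw [eval_partQ, h6]
  omega

/-! ## Substitutions -/

theorem one_le_reads {F : Fm} {i : ℕ} (h : i ∈ F.vars) : 1 ≤ F.reads i := by
  induction F with
  | const q => simp [Fm.vars] at h
  | var j =>
    have : i = j := by simpa [Fm.vars] using h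
    simp [Fm.reads, this]
  | add F G ihF ihG =>
    simp only [Fm.vars, Finset.mem_union] at h
    simp only [Fm.reads]
    split_ifs
    · exact le_rfl
    · rcases h with h | h
      · have := ihF h; omega
      · have := ihG h; omega
  | mul F G ihF ihG =>
    simp only [Fm.vars, Finset.mem_union] at h
    simp only [Fm.reads]
    split_ifs
    · exact le_rfl
    · rcases h with h | h
      · have := ihF h; omega
      · have := ihG h; omega

theorem reads_eq_zero {F : Fm} {i : ℕ} (h : i ∉ F.vars) : F.reads i = 0 := by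
  induction F with
  | const q => rfl
  | var j =>
    have : ¬ i = j := by simpa [Fm.vars] using h
    simp only [Fm.reads]
    rw [if_neg (fun e => this e.symm)]
  | add F G ihF ihG =>
    simp only [Fm.vars, Finset.mem_union, not_or] at h
    simp only [Fm.reads]
    rw [if_neg, ihF h.1, ihG h.2]
    intro e
    have : i ∈ F.vars ∪ G.vars := by rw [e]; exact Finset.mem_singleton_self i
    rcases Finset.mem_union.mp this with h' | h'
    · exact h.1 h'
    · exact h.2 h'
  | mul F G ihF ihG =>
    simp only [Fm.vars, Finset.mem_union, not_or] at h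
    simp only [Fm.reads]
    rw [if_neg, ihF h.1, ihG h.2]
    intro e
    have : i ∈ F.vars ∪ G.vars := by rw [e]; exact Finset.mem_singleton_self i
    rcases Finset.mem_union.mp this with h' | h'
    · exact h.1 h'
    · exact h.2 h'

theorem vars_subst (σ : ℕ → Option ℚ) (F : Fm) : (F.subst σ).vars ⊆ F.vars := by
  induction F with
  | const q => exact le_rfl
  | var i =>
    simp only [Fm.subst]
    cases σ i with
    | none => exact le_rfl
    | some q => exact Finset.empty_subset _
  | add F G ihF ihG => exact Finset.union_subset_union ihF ihG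
  | mul F G ihF ihG => exact Finset.union_subset_union ihF ihG

theorem reads_subst (σ : ℕ → Option ℚ) (F : Fm) (i : ℕ) : (F.subst σ).reads i ≤ F.reads i := by
  induction F with
  | const q => exact le_rfl
  | var j =>
    simp only [Fm.subst]
    cases σ j with
    | none => exact le_rfl
    | some q => exact Nat.zero_le _
  | add F G ihF ihG =>
    by_cases h1 : i ∈ ((F.add G).subst σ).vars
    · by_cases h2 : (F.add G).vars = {i}
      · have h3 : ((F.add G).subst σ).vars ⊆ {i} := h2 ▸ vars_subst σ (F.add G)
        exact (Fm.reads_of_vars_subset h3).trans (one_le_reads (vars_subst σ _ h1))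
      · by_cases h3 : ((F.add G).subst σ).vars = {i}
        · rw [reads_of_vars_eq h3]
          exact one_le_reads (vars_subst σ _ h1)
        · simp only [Fm.subst, Fm.reads]
          simp only [Fm.subst, Fm.vars] at h3 h2
          rw [if_neg h3, if_neg h2]
          exact Nat.add_le_add ihF ihG
    · rw [reads_eq_zero h1]
      exact Nat.zero_le _
  | mul F G ihF ihG =>
    by_cases h1 : i ∈ ((F.mul G).subst σ).vars
    · by_cases h2 : (F.mul G).vars = {i}
      · have h3 : ((F.mul G).subst σ).vars ⊆ {i} := h2 ▸ vars_subst σ (F.mul G)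
        exact (Fm.reads_of_vars_subset h3).trans (one_le_reads (vars_subst σ _ h1))
      · by_cases h3 : ((F.mul G).subst σ).vars = {i}
        · rw [reads_of_vars_eq h3]
          exact one_le_reads (vars_subst σ _ h1)
        · simp only [Fm.subst, Fm.reads]
          simp only [Fm.subst, Fm.vars] at h3 h2
          rw [if_neg h3, if_neg h2]
          exact Nat.add_le_add ihF ihG
    · rw [reads_eq_zero h1]
      exact Nat.zero_le _

theorem code_subst_length (σ : ℕ → Option ℚ) (F : Fm) :
    (F.subst σ).code.length = F.code.length := by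
  induction F with
  | const q => rfl
  | var j =>
    simp only [Fm.subst]
    cases σ j <;> rfl
  | add F G ihF ihG => simp [Fm.subst, Fm.code, ihF, ihG]
  | mul F G ihF ihG => simp [Fm.subst, Fm.code, ihF, ihG]

end Pool.Agent.Helper6.SP
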