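import Pool.Agent.Helper8.Tree.Main

/-!
Closure properties of representable functions.
-/

namespace Pool.Agent.Helper6.SP

open Module Matrix Pool.Agent.Helper8 Pool.Agent.Helper8.Tree

variable {K : Type*} [Field K] {w n : ℕ}

section Rep

variable {γ y : Fin n → K} {S : Finset (Fin n)} {s : ℕ → Fin n} {m p : ℕ} {B : Finset ℕ}

theorem Pol.add {t D D' : ℕ} {m n : ℕ}
    {F G : (ℕ → Matrix (Fin w) (Fin w) K) → Matrix (Fin m) (Fin n) K} (hF : Pol t D F)
    (hG : Pol t D' G) : Pol t (D + D') (fun C => F C + G C) := by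
  intro i j
  have h1 := Aff_pow_mono t (Nat.le_add_right D D') (hF i j)
  have h2 := Aff_pow_mono t (Nat.le_add_left D' D) (hG i j)
  exact Submodule.add_mem _ h1 h2

theorem Rep.add {t1 t2 : ℕ} {F1 F2 : (ℕ → Prop) → Matrix (Fin m) (Fin p) K}
    (h1 : Rep w n γ y S s B t1 F1) (h2 : Rep w n γ y S s B t2 F2) :
    Rep w n γ y S s B (t1 + t2) (fun σ => F1 σ + F2 σ) := by
  obtain ⟨s1, hs1, Cf1, a1, b1, dir1, x1, hp1, G1, hG1, hF1⟩ := h1
  obtain ⟨s2, hs2, Cf2, a2, b2, dir2, x2, hp2, G2, hG2, hF2⟩ := h2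
  refine ⟨s1 + s2, by omega, fun c => if c < s1 then Cf1 c else Cf2 (c - s1),
    fun c => if c < s1 then a1 c else a2 (c - s1), fun c => if c < s1 then b1 c else b2 (c - s1),
    fun c => if c < s1 then dir1 c else dir2 (c - s1),
    fun c => if c < s1 then x1 c else x2 (c - s1), ?_,
    fun C => G1 (fun c => if c < s1 then C c else 1) +
      G2 (fun c => if c < s2 then C (s1 + c) else 1), ?_, ?_⟩
  · intro c hc
    by_cases h : c < s1
    · simp only [h, if_true]
      exact hp1 c h
    · simp only [h, if_false]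
      exact hp2 (c - s1) (by omega)
  · apply Pol.add
    · apply Pol.comp hG1
      intro c hc
      simp only [hc, if_true]
      exact Pol.coord' (by omega)
    · apply Pol.comp hG2
      intro c hc
      simp only [hc, if_true]
      exact Pol.coord' (by omega)
  · intro σ hσ
    simp only [hF1 σ hσ, hF2 σ hσ]
    congr 2
    · funext c
      by_cases h : c < s1
      · have h' : c < s1 + s2 := by omega
        simp only [tup, h, h', if_true]
      · simp only [tup, h, if_false]
    · funext c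
      by_cases h : c < s2
      · have h' : s1 + c < s1 + s2 := by omega
        have h'' : ¬ s1 + c < s1 := by omega
        simp only [tup, h, h', h'', if_true, if_false, Nat.add_sub_cancel_left]
      · simp only [tup, h, if_false]

end Rep

section RA

variable {γ y : Fin n → K} {S : Finset (Fin n)} {m p : ℕ}

theorem RA.add {β1 β2 : ℕ → ℕ} {t1 t2 : ℕ} {X Y : (Fin n → K) → Matrix (Fin m) (Fin p) K}
    (hX : RA w n γ y S β1 t1 X) (hY : RA w n γ y S β2 t2 Y) :
    RA w n γ y S (fun q => β1 (β2 q)) (t1 + t2) (fun g => X g + Y g) := by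
  intro s q A hA hinj
  obtain ⟨B, hB, hBc, hR⟩ := hX s (β2 q) A hA hinj
  obtain ⟨B', hB', hBc', hR'⟩ := hY s q B hBc (fun i hi j hj => hinj i (hB hi) j (hB hj))
  exact ⟨B', hB'.trans hB, hBc', Rep.add (hR.mono hB' le_rfl) hR'⟩

theorem RA.bmono {β β' : ℕ → ℕ} {t : ℕ} (hβ : ∀ q, β q ≤ β' q)
    {X : (Fin n → K) → Matrix (Fin m) (Fin p) K} (hX : RA w n γ y S β t X) :
    RA w n γ y S β' t X :=
  fun s q A hA hinj => hX s q A ((hβ q).trans hA) hinj

/-- representable scalar functions -/
def RS (w n : ℕ) {K : Type*} [Field K] (γ y : Fin n → K) (S : Finset (Fin n)) (β : ℕ → ℕ) (t : ℕ)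
    (f : (Fin n → K) → K) : Prop :=
  RA w n γ y S β t (fun g => (Matrix.of fun _ _ => f g : Matrix (Fin 1) (Fin 1) K))

theorem RS.add {β1 β2 : ℕ → ℕ} {t1 t2 : ℕ} {f g : (Fin n → K) → K}
    (hf : RS w n γ y S β1 t1 f) (hg : RS w n γ y S β2 t2 g) :
    RS w n γ y S (fun q => β1 (β2 q)) (t1 + t2) (fun x => f x + g x) :=
  (RA.add hf hg).congr fun x => by ext i j; simp

theorem RS.mul {β1 β2 : ℕ → ℕ} {t1 t2 : ℕ} {f g : (Fin n → K) → K}
    (hf : RS w n γ y S β1 t1 f) (hg : RS w n γ y S β2 t2 g) :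
    RS w n γ y S (fun q => β1 (β2 q)) (t1 + t2) (fun x => f x * g x) :=
  (RA.mul hf hg).congr fun x => by ext i j; simp [Matrix.mul_apply]

theorem RS.const [Inhabited (Frame K w n)] (c : K) :
    RS w n γ y S (fun q => q) 0 (fun _ => c) := RA.const _

theorem RS.smul {β : ℕ → ℕ} {t : ℕ} {f : (Fin n → K) → K} (c : K) (hf : RS w n γ y S β t f) :
    RS w n γ y S β t (fun x => c * f x) :=
  (RA.linear hf (c • LinearMap.id)).congr fun x => by ext i j; simp

theorem RS.mono {β β' : ℕ → ℕ} {t t' : ℕ} (hβ : ∀ q, β q ≤ β' q) (ht : t ≤ t')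
    {f : (Fin n → K) → K} (hf : RS w n γ y S β t f) : RS w n γ y S β' t' f :=
  RA.bmono hβ (Tree.RA.mono ht hf)

theorem RS.congr {β : ℕ → ℕ} {t : ℕ} {f f' : (Fin n → K) → K} (hf : RS w n γ y S β t f)
    (h : ∀ x, f' x = f x) : RS w n γ y S β t f' :=
  Tree.RA.congr hf fun x => by ext i j; simp [h]

theorem RS.sum [Inhabited (Frame K w n)] {ι : Type*} {β : ℕ → ℕ} {t : ℕ}
    {f : ι → (Fin n → K) → K} (s : Finset ι) (hf : ∀ i ∈ s, RS w n γ y S β t (f i)) :
    RS w n γ y S (β^[s.card]) (s.card * t) (fun x => ∑ i ∈ s, f i x) := by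
  classical
  induction s using Finset.induction_on with
  | empty =>
    refine RS.mono (fun q => le_rfl) (Nat.zero_le _) ((RS.const 0).congr fun x => by simp)
  | insert i s hi ih =>
    have h1 := (hf i (Finset.mem_insert_self i s)).add
      (ih fun j hj => hf j (Finset.mem_insert_of_mem hj))
    rw [Finset.card_insert_of_notMem hi, Function.iterate_succ']
    refine RS.mono (fun q => le_rfl) ?_ (h1.congr fun x => by rw [Finset.sum_insert hi])
    rw [Nat.succ_mul]
    omega

theorem RS.prod [Inhabited (Frame K w n)] {ι : Type*} {β : ℕ → ℕ} {t : ℕ}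
    {f : ι → (Fin n → K) → K} (s : Finset ι) (hf : ∀ i ∈ s, RS w n γ y S β t (f i)) :
    RS w n γ y S (β^[s.card]) (s.card * t) (fun x => ∏ i ∈ s, f i x) := by
  classical
  induction s using Finset.induction_on with
  | empty =>
    refine RS.mono (fun q => le_rfl) (Nat.zero_le _) ((RS.const 1).congr fun x => by simp)
  | insert i s hi ih =>
    have h1 := (hf i (Finset.mem_insert_self i s)).mul
      (ih fun j hj => hf j (Finset.mem_insert_of_mem hj))
    rw [Finset.card_insert_of_notMem hi, Function.iterate_succ']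
    refine RS.mono (fun q => le_rfl) ?_ (h1.congr fun x => by rw [Finset.prod_insert hi])
    rw [Nat.succ_mul]
    omega

theorem RS.sumList [Inhabited (Frame K w n)] {ι : Type*} {β : ℕ → ℕ} {t : ℕ}
    {f : ι → (Fin n → K) → K} (s : List ι) (hf : ∀ i ∈ s, RS w n γ y S β t (f i)) :
    RS w n γ y S (β^[s.length]) (s.length * t) (fun x => (s.map fun i => f i x).sum) := by
  induction s with
  | nil =>
    refine RS.mono (fun q => le_rfl) (Nat.zero_le _) ((RS.const 0).congr fun x => by simp)
  | cons i s ih =>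
    have h1 := (hf i List.mem_cons_self).add (ih fun j hj => hf j (List.mem_cons_of_mem _ hj))
    rw [List.length_cons, Function.iterate_succ']
    refine RS.mono (fun q => le_rfl) ?_ (h1.congr fun x => by simp)
    rw [Nat.succ_mul]
    omega

theorem iter_le {β : ℕ → ℕ} (hβ : ∀ q, q ≤ β q) {a b : ℕ} (h : a ≤ b) (q : ℕ) :
    β^[a] q ≤ β^[b] q := by
  induction h with
  | refl => exact le_rfl
  | step h ih => rw [Function.iterate_succ_apply']; exact ih.trans (hβ _)

theorem RS.det [Inhabited (Frame K w n)] {M : ℕ} {β : ℕ → ℕ} {t : ℕ}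
    {f : Fin M → Fin M → (Fin n → K) → K} (hf : ∀ i j, RS w n γ y S β t (f i j)) :
    RS w n γ y S ((β^[M])^[M.factorial]) (M.factorial * (M * t))
      (fun x => (Matrix.of fun i j => f i j x).det) := by
  have h1 : ∀ σ : Equiv.Perm (Fin M), RS w n γ y S (β^[M]) (M * t)
      (fun x => ((Equiv.Perm.sign σ : ℤ) : K) * ∏ i, f (σ i) i x) := by
    intro σ
    apply RS.smul
    have := RS.prod (Finset.univ : Finset (Fin M)) (f := fun i => f (σ i) i)
      (fun i _ => hf (σ i) i)
    rwa [Finset.card_univ, Fintype.card_fin] at this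
  have h2 := RS.sum (Finset.univ : Finset (Equiv.Perm (Fin M))) (fun σ _ => h1 σ)
  rw [Finset.card_univ, Fintype.card_perm, Fintype.card_fin] at h2
  exact h2.congr fun x => by rw [Matrix.det_apply']; rfl

end RA

end Pool.Agent.Helper6.SP
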