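import Pool.Agent.Helper6.SP.Climb
import Pool.Agent.Helper6.SP.Defs

set_option autoImplicit false

/-!
The instances of the formulas, the tests, the potential.
-/

namespace Pool.Agent.Helper6.SP

open Turing Function N487b59b3 N68a2faeb Pool.Agent.Helper22 Computability Pool.Agent.Helper6.WB

/-- codes of formulas -/
abbrev Wd := List (ℕ × ℚ)

/-- the input: a sum of products of formulas -/
abbrev Inp := List (List Wd)

section

variable {α β γ δ : Type} [N487b59b3 α] [N487b59b3 β] [N487b59b3 γ] [N487b59b3 δ]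

/-- all tokens -/
def toks (L : Inp) : Wd := L.flatten.flatten

theorem fp_toks : FP toks := fp_flatten (fp_flatten FP.id)

/-- insertion of the code of a variable in the list of names -/
def ddS (acc : List ℕ) (c : ℕ) : List ℕ :=
  if decide (c = 0) || (decide (c = 1) || (decide (c = 2) || acc.any fun x => decide (c = x)))
  then acc else acc ++ [c]

/-- the codes of the variables which occur -/
def names (L : Inp) : List ℕ := ((toks L).map Prod.fst).foldl ddS []

theorem ddS_size (l acc : List ℕ) : sz (l.foldl ddS acc) ≤ sz acc + sz l := by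
  induction l generalizing acc with
  | nil => simp
  | cons c l ih =>
    rw [List.foldl_cons]
    refine (ih _).trans ?_
    unfold ddS
    rw [sz_cons]
    split_ifs
    · omega
    · rw [sz_append, sz_cons, sz_nil]
      omega

theorem fp_names : FP names := by
  have h1 : FP fun p : List ℕ × ℕ => ddS p.1 p.2 := by
    unfold ddS
    have h3 : FP fun q : (List ℕ × ℕ) × ℕ => decide (q.1.2 = q.2) := by fun_prop
    have h2 : FP fun p : List ℕ × ℕ => p.1.any fun x => (fun q : (List ℕ × ℕ) × ℕ =>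
        decide (q.1.2 = q.2)) (p, x) := fp_any FP.fst h3
    have e0 : FP fun p : List ℕ × ℕ => decide (p.2 = 0) := FP.natEq FP.snd (FP.const 0)
    have e1 : FP fun p : List ℕ × ℕ => decide (p.2 = 1) := FP.natEq FP.snd (FP.const 1)
    have e2 : FP fun p : List ℕ × ℕ => decide (p.2 = 2) := FP.natEq FP.snd (FP.const 2)
    exact FP.ite (FP.or e0 (FP.or e1 (FP.or e2 h2))) FP.fst
      (FP.append FP.fst (FP.cons FP.snd (FP.const [])))
  have h2 : FP fun p : List ℕ × List ℕ => p.1.foldl ddS p.2 := by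
    refine FP.foldl (g := ddS) h1 (B := fun n => n) (by fun_prop) ?_
    intro l a
    have := ddS_size l a
    omega
  exact h2.comp ((FP.map FP.fst fp_toks).pair (FP.const ([] : List ℕ)))

theorem ddS_spec (l acc : List ℕ) (h1 : acc.Nodup) (h2 : ∀ c ∈ acc, 3 ≤ c) :
    (l.foldl ddS acc).Nodup ∧ (∀ c ∈ l.foldl ddS acc, 3 ≤ c) ∧
      ∀ c, c ∈ l.foldl ddS acc ↔ c ∈ acc ∨ (3 ≤ c ∧ c ∈ l) := by
  induction l generalizing acc with
  | nil => exact ⟨h1, h2, by simp⟩
  | cons b l ih =>
    rw [List.foldl_cons]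
    by_cases hb : b = 0 ∨ b = 1 ∨ b = 2 ∨ b ∈ acc
    · have e : ddS acc b = acc := by
        unfold ddS
        rw [if_pos]
        simp only [Bool.or_eq_true, decide_eq_true_eq, List.any_eq_true]
        rcases hb with hb | hb | hb | hb
        · exact Or.inl hb
        · exact Or.inr (Or.inl hb)
        · exact Or.inr (Or.inr (Or.inl hb))
        · exact Or.inr (Or.inr (Or.inr ⟨b, hb, rfl⟩))
      rw [e]
      obtain ⟨a1, a2, a3⟩ := ih acc h1 h2
      refine ⟨a1, a2, fun c => ?_⟩
      rw [a3]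
      constructor
      · rintro (h | ⟨h, h'⟩)
        · exact Or.inl h
        · exact Or.inr ⟨h, List.mem_cons_of_mem _ h'⟩
      · rintro (h | ⟨h, h'⟩)
        · exact Or.inl h
        · rcases List.mem_cons.mp h' with rfl | h'
          · rcases hb with hb | hb | hb | hb
            · omega
            · omega
            · omega
            · exact Or.inl hb
          · exact Or.inr ⟨h, h'⟩
    · push Not at hb
      have e : ddS acc b = acc ++ [b] := by
        unfold ddS
        rw [if_neg]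
        simp only [Bool.or_eq_true, decide_eq_true_eq, List.any_eq_true, not_or]
        refine ⟨hb.1, hb.2.1, hb.2.2.1, ?_⟩
        rintro ⟨x, hx, rfl⟩
        exact hb.2.2.2 hx
      rw [e]
      have hb3 : 3 ≤ b := by
        have := hb.1
        have := hb.2.1
        have := hb.2.2.1
        omega
      obtain ⟨a1, a2, a3⟩ := ih (acc ++ [b]) (by
        rw [List.nodup_append]
        refine ⟨h1, List.nodup_singleton b, ?_⟩
        intro x hx y hy
        rw [List.mem_singleton] at hy
        rintro rfl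
        rw [hy] at hx
        exact hb.2.2.2 hx) (by
        intro c hc
        rcases List.mem_append.mp hc with hc | hc
        · exact h2 c hc
        · rw [List.mem_singleton] at hc; rw [hc]; exact hb3)
      refine ⟨a1, a2, fun c => ?_⟩
      rw [a3, List.mem_append, List.mem_singleton, List.mem_cons]
      constructor
      · rintro ((h | rfl) | ⟨h, h'⟩)
        · exact Or.inl h
        · exact Or.inr ⟨hb3, Or.inl rfl⟩
        · exact Or.inr ⟨h, Or.inr h'⟩
      · rintro (h | ⟨h, (rfl | h')⟩)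
        · exact Or.inl (Or.inl h)
        · exact Or.inl (Or.inr rfl)
        · exact Or.inr ⟨h, h'⟩

theorem names_nodup (L : Inp) : (names L).Nodup :=
  (ddS_spec _ [] List.nodup_nil (by simp)).1

theorem mem_names {L : Inp} {c : ℕ} : c ∈ names L ↔ 3 ≤ c ∧ c ∈ (toks L).map Prod.fst := by
  have h := (ddS_spec ((toks L).map Prod.fst) [] List.nodup_nil (by simp)).2.2 c
  rw [names, h]
  simp

/-- the formulas to be instantiated: `0`, the given ones, and the variables -/
def gs (L : Inp) : List Wd := [(0, 0)] :: (L.flatten ++ (names L).map fun c => [(c, 0)])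

theorem fp_gs : FP gs := by
  have h1 : FP fun L : Inp => (names L).map fun c => (fun q : Inp × ℕ => [(q.2, (0 : ℚ))]) (L, c) :=
    fp_map fp_names (FP.cons (FP.snd.pair (FP.const 0)) (FP.const []))
  exact FP.cons (FP.const _) (FP.append (fp_flatten FP.id) h1)

/-- lookup with a flag -/
def lkS (s : ℕ × (Bool × ℕ)) (p : ℕ × ℕ) : ℕ × (Bool × ℕ) :=
  if decide (p.1 = s.1) then (s.1, (true, p.2)) else s

/-- lookup with a flag -/
def lk (m : List (ℕ × ℕ)) (c : ℕ) : Bool × ℕ := (m.foldl lkS (c, (false, 0))).2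

theorem lkS_size (m : List (ℕ × ℕ)) (s : ℕ × (Bool × ℕ)) :
    sz (m.foldl lkS s) ≤ 2 * sz s + 2 + sz m := by
  have key : ∀ s : ℕ × (Bool × ℕ), (m.foldl lkS s).1 = s.1 ∧
      sz (m.foldl lkS s).2.2 ≤ sz s.2.2 + sz m := by
    induction m with
    | nil => simp
    | cons p m ih =>
      intro s
      obtain ⟨h1, h2⟩ := ih (lkS s p)
      rw [List.foldl_cons]
      obtain ⟨a, b⟩ := p
      obtain ⟨c, f, v⟩ := s
      unfold lkS at h1 h2 ⊢
      split_ifs at h1 h2 ⊢
      · refine ⟨h1, h2.trans ?_⟩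
        simp only [sz_cons, sz_pair]
        omega
      · refine ⟨h1, h2.trans ?_⟩
        simp only [sz_cons, sz_pair]
        omega
  obtain ⟨h1, h2⟩ := key s
  obtain ⟨c, f, v⟩ := s
  rcases hq : m.foldl lkS (c, f, v) with ⟨c', f', v'⟩
  rw [hq] at h1 h2
  simp only at h1 h2
  subst h1
  simp only [sz_pair, sz_bool]
  omega

theorem fp_lk {f : α → List (ℕ × ℕ)} {g : α → ℕ} (hf : FP f) (hg : FP g) :
    FP fun a => lk (f a) (g a) := by
  have h1 : FP fun p : List (ℕ × ℕ) × (ℕ × (Bool × ℕ)) => p.1.foldl lkS p.2 := by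
    refine FP.foldl (g := lkS) ?_ (B := fun n => 2 * n + 2) (by fun_prop) ?_
    · unfold lkS
      exact FP.ite (by fun_prop) (FP.pair (by fun_prop) (FP.pair (FP.const true) (by fun_prop)))
        (by fun_prop)
    · intro l a
      have := lkS_size l a
      omega
  exact FP.snd' (h1.comp (hf.pair (hg.pair (FP.const (false, 0)))))

/-- rational number of a natural number -/
theorem fp_natQ {f : α → ℕ} (hf : FP f) : FP fun a => (f a : ℚ) := by
  have h1 : FP fun a => ((f a, 0), 1) := FP.pair (FP.pair hf (FP.const 0)) (FP.const 1)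
  refine WB.FP.recode h1 fun a => ?_
  have h2 : bitEncode ((f a : ℚ)) = bitEncode ((((f a : ℚ)).num.toNat, (-((f a : ℚ)).num).toNat),
    ((f a : ℚ)).den) := rfl
  rw [h2, Rat.num_natCast, Rat.den_natCast, Int.toNat_natCast]
  have h3 : (-(f a : ℤ)).toNat = 0 := by omega
  rw [h3]

/-- substitution in a token -/
def subTok (p : List (ℕ × ℕ) × (ℕ × ℚ)) : ℕ × ℚ :=
  if decide (p.2.1 = 0) || (decide (p.2.1 = 1) || decide (p.2.1 = 2)) then p.2
  else if (lk p.1 p.2.1).1 then (0, ((lk p.1 p.2.1).2 : ℚ)) else p.2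

theorem fp_subTok : FP subTok := by
  unfold subTok
  have e0 : FP fun p : List (ℕ × ℕ) × (ℕ × ℚ) => decide (p.2.1 = 0) :=
    FP.natEq (by fun_prop) (FP.const 0)
  have e1 : FP fun p : List (ℕ × ℕ) × (ℕ × ℚ) => decide (p.2.1 = 1) :=
    FP.natEq (by fun_prop) (FP.const 1)
  have e2 : FP fun p : List (ℕ × ℕ) × (ℕ × ℚ) => decide (p.2.1 = 2) :=
    FP.natEq (by fun_prop) (FP.const 2)
  have h1 : FP fun p : List (ℕ × ℕ) × (ℕ × ℚ) => lk p.1 p.2.1 := fp_lk (by fun_prop) (by fun_prop)
  exact FP.ite (FP.or e0 (FP.or e1 e2)) FP.snd (FP.ite h1.fst'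
    (FP.pair (FP.const 0) (fp_natQ h1.snd')) FP.snd)

/-- the substitution of a list of pairs -/
def sgl (m : List (ℕ × ℕ)) : ℕ → Option ℚ :=
  fun i => if (lk m (i + 3)).1 then some ((lk m (i + 3)).2 : ℚ) else none

theorem subTok_code (m : List (ℕ × ℕ)) (F : Fm) :
    (F.code.map fun t => subTok (m, t)) = (F.subst (sgl m)).code := by
  induction F with
  | const q => simp [Fm.code, Fm.subst, subTok]
  | var i =>
    by_cases h : (lk m (i + 3)).1 = true
    · simp [Fm.code, Fm.subst, subTok, sgl, h]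
    · simp [Fm.code, Fm.subst, subTok, sgl, h]
  | add F G ihF ihG =>
    simp only [Fm.code, Fm.subst, List.map_append, ihF, ihG]
    simp [subTok]
  | mul F G ihF ihG =>
    simp only [Fm.code, Fm.subst, List.map_append, ihF, ihG]
    simp [subTok]

/-- all pairs -/
def prsG (p : List ℕ × List ℕ) : List (ℕ × ℕ) := p.1.flatMap fun c => p.2.map fun v => (c, v)

theorem mem_prsG {p : List ℕ × List ℕ} {q : ℕ × ℕ} : q ∈ prsG p ↔ q.1 ∈ p.1 ∧ q.2 ∈ p.2 := by
  obtain ⟨c, v⟩ := q
  simp only [prsG, List.mem_flatMap, List.mem_map]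
  constructor
  · rintro ⟨c', h1, v', h2, h3⟩
    obtain ⟨rfl, rfl⟩ := Prod.mk.inj h3
    exact ⟨h1, h2⟩
  · rintro ⟨h1, h2⟩
    exact ⟨c, h1, v, h2, rfl⟩

theorem fp_prsG : FP prsG := by
  have h4 : FP fun q : ((List ℕ × List ℕ) × ℕ) × ℕ => ((q.1.2, q.2) : ℕ × ℕ) := by fun_prop
  have h5 : FP fun p : (List ℕ × List ℕ) × ℕ => p.1.2.map fun v =>
      (fun q : ((List ℕ × List ℕ) × ℕ) × ℕ => ((q.1.2, q.2) : ℕ × ℕ)) (p, v) :=
    fp_map (FP.snd.comp FP.fst) h4
  have h6 : FP fun p : List ℕ × List ℕ => p.1.flatMap fun c =>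
      (fun q : (List ℕ × List ℕ) × ℕ => q.1.2.map fun v => ((q.2, v) : ℕ × ℕ)) (p, c) :=
    fp_flatMap FP.fst h5
  exact h6

/-- the pairs used in the instances -/
def pairs1 (L : Inp) : List (ℕ × ℕ) := prsG (0 :: names L, List.range ((toks L).length + 1))

theorem fp_pairs1 : FP pairs1 := by
  have h1 : FP fun L : Inp => List.range ((0, (0 : ℚ)) :: toks L).length :=
    FP.range (FP.cons (FP.const _) fp_toks)
  have h2 : FP fun L : Inp => (0 :: names L) := FP.cons (FP.const 0) fp_names
  exact fp_prsG.comp (h2.pair h1)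

/-- the instances of the formulas -/
def insts (k : ℕ) (L : Inp) : List Wd :=
  (gs L).flatMap fun g => (lpow (pairs1 L) k).map fun m => g.map fun t => subTok (m, t)

theorem fp_insts (k : ℕ) : FP (insts k) := by
  have h1 : FP fun p : (Inp × Wd) × List (ℕ × ℕ) => p.1.2.map fun t =>
      (fun q : ((Inp × Wd) × List (ℕ × ℕ)) × (ℕ × ℚ) => subTok (q.1.2, q.2)) (p, t) :=
    fp_map (by fun_prop) (fp_subTok.comp (f := fun q : ((Inp × Wd) × List (ℕ × ℕ)) × (ℕ × ℚ) =>
      (q.1.2, q.2)) (by fun_prop))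
  have h2 : FP fun p : Inp × Wd => (lpow (pairs1 p.1) k).map fun m =>
      (fun q : (Inp × Wd) × List (ℕ × ℕ) => q.1.2.map fun t => subTok (q.2, t)) (p, m) :=
    fp_map (fp_lpow (fp_pairs1.comp FP.fst) k) h1
  exact fp_flatMap fp_gs h2

/-- the first part of the potential -/
def potA (k : ℕ) (p : Inp × En) : List Bool := (insts k p.1).flatMap fun w => (drun w p.2 0).2

theorem fp_potA (k : ℕ) : FP (potA k) := by
  have h1 : FP fun q : (Inp × En) × Wd => (drun q.2 q.1.2 0).2 :=
    FP.snd' (fp_drun (by fun_prop) (by fun_prop) (FP.const 0))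
  exact fp_flatMap ((fp_insts k).comp FP.fst) h1

/-- the minors -/
def detT (M : ℕ) (e : En) (ι : List Wd) (V : List ℕ) : ℚ :=
  (Matrix.of fun i j : Fin M => topD (ι.getD i []) e (V.getD j 0)).det

theorem fq_detT (M : ℕ) {f : α → En} {g : α → List Wd} {h : α → List ℕ} (hf : FP f) (hg : FP g)
    (hh : FP h) : FQ fun a => detT M (f a) (g a) (h a) :=
  FQ.det (f := fun i j a => topD ((g a).getD i []) (f a) ((h a).getD j 0)) fun i j =>
    fq_topD (fp_getD hg i []) hf (fp_getD hh j 0)

/-- the second part of the potential -/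
def potB (k M : ℕ) (p : Inp × En) : List Bool :=
  (lpow (insts k p.1) M).flatMap fun ι => (lpow (names p.1) M).flatMap fun V =>
    if decide (detT M p.2 ι V = 0) then [] else [true]

theorem fp_potB (k M : ℕ) : FP (potB k M) := by
  have h1 : FP fun q : ((Inp × En) × List Wd) × List ℕ => decide (detT M q.1.1.2 q.1.2 q.2 = 0) :=
    (fq_detT M (by fun_prop) (by fun_prop) (by fun_prop)).eqZero
  have h2 : FP fun q : ((Inp × En) × List Wd) × List ℕ =>
      if decide (detT M q.1.1.2 q.1.2 q.2 = 0) then [] else [true] :=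
    FP.ite h1 (FP.const _) (FP.const _)
  have h3 : FP fun p : (Inp × En) × List Wd => (lpow (names p.1.1) M).flatMap fun V =>
      (fun q : ((Inp × En) × List Wd) × List ℕ =>
        if decide (detT M q.1.1.2 q.1.2 q.2 = 0) then [] else [true]) (p, V) :=
    fp_flatMap (fp_lpow (fp_names.comp (by fun_prop)) M) h2
  exact fp_flatMap (fp_lpow ((fp_insts k).comp FP.fst) M) h3

/-- the potential -/
def potE (k : ℕ) : ℕ → Inp × En → List Bool
  | 0, p => potA k p
  | N + 1, p => potE k N p ++ potB k (N + 1) p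

theorem fp_potE (k N : ℕ) : FP (potE k N) := by
  induction N with
  | zero => exact fp_potA k
  | succ N ih => exact FP.append ih (fp_potB k (N + 1))

/-- a list as long as the list of the tests -/
def clkE (k : ℕ) : ℕ → Inp → List Bool
  | 0, L => (insts k L).flatMap fun w => w.map fun _ => true
  | N + 1, L => clkE k N L ++ (lpow (insts k L) (N + 1)).flatMap fun _ =>
      (lpow (names L) (N + 1)).map fun _ => true

theorem fp_clkE (k N : ℕ) : FP (clkE k N) := by
  induction N with
  | zero =>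
    have h1 : FP fun q : Inp × Wd => q.2.map fun t => (fun _ : (Inp × Wd) × (ℕ × ℚ) => true) (q, t) :=
      fp_map FP.snd (FP.const true)
    exact fp_flatMap (fp_insts k) h1
  | succ N ih =>
    have h1 : FP fun q : Inp × List Wd => (lpow (names q.1) (N + 1)).map fun V =>
        (fun _ : (Inp × List Wd) × List ℕ => true) (q, V) :=
      fp_map (fp_lpow (fp_names.comp FP.fst) (N + 1)) (FP.const true)
    have h2 : FP fun L : Inp => (lpow (insts k L) (N + 1)).flatMap fun ι =>
        (fun q : Inp × List Wd => (lpow (names q.1) (N + 1)).map fun _ => true) (L, ι) :=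
      fp_flatMap (fp_lpow (fp_insts k) (N + 1)) h1
    exact FP.append ih h2

/-- the values for the local search -/
def grid2 (k N : ℕ) (L : Inp) : List ℕ :=
  List.range (true :: un ((clkE k N L).length * (un ((un (N + 1)).length *
    (true :: (toks L).map fun _ => true).length)).length)).length

theorem fp_grid2 (k N : ℕ) : FP (grid2 k N) := by
  have h1 : FP fun L : Inp => true :: (toks L).map fun t =>
      (fun _ : Inp × (ℕ × ℚ) => true) (L, t) :=
    FP.cons (FP.const true) (fp_map fp_toks (FP.const true))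
  exact FP.range (FP.cons (FP.const true) (FP.unMul (fp_clkE k N) (FP.unMul (FP.const _) h1)))

theorem mem_grid2 {k N : ℕ} {L : Inp} {v : ℕ} : v ∈ grid2 k N L ↔
    v ≤ (clkE k N L).length * ((N + 1) * ((toks L).length + 1)) := by
  unfold grid2
  rw [List.mem_range]
  simp only [List.length_cons, Helper22.un_length, List.length_map]
  omega

/-- the moves -/
def mvE (k N κ : ℕ) (L : Inp) : List En :=
  (lpow (prsG (0 :: names L, grid2 k N L)) κ).map fun m => m.map fun p => (p.1, ((p.2, 0), 1))

theorem fp_mvE (k N κ : ℕ) : FP (mvE k N κ) := by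
  have h0 : FP fun r : (Inp × List (ℕ × ℕ)) × (ℕ × ℕ) => ((r.2.1, ((r.2.2, 0), 1)) : ℕ × El) :=
    FP.pair (FP.fst.comp FP.snd) (FP.pair (FP.pair (FP.snd.comp FP.snd) (FP.const 0))
      (FP.const 1))
  have h1 : FP fun q : Inp × List (ℕ × ℕ) => q.2.map fun p =>
      (fun r : (Inp × List (ℕ × ℕ)) × (ℕ × ℕ) => ((r.2.1, ((r.2.2, 0), 1)) : ℕ × El)) (q, p) :=
    fp_map FP.snd h0
  have h2 : FP fun L : Inp => 0 :: names L := FP.cons (FP.const 0) fp_names
  exact fp_map (fp_lpow (fp_prsG.comp (h2.pair (fp_grid2 k N))) κ) h1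

/-- the point found by the local search -/
def ptF (k N κ : ℕ) : Inp → En := fin1 (potE k N) (mvE k N κ) (clkE k N)

theorem fp_ptF (k N κ : ℕ) : FP (ptF k N κ) :=
  fp_fin1 (fp_potE k N) (fp_mvE k N κ) (fp_clkE k N)

end

end Pool.Agent.Helper6.SP
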