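import Pool.Agent.Helper6.SP.LocM

set_option autoImplicit false

/-!
The tests as polynomials.
-/

namespace Pool.Agent.Helper6.SP

open MvPolynomial Pool.Agent.Helper6.WB

/-- the input -/
def cd (L : List (List Fm)) : Inp := L.map fun p => p.map Fm.code

/-- the formulas to be instantiated -/
def gF (L : List (List Fm)) : List Fm :=
  Fm.const 0 :: (L.flatten ++ (names (cd L)).map fun c => Fm.var (c - 3))

theorem cd_flatten (L : List (List Fm)) : (cd L).flatten = L.flatten.map Fm.code := by
  rw [cd, List.map_flatten]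

theorem gs_cd (L : List (List Fm)) : gs (cd L) = (gF L).map Fm.code := by
  rw [gs, gF, List.map_cons, List.map_append, cd_flatten, List.map_map]
  have h : (names (cd L)).map (fun c => [(c, (0 : ℚ))]) =
      (names (cd L)).map (Fm.code ∘ fun c => Fm.var (c - 3)) := by
    apply List.map_congr_left
    intro c hc
    have := (mem_names.mp hc).1
    simp only [Function.comp, Fm.code]
    rw [Nat.sub_add_cancel this]
  rw [h]
  rfl

/-- the instances -/
def iF (k : ℕ) (L : List (List Fm)) : List Fm :=
  (gF L).flatMap fun g => (lpow (pairs1 (cd L)) k).map fun m => g.subst (sgl m)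

theorem insts_cd (k : ℕ) (L : List (List Fm)) : insts k (cd L) = (iF k L).map Fm.code := by
  rw [insts, iF, gs_cd, List.flatMap_map, List.map_flatMap]
  congr 1
  funext g
  rw [List.map_map]
  apply List.map_congr_left
  intro m _
  exact subTok_code m g

theorem lpow_map {α β : Type} (f : α → β) (P : List α) (j : ℕ) :
    lpow (P.map f) j = (lpow P j).map (List.map f) := by
  induction j with
  | zero => rfl
  | succ j ih =>
    simp only [lpow]
    rw [ih, List.flatMap_map, List.map_flatMap]
    congr 1
    funext m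
    rw [List.map_map, List.map_map]
    rfl

/-- the minors -/
noncomputable def dP (M : ℕ) (a : List Fm) (V : List ℕ) : MvPolynomial ℕ ℚ :=
  (Matrix.of fun i j : Fin M => pderiv (V.getD j 0 - 3) (a.getD i (Fm.const 0)).poly).det

/-- the tests -/
noncomputable def Ts (k : ℕ) : ℕ → List (List Fm) → List (MvPolynomial ℕ ℚ)
  | 0, L => (iF k L).flatMap fun F => F.subs.map Fm.poly
  | N + 1, L => Ts k N L ++ (lpow (iF k L) (N + 1)).flatMap fun a =>
      (lpow (names (cd L)) (N + 1)).map fun V => dP (N + 1) a V

theorem detT_cd (M : ℕ) (e : En) (a : List Fm) (V : List ℕ) (ha : a.length = M)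
    (hV : V.length = M) (h3 : ∀ c ∈ V, 3 ≤ c) :
    detT M e (a.map Fm.code) V = eval (ptE e) (dP M a V) := by
  rw [detT, dP, RingHom.map_det]
  congr 1
  ext i j
  simp only [RingHom.mapMatrix_apply, Matrix.map_apply, Matrix.of_apply]
  have h1 : (i : ℕ) < a.length := by rw [ha]; exact i.2
  have h2 : (j : ℕ) < V.length := by rw [hV]; exact j.2
  rw [List.getD_eq_getElem _ _ (by rw [List.length_map]; exact h1), List.getElem_map,
    List.getD_eq_getElem _ _ h1, List.getD_eq_getElem _ _ h2]
  have h4 := h3 _ (List.getElem_mem h2)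
  rw [← topD_code, Nat.sub_add_cancel h4]

theorem countP_flatMap' {α β : Type} (p : β → Bool) (l : List α) (f : α → List β) :
    (l.flatMap f).countP p = (l.map fun a => (f a).countP p).sum := by
  induction l with
  | nil => rfl
  | cons a l ih => rw [List.flatMap_cons, List.countP_append, ih, List.map_cons, List.sum_cons]

theorem countP_map_len {α : Type} (p : α → Bool) (l : List α) :
    (l.flatMap fun a => if p a then [] else [true]).length = l.countP fun a => !(p a) := by
  induction l with
  | nil => rfl
  | cons a l ih =>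
    rw [List.flatMap_cons, List.length_append, ih]
    cases h : p a with
    | true =>
      rw [List.countP_cons_of_neg (by simp [h])]
      simp
    | false =>
      rw [List.countP_cons_of_pos (by simp [h])]
      simp [add_comm]

theorem ptl_append (γ : ℕ → ℚ) (A B : List (MvPolynomial ℕ ℚ)) :
    ptl γ (A ++ B) = ptl γ A + ptl γ B := List.countP_append

theorem potA_length (k : ℕ) (L : List (List Fm)) (e : En) :
    (potA k (cd L, e)).length = ptl (ptE e) (Ts k 0 L) := by
  rw [potA, insts_cd, List.flatMap_map, List.length_flatMap, ptl, Ts, countP_flatMap']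
  congr 1
  apply List.map_congr_left
  intro F _
  rw [drun_code, List.length_replicate, pot, List.countP_map]
  apply List.countP_congr
  intro G _
  simp only [Function.comp, Fm.eval_poly]

theorem potB_length (k M : ℕ) (L : List (List Fm)) (e : En) :
    (potB k M (cd L, e)).length = ptl (ptE e) ((lpow (iF k L) M).flatMap fun a =>
      (lpow (names (cd L)) M).map fun V => dP M a V) := by
  rw [potB, insts_cd, lpow_map, List.flatMap_map, List.length_flatMap, ptl, countP_flatMap']
  congr 1
  apply List.map_congr_left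
  intro a ha
  rw [countP_map_len, List.countP_map]
  apply List.countP_congr
  intro V hV
  simp only [Function.comp]
  rw [detT_cd M e a V (mem_lpow.mp ha).1 (mem_lpow.mp hV).1
    (fun c hc => (mem_names.mp ((mem_lpow.mp hV).2 c hc)).1)]
  simp

theorem potE_length (k N : ℕ) (L : List (List Fm)) (e : En) :
    (potE k N (cd L, e)).length = ptl (ptE e) (Ts k N L) := by
  induction N with
  | zero => exact potA_length k L e
  | succ N ih => rw [potE, List.length_append, ih, potB_length, Ts, ptl_append]

theorem clkE_length (k N : ℕ) (L : List (List Fm)) :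
    (clkE k N (cd L)).length = (Ts k N L).length := by
  induction N with
  | zero =>
    rw [clkE, Ts, insts_cd, List.flatMap_map, List.length_flatMap, List.length_flatMap]
    congr 1
    apply List.map_congr_left
    intro F _
    rw [List.length_map, List.length_map, code_length]
  | succ N ih =>
    rw [clkE, Ts, List.length_append, List.length_append, ih, insts_cd, lpow_map,
      List.flatMap_map, List.length_flatMap, List.length_flatMap]
    congr 2
    apply List.map_congr_left
    intro a _
    rw [List.length_map, List.length_map]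

theorem mem_Ts_sub {k N : ℕ} {L : List (List Fm)} {F G : Fm} (hF : F ∈ iF k L)
    (hG : G ∈ F.subs) : G.poly ∈ Ts k N L := by
  induction N with
  | zero =>
    rw [Ts, List.mem_flatMap]
    exact ⟨F, hF, List.mem_map_of_mem hG⟩
  | succ N ih =>
    rw [Ts]
    exact List.mem_append_left _ ih

theorem mem_Ts_det {k N M : ℕ} {L : List (List Fm)} (h1 : 1 ≤ M) (h2 : M ≤ N) {a : List Fm}
    {V : List ℕ} (ha : a ∈ lpow (iF k L) M) (hV : V ∈ lpow (names (cd L)) M) :
    dP M a V ∈ Ts k N L := by
  induction N with
  | zero => omega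
  | succ N ih =>
    rw [Ts]
    by_cases h : M ≤ N
    · exact List.mem_append_left _ (ih h)
    · have : M = N + 1 := by omega
      subst this
      apply List.mem_append_right
      rw [List.mem_flatMap]
      exact ⟨a, ha, List.mem_map_of_mem hV⟩

theorem mem_gF {L : List (List Fm)} {g : Fm} : g ∈ gF L ↔ g = Fm.const 0 ∨
    g ∈ L.flatten ∨ ∃ i, i + 3 ∈ names (cd L) ∧ g = Fm.var i := by
  rw [gF, List.mem_cons, List.mem_append, List.mem_map]
  constructor
  · rintro (h | h | ⟨c, hc, rfl⟩)
    · exact Or.inl h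
    · exact Or.inr (Or.inl h)
    · have := (mem_names.mp hc).1
      exact Or.inr (Or.inr ⟨c - 3, by rwa [Nat.sub_add_cancel this], rfl⟩)
  · rintro (h | h | ⟨i, hi, rfl⟩)
    · exact Or.inl h
    · exact Or.inr (Or.inl h)
    · exact Or.inr (Or.inr ⟨i + 3, hi, by simp⟩)

theorem code_le_toks {L : List (List Fm)} {g : Fm} (h : g ∈ L.flatten) :
    g.code.length ≤ (toks (cd L)).length := by
  have h1 : g.code ∈ (cd L).flatten := by
    rw [cd_flatten]
    exact List.mem_map_of_mem h
  exact (List.sublist_flatten_of_mem h1).length_le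

theorem gF_code {L : List (List Fm)} {g : Fm} (h : g ∈ gF L) :
    g.code.length ≤ (toks (cd L)).length + 1 := by
  rcases mem_gF.mp h with rfl | h | ⟨i, _, rfl⟩
  · exact Nat.le_add_left _ _
  · exact (code_le_toks h).trans (Nat.le_succ _)
  · exact Nat.le_add_left _ _

theorem mem_iF {k : ℕ} {L : List (List Fm)} {F : Fm} : F ∈ iF k L ↔ ∃ g ∈ gF L,
    ∃ m ∈ lpow (pairs1 (cd L)) k, F = g.subst (sgl m) := by
  rw [iF, List.mem_flatMap]
  constructor
  · rintro ⟨g, hg, hF⟩
    obtain ⟨m, hm, rfl⟩ := List.mem_map.mp hF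
    exact ⟨g, hg, m, hm, rfl⟩
  · rintro ⟨g, hg, m, hm, rfl⟩
    exact ⟨g, hg, List.mem_map_of_mem hm⟩

theorem iF_code {k : ℕ} {L : List (List Fm)} {F : Fm} (h : F ∈ iF k L) :
    F.code.length ≤ (toks (cd L)).length + 1 := by
  obtain ⟨g, hg, m, _, rfl⟩ := mem_iF.mp h
  rw [code_subst_length]
  exact gF_code hg

theorem vars_flatten {L : List (List Fm)} {g : Fm} (h : g ∈ L.flatten) {i : ℕ}
    (hi : i ∈ g.vars) : i + 3 ∈ names (cd L) := by
  rw [mem_names]
  refine ⟨by omega, ?_⟩
  have h1 := mem_code_of_mem_vars hi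
  have h2 : g.code ∈ (cd L).flatten := by
    rw [cd_flatten]
    exact List.mem_map_of_mem h
  obtain ⟨t, ht, hti⟩ := List.mem_map.mp h1
  exact List.mem_map.mpr ⟨t, List.mem_flatten.mpr ⟨_, h2, ht⟩, hti⟩

theorem vars_gF {L : List (List Fm)} {g : Fm} (h : g ∈ gF L) {i : ℕ}
    (hi : i ∈ g.vars) : i + 3 ∈ names (cd L) := by
  rcases mem_gF.mp h with rfl | h | ⟨j, hj, rfl⟩
  · simp [Fm.vars] at hi
  · exact vars_flatten h hi
  · have : i = j := by simpa [Fm.vars] using hi
    rw [this]; exact hj

theorem vars_iF {k : ℕ} {L : List (List Fm)} {F : Fm} (h : F ∈ iF k L) {i : ℕ}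
    (hi : i ∈ F.vars) : i + 3 ∈ names (cd L) := by
  obtain ⟨g, hg, m, _, rfl⟩ := mem_iF.mp h
  exact vars_gF hg (vars_subst _ _ hi)

theorem reads_iF {k r : ℕ} (hr1 : 1 ≤ r) {L : List (List Fm)}
    (hr : ∀ g ∈ L.flatten, ∀ i, g.reads i ≤ r) {F : Fm} (h : F ∈ iF k L) (i : ℕ) :
    F.reads i ≤ r := by
  obtain ⟨g, hg, m, _, rfl⟩ := mem_iF.mp h
  refine (reads_subst _ _ _).trans ?_
  rcases mem_gF.mp hg with rfl | hg | ⟨j, _, rfl⟩
  · exact Nat.zero_le _
  · exact hr g hg i
  · simp only [Fm.reads]
    split_ifs <;> omega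

theorem names_length (L : Inp) : (names L).length ≤ (toks L).length := by
  have h1 : (names L).Subperm ((toks L).map Prod.fst) :=
    (names_nodup L).subperm fun c hc => (mem_names.mp hc).2
  have := h1.length_le
  rwa [List.length_map] at this

theorem totalDegree_pderiv_le {σ : Type} (i : σ) (p : MvPolynomial σ ℚ) :
    (pderiv i p).totalDegree ≤ p.totalDegree := by
  classical
  conv_lhs => rw [p.as_sum, map_sum]
  apply totalDegree_finsetSum_le
  intro m hm
  rw [pderiv_monomial]
  refine (totalDegree_monomial_le _ _).trans ?_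
  refine le_trans ?_ (le_totalDegree hm)
  rw [Finsupp.sum, Finsupp.sum]
  have h1 : (m - Finsupp.single i 1).support ⊆ m.support := by
    intro j hj
    rw [Finsupp.mem_support_iff] at hj ⊢
    intro h0
    apply hj
    rw [Finsupp.tsub_apply, h0, Nat.zero_sub]
  refine (Finset.sum_le_sum fun j _ => ?_).trans (Finset.sum_le_sum_of_subset h1)
  rw [Finsupp.tsub_apply]
  exact Nat.sub_le _ _

theorem totalDegree_det_le {σ : Type} {M d : ℕ} (A : Matrix (Fin M) (Fin M) (MvPolynomial σ ℚ))
    (h : ∀ i j, (A i j).totalDegree ≤ d) : A.det.totalDegree ≤ M * d := by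
  rw [Matrix.det_apply]
  apply totalDegree_finsetSum_le
  intro s _
  refine (totalDegree_smul_le _ _).trans ?_
  refine (totalDegree_finsetProd _ _).trans ?_
  calc ∑ i, (A (s i) i).totalDegree ≤ ∑ _i : Fin M, d := Finset.sum_le_sum fun i _ => h _ _
    _ = M * d := by simp

theorem deg_Ts {k N : ℕ} {L : List (List Fm)} {Q : MvPolynomial ℕ ℚ} (h : Q ∈ Ts k N L) :
    Q.totalDegree ≤ (N + 1) * ((toks (cd L)).length + 1) := by
  induction N with
  | zero =>
    rw [Ts, List.mem_flatMap] at h
    obtain ⟨F, hF, hQ⟩ := h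
    obtain ⟨G, hG, rfl⟩ := List.mem_map.mp hQ
    have h1 := Fm.totalDegree_poly G
    have h2 := Fm.size_sub hG
    have h3 := size_le_code F
    have h4 := iF_code hF
    omega
  | succ N ih =>
    rw [Ts, List.mem_append] at h
    rcases h with h | h
    · refine (ih h).trans (Nat.mul_le_mul_right _ (Nat.le_succ _))
    · rw [List.mem_flatMap] at h
      obtain ⟨a, ha, hQ⟩ := h
      obtain ⟨V, hV, rfl⟩ := List.mem_map.mp hQ
      refine (totalDegree_det_le (d := (toks (cd L)).length + 1) _ ?_).trans
        (Nat.mul_le_mul_right _ (Nat.le_succ _))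
      intro i j
      simp only [Matrix.of_apply]
      refine (totalDegree_pderiv_le _ _).trans ?_
      obtain ⟨h1, h2⟩ := mem_lpow.mp ha
      have h3 : (i : ℕ) < a.length := by rw [h1]; exact i.2
      rw [List.getD_eq_getElem _ _ h3]
      have h4 := iF_code (h2 _ (List.getElem_mem h3))
      have h5 := Fm.totalDegree_poly a[(i : ℕ)]
      have h6 := size_le_code a[(i : ℕ)]
      omega

end Pool.Agent.Helper6.SP
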